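import Pool.Agent.Lib_MP_1209e6_ds.Defs

/-! PIECE BASE: the algebraic closure of the function field. -/

set_option autoImplicit false

open MvPolynomial

namespace Pool.Agent.DS

theorem aeval_mem_adjoin {m : ℕ} (F : MvPolynomial (Fin (m + 2)) ℂ) {K : Type} [Field K] [Algebra ℂ K]
    (z : Fin (m + 1) → K) :
    aeval (Fin.cons 1 z : Fin (m + 2) → K) F ∈ IntermediateField.adjoin ℂ (Set.range z) := by
  have h : ∀ i, (Fin.cons 1 z : Fin (m + 2) → K) i ∈ IntermediateField.adjoin ℂ (Set.range z) := by
    intro i
    refine Fin.cases ?_ (fun j => ?_) i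
    · rw [Fin.cons_zero]; exact one_mem _
    · rw [Fin.cons_succ]; exact IntermediateField.subset_adjoin _ _ ⟨j, rfl⟩
  have e : aeval (Fin.cons 1 z : Fin (m + 2) → K) F =
      (IntermediateField.adjoin ℂ (Set.range z)).val
        (aeval (fun i => (⟨(Fin.cons 1 z : Fin (m + 2) → K) i, h i⟩ :
          IntermediateField.adjoin ℂ (Set.range z))) F) := by
    rw [← AlgHom.comp_apply, MvPolynomial.comp_aeval]
    rfl
  rw [e]
  exact Subtype.property _

/-- `K` is algebraic over `ℂ(z)`, so the images of `z` in the algebraic closure are a transcendence basis -/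
theorem generic_closure {m : ℕ} {F : MvPolynomial (Fin (m + 2)) ℂ} {K : Type} [Field K] [Algebra ℂ K]
    (z : Fin (m + 1) → K) (w : K) (hz : AlgebraicIndependent ℂ z)
    (hw : w ^ 2 = aeval (Fin.cons 1 z) F)
    (hgen : IntermediateField.adjoin ℂ (Set.range z ∪ {w}) = ⊤) :
    Generic fun j => algebraMap K (AlgebraicClosure K) (z j) := by
  refine ⟨?_, ?_⟩
  · exact hz.map' (f := IsScalarTower.toAlgHom ℂ K (AlgebraicClosure K))
      (algebraMap K (AlgebraicClosure K)).injective
  · intro a
    set F0 := IntermediateField.adjoin ℂ (Set.range z) with hF0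
    set F1 := IntermediateField.adjoin ℂ
      (Set.range fun j => algebraMap K (AlgebraicClosure K) (z j)) with hF1
    have hw0 : IsAlgebraic F0 w := by
      have h1 : IsAlgebraic F0 (w ^ 2) := by
        rw [hw]
        exact isAlgebraic_algebraMap (A := K) (⟨_, aeval_mem_adjoin F z⟩ : F0)
      exact h1.of_pow two_pos
    have hK : Algebra.IsAlgebraic F0 K := by
      have hle : (⊤ : IntermediateField ℂ K) ≤
          (algebraicClosure F0 K).restrictScalars ℂ := by
        rw [← hgen, IntermediateField.adjoin_le_iff]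
        rintro y (⟨j, rfl⟩ | hy)
        · refine (mem_algebraicClosure_iff).2 ?_
          exact isAlgebraic_algebraMap (A := K)
            (⟨z j, IntermediateField.subset_adjoin _ _ ⟨j, rfl⟩⟩ : F0)
        · rw [Set.mem_singleton_iff] at hy
          rw [hy]
          exact (mem_algebraicClosure_iff).2 hw0
      exact ⟨fun y => mem_algebraicClosure_iff.1 (hle (IntermediateField.mem_top (x := y)))⟩
    have hA : IsAlgebraic F0 a := by
      have : Algebra.IsAlgebraic K (AlgebraicClosure K) := inferInstance
      exact ((Algebra.IsAlgebraic.trans F0 K (AlgebraicClosure K)).isAlgebraic a)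
    have hmap : ∀ u : F0, algebraMap K (AlgebraicClosure K) (u : K) ∈ F1 := by
      intro u
      have h1 : F1 = F0.map (IsScalarTower.toAlgHom ℂ K (AlgebraicClosure K)) := by
        rw [hF0, hF1, IntermediateField.adjoin_map]
        congr 1
        rw [← Set.range_comp]
        rfl
      rw [h1]
      exact ⟨u, u.2, rfl⟩
    let f : F0 →+* F1 := RingHom.codRestrict
      ((algebraMap K (AlgebraicClosure K)).comp (algebraMap F0 K)) F1 hmap
    have := IsAlgebraic.ringHom_of_comp_eq f (RingHom.id (AlgebraicClosure K)) hA f.injective (by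
      ext u; rfl)
    exact this

/-- the derivation `∑ v_i ∂_i` -/
theorem exists_along {Ω : Type} [Field Ω] [Algebra ℂ Ω] {m : ℕ} {x : Fin (m + 1) → Ω}
    (δ : Fin (m + 1) → Derivation ℂ Ω Ω) (hδ : ∀ i j, δ i (x j) = if i = j then 1 else 0)
    (v : Fin (m + 1) → Ω) : ∃ D : Derivation ℂ Ω Ω, ∀ j, D (x j) = v j := by
  refine ⟨∑ i, v i • δ i, fun j => ?_⟩
  have h : (∑ i, v i • δ i) (x j) = ∑ i, v i * δ i (x j) := by
    have := congrFun (map_sum (Derivation.coeFnAddMonoidHom (R := ℂ) (A := Ω) (M := Ω))
      (fun i => v i • δ i) Finset.univ) (x j)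
    rw [Finset.sum_apply] at this
    exact this
  rw [h, Finset.sum_eq_single j]
  · rw [hδ, if_pos rfl, mul_one]
  · intro i _ hij
    rw [hδ, if_neg hij, mul_zero]
  · intro h; exact absurd (Finset.mem_univ j) h

end Pool.Agent.DS
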