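import Pool.Agent.Lib_MP_1209e6_ds.Family
import Pool.Agent.Lib_MP_1209e6_dp.Homog

/-! PIECE COVER: the family as a finite cover of the double cover. -/

set_option autoImplicit false

open MvPolynomial Pool.Agent.CampanaFlow

namespace Pool.Agent.DS

/-- restriction of a derivation to a subfield which it preserves -/
theorem cov_restrict {Ω : Type} [Field Ω] [Algebra ℂ Ω] (T : Set Ω) (D : Derivation ℂ Ω Ω)
    (h : ∀ a ∈ T, D a ∈ IntermediateField.adjoin ℂ T) :
    ∃ D' : Derivation ℂ (IntermediateField.adjoin ℂ T) (IntermediateField.adjoin ℂ T),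
      ∀ a, ((D' a : IntermediateField.adjoin ℂ T) : Ω) = D a := by
  have hmem : ∀ a ∈ IntermediateField.adjoin ℂ T, D a ∈ IntermediateField.adjoin ℂ T := by
    intro a ha
    induction ha using IntermediateField.adjoin_induction with
    | mem x hx => exact h x hx
    | algebraMap r => rw [D.map_algebraMap]; exact zero_mem _
    | add x y _ _ hx hy => rw [map_add]; exact add_mem hx hy
    | inv x hx' hx =>
      rw [Derivation.leibniz_inv, smul_eq_mul]
      exact mul_mem (neg_mem (pow_mem (inv_mem hx') 2)) hx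
    | mul x y hx' hy' hx hy =>
      rw [Derivation.leibniz, smul_eq_mul, smul_eq_mul]
      exact add_mem (mul_mem hx' hy) (mul_mem hy' hx)
  refine ⟨{ toFun := fun a => ⟨D a, hmem a a.2⟩
            map_add' := fun a b => Subtype.ext (D.map_add a b)
            map_smul' := fun c a => Subtype.ext (D.map_smul c (a : Ω))
            map_one_eq_zero' := Subtype.ext D.map_one_eq_zero
            leibniz' := fun a b => Subtype.ext (D.leibniz (a : Ω) b) }, fun a => rfl⟩

/-- the same over any algebraic extension -/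
theorem cov_aux {m : ℕ} {F : MvPolynomial (Fin (m + 2)) ℂ} {K : Type} [Field K] [Algebra ℂ K]
    {Ω : Type} [Field Ω] [Algebra ℂ Ω] [Algebra K Ω] [IsScalarTower ℂ K Ω] [Algebra.IsAlgebraic K Ω]
    (z : Fin (m + 1) → K) (w : K) (hw : w ^ 2 = aeval (Fin.cons 1 z) F) (hw0 : w ≠ 0)
    (hgen : IntermediateField.adjoin ℂ (Set.range z ∪ {w}) = ⊤)
    (D : Derivation ℂ Ω Ω) (M : Fam F (fun j => algebraMap K Ω (z j)) D) :
    ∃ (L : Type) (_ : Field L) (_ : Algebra ℂ L) (j : K →ₐ[ℂ] L) (e : L →ₐ[ℂ] Ω)
      (k : IntermediateField ℂ L) (N : ℕ) (X : Fin (N + 1) → L),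
      (∀ u, e (j u) = algebraMap K Ω u) ∧
      @Module.Finite K L _ _ (j.toRingHom.toAlgebra).toModule ∧ AlmostHomogeneous k X ∧
      ∀ a : L, IsAlgebraic k a → D (e a) = 0 := by
  classical
  have hchar : CharZero Ω := charZero_of_injective_algebraMap (algebraMap ℂ Ω).injective
  obtain ⟨T, hT⟩ : ∃ T : Set Ω, T = (M.S : Set Ω) ∪ {M.t, M.y} := ⟨_, rfl⟩
  have hTfin : T.Finite := by
    rw [hT]
    exact (Finset.finite_toSet _).union (Set.toFinite _)
  have hST : (M.S : Set Ω) ⊆ T := by
    rw [hT]
    exact Set.subset_union_left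
  have htT : M.t ∈ T := by
    rw [hT]
    exact Or.inr (Or.inl rfl)
  have hyT : M.y ∈ T := by
    rw [hT]
    exact Or.inr (Or.inr rfl)
  have hTE : T ⊆ (IntermediateField.adjoin ℂ T : Set Ω) := IntermediateField.subset_adjoin ℂ T
  have hSE : IntermediateField.adjoin ℂ (M.S : Set Ω) ≤ IntermediateField.adjoin ℂ T :=
    IntermediateField.adjoin.mono ℂ _ _ hST
  have hStE : IntermediateField.adjoin ℂ ((M.S : Set Ω) ∪ {M.t}) ≤ IntermediateField.adjoin ℂ T := by
    refine IntermediateField.adjoin.mono ℂ _ _ (Set.union_subset hST ?_)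
    rw [Set.singleton_subset_iff]
    exact htT
  -- `K ⊂ L`
  let φ : K →ₐ[ℂ] Ω := IsScalarTower.toAlgHom ℂ K Ω
  have hφ : ∀ u, φ u = algebraMap K Ω u := fun u => rfl
  obtain ⟨g, hgE, hg⟩ := M.w_mem (algebraMap K Ω w) (by
    rw [← map_pow, hw]
    have h1 := (MvPolynomial.aeval_algebraMap_apply (R := ℂ) Ω (Fin.cons 1 z : Fin (m + 2) → K) F)
    have h2 : (fun i => algebraMap K Ω ((Fin.cons 1 z : Fin (m + 2) → K) i)) =
        (Fin.cons 1 fun j => algebraMap K Ω (z j) : Fin (m + 2) → Ω) := by
      funext i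
      refine Fin.cases ?_ (fun i => ?_) i
      · simp
      · simp
    rw [← h2]
    exact h1.symm)
  have hy0 : M.y ≠ 0 := by
    intro h
    rw [h, mul_zero] at hg
    exact hw0 ((map_eq_zero_iff _ (algebraMap K Ω).injective).1 hg)
  have hKE : ∀ u : K, φ u ∈ IntermediateField.adjoin ℂ T := by
    intro u
    have hu : u ∈ IntermediateField.adjoin ℂ (Set.range z ∪ {w}) := by
      rw [hgen]
      exact IntermediateField.mem_top
    induction hu using IntermediateField.adjoin_induction with
    | mem x hx =>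
      rcases hx with ⟨j, rfl⟩ | hx
      · exact hStE (M.x_mem j)
      · rw [Set.mem_singleton_iff.1 hx, hφ, hg]
        exact mul_mem (hStE hgE) (hTE hyT)
    | algebraMap r => rw [φ.commutes]; exact IntermediateField.algebraMap_mem _ r
    | add x y _ _ hx hy => rw [map_add]; exact add_mem hx hy
    | inv x _ hx => rw [map_inv₀]; exact inv_mem hx
    | mul x y _ _ hx hy => rw [map_mul]; exact mul_mem hx hy
  let j : K →ₐ[ℂ] IntermediateField.adjoin ℂ T :=
    φ.codRestrict (IntermediateField.adjoin ℂ T).toSubalgebra hKE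
  have hj : ∀ u, ((j u : IntermediateField.adjoin ℂ T) : Ω) = algebraMap K Ω u := fun u => rfl
  -- constants
  have hSD : ∀ a ∈ IntermediateField.adjoin ℂ (M.S : Set Ω), D a = 0 := by
    intro a ha
    induction ha using IntermediateField.adjoin_induction with
    | mem x hx => exact M.S_const x hx
    | algebraMap r => exact D.map_algebraMap r
    | add x y _ _ hx hy => rw [map_add, hx, hy, add_zero]
    | inv x _ hx => rw [Derivation.leibniz_inv, hx, smul_zero]
    | mul x y _ _ hx hy => rw [Derivation.leibniz, hx, hy, smul_zero, smul_zero, add_zero]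
  let k : IntermediateField ℂ (IntermediateField.adjoin ℂ T) :=
    (IntermediateField.adjoin ℂ (M.S : Set Ω)).comap (IntermediateField.adjoin ℂ T).val
  have hk : ∀ a : IntermediateField.adjoin ℂ T, a ∈ k ↔
      (a : Ω) ∈ IntermediateField.adjoin ℂ (M.S : Set Ω) := fun a => Iff.rfl
  have halg : ∀ a : IntermediateField.adjoin ℂ T, IsAlgebraic k a → D (a : Ω) = 0 := by
    intro a ha
    refine Pool.Agent.DP.der_alg (IntermediateField.adjoin ℂ (M.S : Set Ω)) D hSD ?_
    obtain ⟨P, hP0, hP⟩ := ha
    let ψ : k →+* IntermediateField.adjoin ℂ (M.S : Set Ω) :=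
      { toFun := fun x => ⟨((x : IntermediateField.adjoin ℂ T) : Ω), x.2⟩
        map_one' := rfl
        map_mul' := fun _ _ => rfl
        map_zero' := rfl
        map_add' := fun _ _ => rfl }
    refine ⟨P.map ψ, ?_, ?_⟩
    · intro h
      exact hP0 ((Polynomial.map_eq_zero ψ).1 h)
    · rw [Polynomial.aeval_def, Polynomial.eval₂_map]
      have h1 := congrArg (fun x : IntermediateField.adjoin ℂ T => (x : Ω)) hP
      rw [Polynomial.aeval_def] at h1
      have h2 : ((Polynomial.eval₂ (algebraMap k (IntermediateField.adjoin ℂ T)) a P :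
          IntermediateField.adjoin ℂ T) : Ω) =
          Polynomial.eval₂ ((algebraMap (IntermediateField.adjoin ℂ T) Ω).comp
            (algebraMap k (IntermediateField.adjoin ℂ T))) (a : Ω) P :=
        Polynomial.hom_eval₂ P (algebraMap k (IntermediateField.adjoin ℂ T))
          (algebraMap (IntermediateField.adjoin ℂ T) Ω) a
      have h3 : ((algebraMap (IntermediateField.adjoin ℂ T) Ω).comp
            (algebraMap k (IntermediateField.adjoin ℂ T))) =
          (algebraMap (IntermediateField.adjoin ℂ (M.S : Set Ω)) Ω).comp ψ := rfl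
      rw [← h3, ← h2]
      exact h1
  let tE : IntermediateField.adjoin ℂ T := ⟨M.t, hTE htT⟩
  let yE : IntermediateField.adjoin ℂ T := ⟨M.y, hTE hyT⟩
  -- the polynomial
  have hR : ∃ R' : Polynomial (IntermediateField.adjoin ℂ T),
      R'.map (algebraMap (IntermediateField.adjoin ℂ T) Ω) = M.R := by
    have hmem : M.R ∈ Polynomial.lifts (algebraMap (IntermediateField.adjoin ℂ T) Ω) := by
      rw [Polynomial.lifts_iff_coeff_lifts]
      intro n
      exact ⟨⟨M.R.coeff n, hSE (M.R_coeff n)⟩, rfl⟩
    exact (Polynomial.mem_lifts _).1 hmem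
  obtain ⟨R', hR'⟩ := hR
  have hRc : ∀ n, ((R'.coeff n : IntermediateField.adjoin ℂ T) : Ω) = M.R.coeff n := by
    intro n
    rw [← hR', Polynomial.coeff_map]
    rfl
  have hR4 : R'.natDegree ≤ 4 := by
    have h1 := M.R_deg
    rw [← hR', Polynomial.natDegree_map] at h1
    exact h1
  have hyy : yE ^ 2 = R'.eval tE := by
    apply Subtype.ext
    have h1 := M.y_sq
    rw [← hR', Polynomial.eval_map] at h1
    have h2 : ((R'.eval tE : IntermediateField.adjoin ℂ T) : Ω) =
        Polynomial.eval₂ (algebraMap (IntermediateField.adjoin ℂ T) Ω) M.t R' := by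
      have h3 := Polynomial.hom_eval₂ R' (RingHom.id _)
        (algebraMap (IntermediateField.adjoin ℂ T) Ω) tE
      rw [RingHom.comp_id] at h3
      exact h3
    rw [h2, ← h1]
    rfl
  have hyE0 : yE ≠ 0 := fun h => hy0 (congrArg (fun x : IntermediateField.adjoin ℂ T => (x : Ω)) h)
  -- the derivation
  obtain ⟨D1, hD1⟩ : ∃ D1 : Derivation ℂ Ω Ω, D1 = (M.y / D M.t) • D := ⟨_, rfl⟩
  have hD1t : D1 M.t = M.y := by
    rw [hD1, Derivation.smul_apply, smul_eq_mul, div_mul_cancel₀ _ M.Dt]
  have hD1S : ∀ a ∈ IntermediateField.adjoin ℂ (M.S : Set Ω), D1 a = 0 := by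
    intro a ha
    rw [hD1, Derivation.smul_apply, hSD a ha, smul_zero]
  have hD1y : D1 M.y = M.R.derivative.eval M.t / 2 := by
    have h1 := congrArg D1 M.y_sq
    have h2 : D1 (M.R.eval M.t) = M.R.derivative.eval M.t * M.y := by
      rw [Polynomial.eval_eq_sum_range, map_sum, Polynomial.derivative_eval, Polynomial.sum_def]
      rw [Finset.sum_mul]
      rw [Finset.sum_subset (s₁ := M.R.support) (s₂ := Finset.range (M.R.natDegree + 1))]
      · refine Finset.sum_congr rfl fun n _ => ?_
        rw [Derivation.leibniz, hD1S _ (M.R_coeff n), smul_zero, add_zero, Derivation.leibniz_pow,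
          hD1t, nsmul_eq_mul, smul_eq_mul, smul_eq_mul]
        ring
      · intro n hn
        exact Finset.mem_range.2 (Nat.lt_succ_of_le (Polynomial.le_natDegree_of_mem_supp n hn))
      · intro n _ hn
        rw [Polynomial.notMem_support_iff.1 hn]
        ring
    rw [h2, Derivation.leibniz_pow, nsmul_eq_mul, smul_eq_mul] at h1
    have h3 : (2 : Ω) ≠ 0 := two_ne_zero
    have h4 : M.y * (2 * D1 M.y) = M.y * M.R.derivative.eval M.t := by
      rw [mul_comm M.y (M.R.derivative.eval M.t), ← h1]
      push_cast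
      ring
    have h5 := mul_left_cancel₀ hy0 h4
    rw [← h5]
    field_simp
  obtain ⟨D', hD'⟩ := cov_restrict T D1 (by
    intro a ha
    rw [hT] at ha
    rcases ha with ha | ha | ha
    · rw [hD1S a (IntermediateField.subset_adjoin ℂ _ ha)]
      exact zero_mem _
    · rw [ha, hD1t]
      exact hTE hyT
    · rw [Set.mem_singleton_iff.1 ha, hD1y]
      refine div_mem ?_ (ofNat_mem _ 2)
      have h1 : M.R.derivative.eval M.t =
          (((R'.derivative).eval tE : IntermediateField.adjoin ℂ T) : Ω) := by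
        have h3 := Polynomial.hom_eval₂ R'.derivative (RingHom.id _)
          (algebraMap (IntermediateField.adjoin ℂ T) Ω) tE
        rw [RingHom.comp_id] at h3
        rw [← hR', Polynomial.derivative_map, Polynomial.eval_map]
        exact h3.symm
      rw [h1]
      exact (R'.derivative.eval tE).2)
  have hhom := Pool.Agent.DP.homogeneous k tE yE R' (fun n => by
      rw [hk, hRc]
      exact M.R_coeff n) hR4 (fun h => M.Dt (halg tE h)) hyy hyE0 (by
      rw [eq_top_iff]
      rintro a -
      have h1 : (IntermediateField.adjoin ℂ T) ≤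
          (IntermediateField.adjoin ℂ ((k : Set (IntermediateField.adjoin ℂ T)) ∪ {tE, yE})).map
            (IntermediateField.adjoin ℂ T).val := by
        rw [IntermediateField.adjoin_le_iff]
        intro b hb
        have hb' := hb
        rw [hT] at hb'
        refine ⟨⟨b, hTE hb⟩, IntermediateField.subset_adjoin ℂ _ ?_, rfl⟩
        rcases hb' with hb' | hb' | hb'
        · exact Or.inl (IntermediateField.subset_adjoin ℂ _ hb')
        · exact Or.inr (Or.inl (Subtype.ext hb'))
        · exact Or.inr (Or.inr (Subtype.ext (Set.mem_singleton_iff.1 hb')))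
      obtain ⟨b, hb, hba⟩ := h1 a.2
      have hab : b = a := Subtype.ext hba
      rw [← hab]
      exact hb) D' (by
      intro a ha
      apply Subtype.ext
      rw [hD' a]
      exact hD1S _ ha) (by
      apply Subtype.ext
      rw [hD' tE]
      exact hD1t)
  refine ⟨IntermediateField.adjoin ℂ T, inferInstance, inferInstance, j,
    (IntermediateField.adjoin ℂ T).val, k, 3, ![1, tE, tE ^ 2, yE], fun u => rfl, ?_, hhom.1,
    fun a ha => halg a ha⟩
  -- finite
  letI iKL : Algebra K (IntermediateField.adjoin ℂ T) := j.toRingHom.toAlgebra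
  have hfd : FiniteDimensional K (IntermediateField.adjoin K T) := by
    haveI : Finite T := hTfin
    exact IntermediateField.finiteDimensional_adjoin fun x _ =>
      (Algebra.IsAlgebraic.isAlgebraic x).isIntegral
  have hle : ∀ a ∈ IntermediateField.adjoin ℂ T, a ∈ IntermediateField.adjoin K T := by
    intro a ha
    induction ha using IntermediateField.adjoin_induction with
    | mem x hx => exact IntermediateField.subset_adjoin K T hx
    | algebraMap r =>
      rw [IsScalarTower.algebraMap_apply ℂ K Ω]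
      exact IntermediateField.algebraMap_mem _ _
    | add x y _ _ hx hy => exact add_mem hx hy
    | inv x _ hx => exact inv_mem hx
    | mul x y _ _ hx hy => exact mul_mem hx hy
  let Λ : IntermediateField.adjoin ℂ T →ₗ[K] IntermediateField.adjoin K T :=
    { toFun := fun a => ⟨(a : Ω), hle a a.2⟩
      map_add' := fun a b => rfl
      map_smul' := fun c a => by
        apply Subtype.ext
        rw [RingHom.id_apply, Algebra.smul_def c a]
        show (algebraMap K Ω c) * (a : Ω) = c • (a : Ω)
        rw [Algebra.smul_def] }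
  exact Module.Finite.of_injective Λ fun a b h => Subtype.ext (congrArg
    (fun x : IntermediateField.adjoin K T => (x : Ω)) h)

/-- `L = ℂ(S, t, y) ⊂ Ω` contains `K` (`Fam.x_mem`, `Fam.w_mem`), is finitely generated and algebraic over `K`;
`k = ℂ(S)`; `t` is not algebraic over `k` (`D t ≠ 0`, `DP.der_alg`); the derivation `(y / D t) D` of `Ω` preserves
`L` (`y ↦ R'(t) / 2`), kills `k`, maps `t` to `y`: `DP.homogeneous` with model `[1 : t : t² : y]`. `e` is the
inclusion. -/
theorem exists_cover {m : ℕ} {F : MvPolynomial (Fin (m + 2)) ℂ} {K : Type} [Field K] [Algebra ℂ K]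
    (z : Fin (m + 1) → K) (w : K) (hw : w ^ 2 = aeval (Fin.cons 1 z) F) (hw0 : w ≠ 0)
    (hgen : IntermediateField.adjoin ℂ (Set.range z ∪ {w}) = ⊤)
    (D : Derivation ℂ (AlgebraicClosure K) (AlgebraicClosure K))
    (M : Fam F (fun j => algebraMap K (AlgebraicClosure K) (z j)) D) :
    ∃ (L : Type) (_ : Field L) (_ : Algebra ℂ L) (j : K →ₐ[ℂ] L) (e : L →ₐ[ℂ] AlgebraicClosure K)
      (k : IntermediateField ℂ L) (N : ℕ) (X : Fin (N + 1) → L),
      (∀ u, e (j u) = algebraMap K (AlgebraicClosure K) u) ∧
      @Module.Finite K L _ _ (j.toRingHom.toAlgebra).toModule ∧ AlmostHomogeneous k X ∧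
      ∀ a : L, IsAlgebraic k a → D (e a) = 0 :=
  cov_aux z w hw hw0 hgen D M

end Pool.Agent.DS
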