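import Pool.Agent.Lib_MP_1209e6_ds.Defs

/-! PIECE GENERICNE: dehomogenisation is injective. -/

set_option autoImplicit false

open MvPolynomial

namespace Pool.Agent.DS

variable {Ω : Type} [Field Ω] [Algebra ℂ Ω]

theorem h30_eval_smul {n d : ℕ} {F : MvPolynomial (Fin n) ℂ} (hF : F.IsHomogeneous d) (t : ℂ)
    (p : Fin n → ℂ) : eval (fun i => t * p i) F = t ^ d * eval p F := by
  rw [MvPolynomial.eval_eq', MvPolynomial.eval_eq', Finset.mul_sum]
  apply Finset.sum_congr rfl
  intro a ha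
  have h1 : ∑ i, a i = d := by
    have := hF (MvPolynomial.mem_support_iff.mp ha)
    rw [← this, Finsupp.weight_apply, Finsupp.sum_fintype]
    · simp
    · intro i; simp
  simp only [mul_pow, Finset.prod_mul_distrib]
  rw [Finset.prod_pow_eq_pow_sum, h1]
  ring

/-- if `F (1, x) = 0` with `x` algebraically independent, `F (1, X) = 0` as a polynomial, so
`F (t, t p) = t ^ d F (1, p) = 0` for all complex `t`, `p`, so `F = 0`. -/
theorem generic_ne_of_ne {m d : ℕ} {F : MvPolynomial (Fin (m + 2)) ℂ} (hF0 : F ≠ 0)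
    (hF : F.IsHomogeneous d) {x : Fin (m + 1) → Ω} (hx : AlgebraicIndependent ℂ x) :
    aeval (Fin.cons 1 x : Fin (m + 2) → Ω) F ≠ 0 := by
  intro h
  let G : MvPolynomial (Fin (m + 1)) ℂ :=
    aeval (Fin.cons 1 X : Fin (m + 2) → MvPolynomial (Fin (m + 1)) ℂ) F
  have hG : aeval x G = aeval (Fin.cons 1 x : Fin (m + 2) → Ω) F := by
    have h1 : (aeval x : MvPolynomial (Fin (m + 1)) ℂ →ₐ[ℂ] Ω).comp
        (aeval (Fin.cons 1 X : Fin (m + 2) → MvPolynomial (Fin (m + 1)) ℂ)) =
        aeval (Fin.cons 1 x : Fin (m + 2) → Ω) := by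
      apply MvPolynomial.algHom_ext
      intro i
      refine Fin.cases ?_ (fun j => ?_) i <;> simp
    exact congrArg (fun f : MvPolynomial (Fin (m + 2)) ℂ →ₐ[ℂ] Ω => f F) h1
  have hG0 : G = 0 := by
    apply hx
    rw [hG, h, map_zero]
  have hGe : ∀ p : Fin (m + 1) → ℂ, eval (Fin.cons 1 p : Fin (m + 2) → ℂ) F = 0 := by
    intro p
    have h1 : (aeval p : MvPolynomial (Fin (m + 1)) ℂ →ₐ[ℂ] ℂ).comp
        (aeval (Fin.cons 1 X : Fin (m + 2) → MvPolynomial (Fin (m + 1)) ℂ)) =
        aeval (Fin.cons 1 p : Fin (m + 2) → ℂ) := by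
      apply MvPolynomial.algHom_ext
      intro i
      refine Fin.cases ?_ (fun j => ?_) i <;> simp
    have h2 := congrArg (fun f : MvPolynomial (Fin (m + 2)) ℂ →ₐ[ℂ] ℂ => f F) h1
    have h3 : aeval (Fin.cons 1 p : Fin (m + 2) → ℂ) F = 0 := by
      rw [← h2]
      show aeval p G = 0
      rw [hG0, map_zero]
    rw [← h3]
    rfl
  have hX : (X 0 : MvPolynomial (Fin (m + 2)) ℂ) * F = 0 := by
    apply MvPolynomial.funext
    intro p
    rw [map_mul, eval_X, map_zero]
    by_cases hp : p 0 = 0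
    · rw [hp, zero_mul]
    · have h1 : p = fun i => p 0 * (Fin.cons 1 (fun j => p (Fin.succ j) / p 0) : Fin (m + 2) → ℂ) i := by
        funext i
        refine Fin.cases ?_ (fun j => ?_) i
        · simp
        · simp only [Fin.cons_succ]
          field_simp
      rw [h1, h30_eval_smul hF, hGe, mul_zero, mul_zero]
  rcases mul_eq_zero.1 hX with h1 | h1
  · exact X_ne_zero 0 h1
  · exact hF0 h1

/-- `F ≠ 0` by smoothness (`F = 0` would have all partials `0` at every point) -/
theorem Smooth.generic_ne {m d : ℕ} {F : MvPolynomial (Fin (m + 2)) ℂ} (hs : Smooth F)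
    (hF : F.IsHomogeneous d) {x : Fin (m + 1) → Ω} (hx : AlgebraicIndependent ℂ x) :
    aeval (Fin.cons 1 x : Fin (m + 2) → Ω) F ≠ 0 := by
  refine generic_ne_of_ne (fun h0 => ?_) hF hx
  have h1 := hs (fun _ => 1) (fun j => by rw [h0, map_zero, map_zero])
  have h2 := congrFun h1 0
  simp at h2

end Pool.Agent.DS
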