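import Pool.Agent.Lib_MP_1209e6_ds.Iota20

/-! PIECE IOTA: the involution of the double cover. -/

set_option autoImplicit false

open MvPolynomial

namespace Pool.Agent.DS

/-- the involution of the double cover -/
theorem exists_iota {m : ℕ} {F : MvPolynomial (Fin (m + 2)) ℂ} {K : Type} [Field K] [Algebra ℂ K]
    (z : Fin (m + 1) → K) (w : K) (hw : w ^ 2 = aeval (Fin.cons 1 z) F)
    (hgen : IntermediateField.adjoin ℂ (Set.range z ∪ {w}) = ⊤) :
    ∃ ι : K →ₐ[ℂ] K, (∀ u, ι (ι u) = u) ∧ (∀ j, ι (z j) = z j) ∧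
      ∀ u, u + ι u ∈ IntermediateField.adjoin ℂ (Set.range z) ∧
        u * ι u ∈ IntermediateField.adjoin ℂ (Set.range z) :=
  exists_iota20 z w hw hgen

end Pool.Agent.DS
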