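import Mathlib

/-! PIECE COPRIME: a common zero of two coprime polynomials in `m + 1` variables has transcendence degree
`< m`. -/

set_option autoImplicit false

open MvPolynomial

namespace Pool.Agent.DS

/-- two coprime polynomials over a factorial ring `R ⊆ Ω` have no common root in the field `Ω` -/
theorem cop_root {R Ω : Type} [CommRing R] [IsDomain R] [UniqueFactorizationMonoid R] [Field Ω]
    (φ : R →+* Ω) (hφ : Function.Injective φ) (ξ : Ω) (a b : Polynomial R) (hab : IsRelPrime a b)
    (hb : b ≠ 0) (ha : Polynomial.eval₂ φ ξ a = 0) (hb0 : Polynomial.eval₂ φ ξ b = 0) : False := by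
  classical
  obtain ⟨f, hf, hfb⟩ := UniqueFactorizationMonoid.exists_prime_factors b hb
  have hroot : ∃ π ∈ f, Polynomial.eval₂ φ ξ π = 0 := by
    have h0 : Polynomial.eval₂RingHom φ ξ f.prod = 0 := by
      obtain ⟨u, hu⟩ := hfb
      have h1 : Polynomial.eval₂RingHom φ ξ f.prod * Polynomial.eval₂RingHom φ ξ (u : Polynomial R) = 0 := by
        rw [← map_mul, hu]
        exact hb0
      rcases mul_eq_zero.1 h1 with h | h
      · exact h
      · exact absurd h ((u.isUnit.map (Polynomial.eval₂RingHom φ ξ)).ne_zero)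
    rw [map_multiset_prod, Multiset.prod_eq_zero_iff, Multiset.mem_map] at h0
    exact h0
  obtain ⟨π, hπf, hπ0⟩ := hroot
  have hπ : Prime π := hf π hπf
  have hπb : π ∣ b := (Multiset.dvd_prod hπf).trans hfb.dvd
  have hdeg : π.natDegree ≠ 0 := by
    intro h
    rw [Polynomial.eq_C_of_natDegree_eq_zero h, Polynomial.eval₂_C] at hπ0
    apply hπ.ne_zero
    rw [Polynomial.eq_C_of_natDegree_eq_zero h, (map_eq_zero_iff φ hφ).1 hπ0, Polynomial.C_0]
  have hprim : π.IsPrimitive := hπ.irreducible.isPrimitive hdeg
  let _ : NormalizedGCDMonoid R := Classical.choice inferInstance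
  let K := FractionRing R
  have hirr : Irreducible (π.map (algebraMap R K)) :=
    (hprim.irreducible_iff_irreducible_map_fraction_map (K := K)).1 hπ.irreducible
  -- the extension of `φ` to `K`
  let ψ : K →+* Ω := IsFractionRing.lift hφ
  have hψ : ψ.comp (algebraMap R K) = φ := by
    ext r
    exact IsFractionRing.lift_algebraMap hφ r
  have hev : ∀ g : Polynomial R, Polynomial.eval₂ ψ ξ (g.map (algebraMap R K)) =
      Polynomial.eval₂ φ ξ g := by
    intro g
    rw [Polynomial.eval₂_map, hψ]
  have hdvd : π.map (algebraMap R K) ∣ a.map (algebraMap R K) := by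
    by_contra h
    obtain ⟨c, d, hcd⟩ := (hirr.coprime_iff_not_dvd).2 h
    have h2 := congrArg (Polynomial.eval₂ ψ ξ) hcd
    rw [Polynomial.eval₂_add, Polynomial.eval₂_mul, Polynomial.eval₂_mul, hev, hev, hπ0, ha,
      Polynomial.eval₂_one] at h2
    simp at h2
  obtain ⟨c, hc⟩ := hdvd
  obtain ⟨r, hrm, hr⟩ := IsLocalization.integerNormalization_spec (nonZeroDivisors R) c
  have hπa : π ∣ a := by
    have h3 : Polynomial.C r * a = π * IsLocalization.integerNormalization (nonZeroDivisors R) c := by
      apply Polynomial.map_injective _ (IsFractionRing.injective R K)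
      rw [Polynomial.map_mul, Polynomial.map_mul, hr, hc, Polynomial.map_C, mul_smul_comm,
        ← algebraMap_smul K r (Polynomial.map (algebraMap R K) π * c), Polynomial.smul_eq_C_mul]
    have h4 : π ∣ Polynomial.C r * a := ⟨_, h3⟩
    rcases hπ.dvd_or_dvd h4 with h | h
    · exfalso
      have h5 : π.natDegree ≤ (Polynomial.C r).natDegree :=
        Polynomial.natDegree_le_of_dvd h (by
          rw [Ne, Polynomial.C_eq_zero]
          exact nonZeroDivisors.ne_zero hrm)
      rw [Polynomial.natDegree_C] at h5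
      omega
    · exact h
  exact hπ.not_isUnit (hab hπa hπb)

/-- the same in several variables -/
theorem cop_mv {s Ω : Type} [DecidableEq s] [Field Ω] [Algebra ℂ Ω] (a b : MvPolynomial s ℂ)
    (hab : IsRelPrime a b) (hb : b ≠ 0) (p : s → Ω) (l : s)
    (hp : AlgebraicIndependent ℂ fun j : {j // j ≠ l} => p j) (ha : aeval p a = 0)
    (hb0 : aeval p b = 0) : False := by
  classical
  let e : MvPolynomial s ℂ ≃ₐ[ℂ] Polynomial (MvPolynomial {j // j ≠ l} ℂ) :=
    (renameEquiv ℂ (Equiv.optionSubtypeNe l).symm).trans (optionEquivLeft ℂ {j // j ≠ l})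
  let φ : MvPolynomial {j // j ≠ l} ℂ →+* Ω := (aeval fun j : {j // j ≠ l} => p j : _ →ₐ[ℂ] Ω).toRingHom
  have hφ : Function.Injective φ := hp
  have key : ∀ g : MvPolynomial s ℂ, Polynomial.eval₂ φ (p l) (e g) = aeval p g := by
    intro g
    have h1 : ((Polynomial.eval₂RingHom φ (p l)).comp (e : MvPolynomial s ℂ →+* _)) =
        (aeval p : MvPolynomial s ℂ →ₐ[ℂ] Ω).toRingHom := by
      apply MvPolynomial.ringHom_ext
      · intro r
        simp [e, φ]
      · intro j
        by_cases hj : j = l
        · subst hj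
          simp [e, φ]
        · simp [e, φ, hj]
    exact congrArg (fun f : MvPolynomial s ℂ →+* Ω => f g) h1
  refine cop_root φ hφ (p l) (e a) (e b) ?_ ?_ ?_ ?_
  · intro d hda hdb
    have h1 : e.symm d ∣ a := by
      have := map_dvd e.symm hda
      rwa [AlgEquiv.symm_apply_apply] at this
    have h2 : e.symm d ∣ b := by
      have := map_dvd e.symm hdb
      rwa [AlgEquiv.symm_apply_apply] at this
    have h3 := (hab h1 h2).map e
    rwa [AlgEquiv.apply_symm_apply] at h3
  · intro h
    exact hb (by simpa using h)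
  · rw [key, ha]
  · rw [key, hb0]

open scoped IntermediateField.algebraAdjoinAdjoin in
/-- if the transcendence degree of `ℂ(p)` is at least `m`, then `m` of the `m + 1` coordinates are
algebraically independent -/
theorem cop_indep {Ω : Type} [Field Ω] [Algebra ℂ Ω] {m : ℕ} (p : Fin (m + 1) → Ω)
    (h : (m : Cardinal) ≤ Algebra.trdeg ℂ (IntermediateField.adjoin ℂ (Set.range p))) :
    ∃ l : Fin (m + 1), AlgebraicIndependent ℂ fun j : {j // j ≠ l} => p j := by
  classical
  let S := IntermediateField.adjoin ℂ (Set.range p)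
  let p' : Fin (m + 1) → S := fun j => ⟨p j, IntermediateField.subset_adjoin _ _ ⟨j, rfl⟩⟩
  have htop : IntermediateField.adjoin ℂ (Set.range p') = ⊤ := by
    apply IntermediateField.lift_injective S
    rw [IntermediateField.lift_top, IntermediateField.lift_adjoin, ← Set.range_comp]
    rfl
  have halg : Algebra.IsAlgebraic (IntermediateField.adjoin ℂ (Set.range p')) S := by
    refine ⟨fun x => ?_⟩
    have hx : x ∈ IntermediateField.adjoin ℂ (Set.range p') := by
      rw [htop]; exact IntermediateField.mem_top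
    exact isAlgebraic_algebraMap (⟨x, hx⟩ : IntermediateField.adjoin ℂ (Set.range p'))
  have halg2 : Algebra.IsAlgebraic (Algebra.adjoin ℂ (Set.range p')) S :=
    (IsFractionRing.comap_isAlgebraic_iff (K := IntermediateField.adjoin ℂ (Set.range p'))).2 halg
  obtain ⟨t, ht, hB⟩ := exists_isTranscendenceBasis_subset (R := ℂ) (Set.range p')
  have hcard := hB.cardinalMk_eq_trdeg
  have hch : ∀ a : t, ∃ j, p' j = a := fun a => ht a.2
  choose e he using hch
  have hinj : Function.Injective e := by
    intro a b hab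
    apply Subtype.ext
    rw [← he a, ← he b, hab]
  have hfin : Finite t := Finite.of_injective e hinj
  have : Fintype t := Fintype.ofFinite t
  have hm : m ≤ Fintype.card t := by
    rw [← hcard, Cardinal.mk_fintype] at h
    exact_mod_cast h
  have hl : ∃ l : Fin (m + 1), ∀ j, j ≠ l → ∃ a, e a = j := by
    by_contra hcon
    push Not at hcon
    obtain ⟨j1, -, h1⟩ := hcon 0
    obtain ⟨j2, h12, h2⟩ := hcon j1
    have hsub : Finset.univ.image e ⊆ (Finset.univ.erase j1).erase j2 := by
      intro j hj
      obtain ⟨a, -, rfl⟩ := Finset.mem_image.1 hj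
      rw [Finset.mem_erase, Finset.mem_erase]
      exact ⟨h2 a, h1 a, Finset.mem_univ _⟩
    have hc := Finset.card_le_card hsub
    rw [Finset.card_image_of_injective _ hinj, Finset.card_univ, Finset.card_erase_of_mem
      (by rw [Finset.mem_erase]; exact ⟨h12, Finset.mem_univ _⟩), Finset.card_erase_of_mem
      (Finset.mem_univ _), Finset.card_univ, Fintype.card_fin] at hc
    have hm1 : 1 ≤ m := by
      by_contra h0
      exact h12 (Fin.ext (by omega))
    omega
  obtain ⟨l, hl⟩ := hl
  refine ⟨l, ?_⟩
  have hl2 : ∀ j : {j // j ≠ l}, ∃ a, e a = j := fun j => hl j j.2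
  choose g hg using hl2
  have hginj : Function.Injective g := by
    intro a b hab
    apply Subtype.ext
    rw [← hg a, ← hg b, hab]
  have h1 := (hB.1.comp g hginj).map' (f := S.val) S.val.injective
  have h2 : (fun j : {j // j ≠ l} => p j) = S.val ∘ (Subtype.val ∘ g) := by
    funext j
    have := he (g j)
    rw [hg j] at this
    rw [Function.comp_apply, Function.comp_apply, ← this]
    rfl
  rw [h2]
  exact h1

/-- The kernel `𝔭` of `aeval p` is prime, contains an irreducible factor `a₁` of `a`, and `𝔭 ≠ (a₁)` because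
`b ∈ 𝔭`, `a₁ ∤ b`. So `0 ⊊ (a₁) ⊊ 𝔭`, and the transcendence degree drops at each step: if `A` is a domain
with `trdeg A = d` finite and `𝔮 ≠ 0` is a prime of `A`, lift a transcendence basis of `A / 𝔮`; if it had `d`
elements, `a ∈ 𝔮`, `a ≠ 0` would satisfy a polynomial relation over `ℂ[y]` with nonzero constant term, which
would vanish in `A / 𝔮`. (Or: choose `m` algebraically independent coordinates of `p` and use Gauss' lemma in
`ℂ[X_j : j ≠ j₀][X_{j₀}]`.) -/
theorem trdeg_lt {Ω : Type} [Field Ω] [Algebra ℂ Ω] {m : ℕ} (p : Fin (m + 1) → Ω)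
    (a b : MvPolynomial (Fin (m + 1)) ℂ) (hab : IsRelPrime a b) (hb : b ≠ 0) (ha : aeval p a = 0)
    (hb0 : aeval p b = 0) :
    Algebra.trdeg ℂ (IntermediateField.adjoin ℂ (Set.range p)) < (m : Cardinal) := by
  by_contra h
  obtain ⟨l, hl⟩ := cop_indep p (not_lt.1 h)
  exact cop_mv a b hab hb p l hl ha hb0

end Pool.Agent.DS

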