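import Pool.Agent.Lib_MP_1209e6_ds.Defs
import Pool.Agent.Lib_MP_1209e6_ag.Der

/-! PIECE DER: the derivations of `Ω`. -/

set_option autoImplicit false

open MvPolynomial

namespace Pool.Agent.DS

variable {Ω : Type} [Field Ω] [Algebra ℂ Ω] {m : ℕ}

/-- the derivations of `Ω` dual to a transcendence basis (`Campana.exists_derivation` or the extension
lemmas `ext_along` of `nt/Reduce`, `k3/Galois`) -/
theorem exists_dual {x : Fin (m + 1) → Ω} (hx : Generic x) :
    ∃ δ : Fin (m + 1) → Derivation ℂ Ω Ω, ∀ i j, δ i (x j) = if i = j then 1 else 0 := by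
  choose δ hδ using fun i : Fin (m + 1) =>
    Pool.Agent.Campana.exists_derivation (k := ℂ) x hx.ind (fun j => if i = j then 1 else 0)
  exact ⟨δ, hδ⟩

/-- a derivation which kills a transcendence basis is zero (`DP.der_alg`) -/
theorem der_ext {x : Fin (m + 1) → Ω} (hx : Generic x) (δ : Derivation ℂ Ω Ω)
    (h : ∀ j, δ (x j) = 0) (a : Ω) : δ a = 0 := by
  refine Pool.Agent.Campana.derivation_eq_zero δ (IntermediateField.adjoin ℂ (Set.range x)) ?_ a
    (hx.alg a)
  intro b hb
  induction hb using IntermediateField.adjoin_induction with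
  | mem b hb =>
    obtain ⟨j, rfl⟩ := hb
    exact h j
  | algebraMap c => exact δ.map_algebraMap c
  | add b c _ _ hb hc => rw [map_add, hb, hc, add_zero]
  | inv b _ hb => rw [δ.leibniz_inv, hb, smul_zero]
  | mul b c _ _ hb hc => rw [δ.leibniz, hb, hc, smul_zero, smul_zero, add_zero]

/-- an element killed by all derivations is constant -/
theorem const_of_der {x : Fin (m + 1) → Ω} (hx : Generic x) (a : Ω)
    (h : ∀ δ : Derivation ℂ Ω Ω, δ a = 0) : ∃ c : ℂ, a = algebraMap ℂ Ω c := by
  have h1 : IsAlgebraic ℂ a := by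
    by_contra hu
    have h2 : AlgebraicIndependent ℂ (fun _ : Unit => a) :=
      algebraicIndependent_unique_type_iff.2 hu
    obtain ⟨E, hE⟩ := Pool.Agent.Campana.exists_derivation (fun _ : Unit => a) h2 (fun _ => 1)
    have h3 := hE ()
    rw [h E] at h3
    exact zero_ne_one h3
  have h3 : IsIntegral ℂ a := h1.isIntegral
  have h4 := IsAlgClosed.degree_eq_one_of_irreducible ℂ (minpoly.irreducible h3)
  obtain ⟨c, hc⟩ := minpoly.mem_range_of_degree_eq_one ℂ a h4
  exact ⟨c, hc.symm⟩

end Pool.Agent.DS
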