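import Pool.Agent.Lib_MP_1209e6_ds.Coef

/-! PIECE FIRST: a first integral is constant on the line. -/

set_option autoImplicit false

open MvPolynomial

namespace Pool.Agent.DS

variable {Ω : Type} [Field Ω] [Algebra ℂ Ω] {m : ℕ}

/-- a derivation acting on the coefficients -/
theorem coeff_coefDer (δ : Derivation ℂ Ω Ω) (Δ : Derivation ℂ (Polynomial Ω) (Polynomial Ω))
    (hX : Δ Polynomial.X = 0) (hC : ∀ a, Δ (Polynomial.C a) = Polynomial.C (δ a)) (P : Polynomial Ω)
    (j : ℕ) : (Δ P).coeff j = δ (P.coeff j) := by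
  induction P using Polynomial.induction_on' with
  | add p q hp hq => rw [map_add, Polynomial.coeff_add, hp, hq, Polynomial.coeff_add, map_add]
  | monomial n a =>
    rw [← Polynomial.C_mul_X_pow_eq_monomial, Derivation.leibniz, Derivation.leibniz_pow, hX, hC]
    simp only [smul_zero, zero_add, smul_eq_mul, mul_zero]
    rw [mul_comm, Polynomial.coeff_C_mul_X_pow, Polynomial.coeff_C_mul_X_pow]
    split_ifs with h
    · rfl
    · rw [map_zero]

/-- a polynomial with `Δ H = (1 + κ X) H'` and `H(0) = 0` is zero -/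
theorem eq_zero_of_coefDer (δ : Derivation ℂ Ω Ω) (Δ : Derivation ℂ (Polynomial Ω) (Polynomial Ω))
    (hX : Δ Polynomial.X = 0) (hC : ∀ a, Δ (Polynomial.C a) = Polynomial.C (δ a)) (κ : Ω)
    (H : Polynomial Ω)
    (hH : Δ H = (1 + Polynomial.C κ * Polynomial.X) * Polynomial.derivative H)
    (h0 : H.coeff 0 = 0) : H = 0 := by
  have : CharZero Ω := charZero_of_injective_algebraMap (algebraMap ℂ Ω).injective
  have key : ∀ j, H.coeff j = 0 := by
    intro j
    induction j using Nat.strong_induction_on with
    | _ j ih =>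
      cases j with
      | zero => exact h0
      | succ j =>
        have h1 := congrArg (fun P : Polynomial Ω => P.coeff j) hH
        beta_reduce at h1
        rw [coeff_coefDer δ Δ hX hC, ih j (Nat.lt_succ_self j), map_zero, add_mul, one_mul,
          Polynomial.coeff_add, Polynomial.coeff_derivative, mul_assoc, Polynomial.coeff_C_mul] at h1
        have h2 : (Polynomial.X * Polynomial.derivative H).coeff j = 0 := by
          cases j with
          | zero => rw [Polynomial.mul_coeff_zero, Polynomial.coeff_X_zero, zero_mul]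
          | succ i =>
            rw [Polynomial.coeff_X_mul, Polynomial.coeff_derivative, ih (i + 1) (Nat.lt_succ_self _),
              zero_mul]
        rw [h2, mul_zero, add_zero] at h1
        have h3 : ((j : Ω) + 1) ≠ 0 := by exact_mod_cast Nat.succ_ne_zero j
        rcases mul_eq_zero.1 h1.symm with h4 | h4
        · exact h4
        · exact absurd h4 h3
  ext j
  rw [key j, Polynomial.coeff_zero]

/-- `h = a (x + X v) - u b (x + X v) ∈ Ω[X]`. With the derivation `Δ` of `Ω[X]` (`D` on coefficients,
`Δ X = 0`): `Δ h = (1 + κ X) h'` (`chain`), so `D h_j = (j + 1) h_{j+1} + κ j h_j`, and `h_0 = 0`: all `h_j = 0`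
by induction. -/
theorem first_line (x v : Fin (m + 1) → Ω) (D : Derivation ℂ Ω Ω) (hx : ∀ j, D (x j) = v j) (κ : Ω)
    (hv : ∀ j, D (v j) = κ * v j) (a b : MvPolynomial (Fin (m + 1)) ℂ) (u : Ω) (hu : D u = 0)
    (h : aeval x a = u * aeval x b) :
    aeval (fun j => Polynomial.C (x j) + Polynomial.X * Polynomial.C (v j)) a =
      Polynomial.C u * aeval (fun j => Polynomial.C (x j) + Polynomial.X * Polynomial.C (v j)) b := by
  obtain ⟨Δ, hX, hC⟩ := exists_coef D
  set g : Fin (m + 1) → Polynomial Ω :=
    fun j => Polynomial.C (x j) + Polynomial.X * Polynomial.C (v j) with hg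
  let E : Derivation ℂ (Polynomial Ω) (Polynomial Ω) :=
    (Polynomial.derivative' (R := Ω)).restrictScalars ℂ
  have hE : ∀ P, E P = Polynomial.derivative P := fun _ => rfl
  have hΔg : ∀ j, Δ (g j) = (1 + Polynomial.C κ * Polynomial.X) * E (g j) := by
    intro j
    rw [hE, hg]
    simp only [map_add, Derivation.leibniz, hX, hC, hx, hv, smul_eq_mul, mul_zero, add_zero,
      Polynomial.derivative_C, Polynomial.derivative_mul, Polynomial.derivative_X, one_mul, zero_add,
      map_mul]
    ring
  have hΔ : ∀ G : MvPolynomial (Fin (m + 1)) ℂ,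
      Δ (aeval g G) = (1 + Polynomial.C κ * Polynomial.X) * Polynomial.derivative (aeval g G) := by
    intro G
    rw [chain, ← hE, chain, Finset.mul_sum]
    refine Finset.sum_congr rfl fun j _ => ?_
    rw [hΔg, mul_assoc]
  have hev : ∀ G : MvPolynomial (Fin (m + 1)) ℂ, (aeval g G).coeff 0 = aeval x G := by
    intro G
    let φ : Polynomial Ω →ₐ[ℂ] Ω := (Polynomial.aeval (R := Ω) (0 : Ω)).restrictScalars ℂ
    have hφ : ∀ P, φ P = P.coeff 0 := fun P => by
      change Polynomial.aeval (0 : Ω) P = P.coeff 0
      rw [Polynomial.coeff_zero_eq_aeval_zero]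
    have h1 : φ (aeval g G) = aeval (fun j => φ (g j)) G := by
      rw [← AlgHom.comp_apply, comp_aeval]
    have h2 : (fun j => φ (g j)) = x := by
      funext j
      rw [hφ]
      simp [hg]
    rw [← hφ, h1, h2]
  have hz : aeval g a - Polynomial.C u * aeval g b = 0 := by
    refine eq_zero_of_coefDer D Δ hX hC κ _ ?_ ?_
    · rw [map_sub, Derivation.leibniz, hC, hu, hΔ, hΔ, Polynomial.derivative_sub,
        Polynomial.derivative_C_mul]
      simp only [smul_eq_mul, map_zero, mul_zero, add_zero]
      ring
    · rw [Polynomial.coeff_sub, Polynomial.coeff_C_mul, hev, hev, h, sub_self]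
  exact sub_eq_zero.1 hz

end Pool.Agent.DS
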