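import Pool.Agent.Lib_MP_1209e6_ds.Coef

/-! PIECE FIRSTROOT: a first integral has no derivative in the direction of a tangency point. -/

set_option autoImplicit false

open MvPolynomial

namespace Pool.Agent.DS

variable {Ω : Type} [Field Ω] [Algebra ℂ Ω] {m : ℕ}

/-- evaluation of a polynomial on the line `x + X v` -/
theorem eval_affine_line {n : ℕ} (x v : Fin n → Ω) (b : MvPolynomial (Fin n) ℂ) (s : Ω) :
    (aeval (fun j => Polynomial.C (x j) + Polynomial.X * Polynomial.C (v j)) b).eval s =
      aeval (fun j => x j + s * v j) b := by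
  have h := (MvPolynomial.comp_aeval (R := ℂ)
    (fun j => Polynomial.C (x j) + Polynomial.X * Polynomial.C (v j))
    ((Polynomial.aeval s : Polynomial Ω →ₐ[Ω] Ω).restrictScalars ℂ))
  have h2 := congrArg (fun φ => φ b) h
  simp only [AlgHom.comp_apply, AlgHom.coe_restrictScalars', Polynomial.coe_aeval_eq_eval] at h2
  rw [h2]
  congr 2
  funext j
  simp only [map_add, map_mul, Polynomial.eval_add, Polynomial.eval_mul, Polynomial.eval_C,
    Polynomial.eval_X, Polynomial.aeval_X, Polynomial.aeval_C, Algebra.algebraMap_self,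
    RingHom.id_apply]

/-- Derivative of this identity by `δ` on coefficients: with `S = ∑ (a_j - u b_j)(x + X v) δ(x_j)` and
`δ v = c v - s δ x`, and `∑ (a_j - u b_j)(x + X v) v_j = 0` (the `X`-derivative of the identity):
`(1 - s X) S = δ u b (x + X v)`; put `X = 1 / s`. -/
theorem first_root (x v : Fin (m + 1) → Ω) (a b : MvPolynomial (Fin (m + 1)) ℂ) (u : Ω)
    (h : aeval (fun j => Polynomial.C (x j) + Polynomial.X * Polynomial.C (v j)) a =
      Polynomial.C u * aeval (fun j => Polynomial.C (x j) + Polynomial.X * Polynomial.C (v j)) b)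
    (δ : Derivation ℂ Ω Ω) (s c : Ω) (hs : s ≠ 0) (hδ : ∀ j, δ (v j) = c * v j - s * δ (x j)) :
    δ u * aeval (fun j => x j + s⁻¹ * v j) b = 0 := by
  set l : Fin (m + 1) → Polynomial Ω :=
    fun j => Polynomial.C (x j) + Polynomial.X * Polynomial.C (v j) with hl
  set H : Fin (m + 1) → Polynomial Ω :=
    fun j => aeval l (pderiv j a) - Polynomial.C u * aeval l (pderiv j b) with hH
  obtain ⟨Δ, hX, hC⟩ := exists_coef δ
  -- the derivative in `X`
  have e1 : ∑ j, Polynomial.C (v j) * H j = 0 := by
    have h1 : Polynomial.derivative (aeval l a) = ∑ j, Polynomial.C (v j) * aeval l (pderiv j a) := by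
      have h0 := chain ((Polynomial.derivative' (R := Ω)).restrictScalars ℂ) l a
      have h2 : ∀ p : Polynomial Ω, ((Polynomial.derivative' (R := Ω)).restrictScalars ℂ) p =
        Polynomial.derivative p := fun p => rfl
      simp only [h2] at h0
      rw [h0]
      refine Finset.sum_congr rfl (fun j _ => ?_)
      simp [hl]
    have h1b : Polynomial.derivative (aeval l b) =
        ∑ j, Polynomial.C (v j) * aeval l (pderiv j b) := by
      have h0 := chain ((Polynomial.derivative' (R := Ω)).restrictScalars ℂ) l b
      have h2 : ∀ p : Polynomial Ω, ((Polynomial.derivative' (R := Ω)).restrictScalars ℂ) p =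
        Polynomial.derivative p := fun p => rfl
      simp only [h2] at h0
      rw [h0]
      refine Finset.sum_congr rfl (fun j _ => ?_)
      simp [hl]
    have h3 := congrArg Polynomial.derivative h
    rw [h1, Polynomial.derivative_C_mul, h1b, Finset.mul_sum] at h3
    have h4 : ∑ j, Polynomial.C (v j) * H j = ∑ j, Polynomial.C (v j) * aeval l (pderiv j a) -
        ∑ j, Polynomial.C u * (Polynomial.C (v j) * aeval l (pderiv j b)) := by
      rw [← Finset.sum_sub_distrib]
      refine Finset.sum_congr rfl (fun j _ => ?_)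
      rw [hH]; ring
    rw [h4, h3, sub_self]
  -- the derivative of the coefficients
  have e2 : ∑ j, Δ (l j) * H j = Polynomial.C (δ u) * aeval l b := by
    have h3 := congrArg Δ h
    rw [chain, Derivation.leibniz, chain, hC, smul_eq_mul, smul_eq_mul, Finset.mul_sum] at h3
    have h4 : ∑ j, Δ (l j) * H j = ∑ j, Δ (l j) * aeval l (pderiv j a) -
        ∑ j, Polynomial.C u * (Δ (l j) * aeval l (pderiv j b)) := by
      rw [← Finset.sum_sub_distrib]
      refine Finset.sum_congr rfl (fun j _ => ?_)
      rw [hH]; ring
    rw [h4, h3]; ring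
  have e3 : ∑ j, Δ (l j) * H j = (1 - Polynomial.X * Polynomial.C s) *
      (∑ j, Polynomial.C (δ (x j)) * H j) + Polynomial.X * Polynomial.C c *
      ∑ j, Polynomial.C (v j) * H j := by
    rw [Finset.mul_sum, Finset.mul_sum, ← Finset.sum_add_distrib]
    refine Finset.sum_congr rfl (fun j _ => ?_)
    have h5 : Δ (l j) = Polynomial.C (δ (x j)) + Polynomial.X *
        (Polynomial.C c * Polynomial.C (v j) - Polynomial.C s * Polynomial.C (δ (x j))) := by
      rw [hl]
      simp only [map_add, Derivation.leibniz, hC, hX, smul_eq_mul, mul_zero, add_zero, hδ j, map_sub,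
        map_mul]
    rw [h5]; ring
  rw [e1, mul_zero, add_zero, e2] at e3
  have e4 := congrArg (fun P : Polynomial Ω => P.eval s⁻¹) e3
  simp only [Polynomial.eval_mul, Polynomial.eval_sub, Polynomial.eval_one, Polynomial.eval_X,
    Polynomial.eval_C] at e4
  rw [inv_mul_cancel₀ hs, sub_self, zero_mul, hl, eval_affine_line] at e4
  exact e4

end Pool.Agent.DS
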