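import Pool.Agent.Lib_MP_1209e6_ds.Coef

/-! PIECE MOVES: the tangency points move. -/

set_option autoImplicit false

open MvPolynomial

namespace Pool.Agent.DS

variable {Ω : Type} [Field Ω] [Algebra ℂ Ω] {m : ℕ} {F : MvPolynomial (Fin (m + 2)) ℂ}
  {x : Fin (m + 1) → Ω}

theorem form_scale20 {n d : ℕ} {G : MvPolynomial (Fin n) ℂ} (hG : G.IsHomogeneous d) (s : Ω)
    (p : Fin n → Ω) : aeval (fun i => s * p i) G = s ^ d * aeval p G := by
  rw [aeval_def, eval₂_eq', aeval_def, eval₂_eq', Finset.mul_sum]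
  refine Finset.sum_congr rfl fun t ht => ?_
  have h2 : ∑ i, t i = d := by
    have h3 := hG (mem_support_iff.1 ht)
    rw [Finsupp.weight_apply, Finsupp.sum_fintype _ _ (by simp)] at h3
    simpa using h3
  simp only [mul_pow, Finset.prod_mul_distrib]
  rw [Finset.prod_pow_eq_pow_sum, h2]
  ring

/-- the tangency point `x + v / s` moves: if `δ` kills it, `s δx + δv = (δs / s) v`, so
`(s - s') φ_{s'} (δ x) = 0` for the roots `s' ≠ s`. At `s`: `F_j (pt x v s)`: the point
`(1, x + v / s) = pt x v s / s` is killed by `δ`, so by homogeneity (degree `2m + 3` of the partials)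
`∑ F_j (1, x + v/s) v_j = 0` gives `∑ F_j (1, x + v/s) δ v_j = 0`, `φ_s (δ v) = 0 = - s φ_s (δ x)`.
Then `Nice.ker`. -/
theorem point_moves (hF : F.IsHomogeneous (2 * m + 4)) (T : TLine F x) (hT : Nice T)
    (δ : Derivation ℂ Ω Ω) (s : Ω) (hs : T.q.IsRoot s)
    (h : ∀ j, δ (x j + s⁻¹ * T.v j) = 0) : ∃ c, ∀ j, δ (x j) = c * T.v j := by
  have hs0 : s ≠ 0 := hT.ne_zero s hs
  refine hT.ker _ fun s' hs' => ?_
  by_cases hss : s' = s
  · subst hss
    have h1 := hT.phi_der δ s' hs
    set z : Fin (m + 2) → Ω := Fin.cons 1 fun j => x j + s'⁻¹ * T.v j with hz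
    have hpt : pt x T.v s' = fun i => s' * z i := by
      funext i
      refine Fin.cases ?_ (fun i => ?_) i
      · simp [pt, hz]
      · simp only [pt, hz, Fin.cons_succ]
        rw [mul_add, ← mul_assoc, mul_inv_cancel₀ hs0, one_mul]
        ring
    have hd : ∀ j : Fin (m + 1), aeval (pt x T.v s') (pderiv (Fin.succ j) F) =
        s' ^ (2 * m + 4 - 1) * aeval z (pderiv (Fin.succ j) F) := by
      intro j
      rw [hpt]
      exact form_scale20 (hF.pderiv) s' z
    have hz0 : ∀ G : MvPolynomial (Fin (m + 2)) ℂ, δ (aeval z G) = 0 := by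
      intro G
      rw [chain]
      refine Finset.sum_eq_zero fun j _ => ?_
      have h2 : δ (z j) = 0 := by
        refine Fin.cases ?_ (fun i => ?_) j
        · simp [hz]
        · simp only [hz, Fin.cons_succ]
          exact h i
      rw [h2, zero_mul]
    have hp : s' ^ (2 * m + 4 - 1) ≠ 0 := pow_ne_zero _ hs0
    have h3 : ∑ j, T.v j * aeval z (pderiv (Fin.succ j) F) = 0 := by
      have h4 := hT.phi_v s' hs
      unfold phi at h4
      simp only [hd] at h4
      have h5 : ∑ j, T.v j * (s' ^ (2 * m + 4 - 1) * aeval z (pderiv (Fin.succ j) F)) =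
          s' ^ (2 * m + 4 - 1) * ∑ j, T.v j * aeval z (pderiv (Fin.succ j) F) := by
        rw [Finset.mul_sum]
        exact Finset.sum_congr rfl fun j _ => by ring
      rw [h5] at h4
      exact (mul_eq_zero.1 h4).resolve_left hp
    have h6 : ∑ j, δ (T.v j) * aeval z (pderiv (Fin.succ j) F) = 0 := by
      have h7 := congrArg δ h3
      rw [map_sum, map_zero] at h7
      rw [← h7]
      refine Finset.sum_congr rfl fun j _ => ?_
      rw [Derivation.leibniz, hz0, smul_zero, zero_add, smul_eq_mul, mul_comm]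
    have h8 : phi F x T.v s' (fun j => δ (T.v j)) = 0 := by
      unfold phi
      simp only [hd]
      have h5 : ∑ j, δ (T.v j) * (s' ^ (2 * m + 4 - 1) * aeval z (pderiv (Fin.succ j) F)) =
          s' ^ (2 * m + 4 - 1) * ∑ j, δ (T.v j) * aeval z (pderiv (Fin.succ j) F) := by
        rw [Finset.mul_sum]
        exact Finset.sum_congr rfl fun j _ => by ring
      rw [h5, h6, mul_zero]
    rw [h8] at h1
    have h9 := h1.symm
    exact (mul_eq_zero.1 h9).resolve_left (neg_ne_zero.2 hs0)
  · have hv : ∀ j, δ (T.v j) = δ s / s * T.v j - s * δ (x j) := by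
      intro j
      have h1 := h j
      rw [map_add, Derivation.leibniz, Derivation.leibniz_inv] at h1
      simp only [smul_eq_mul] at h1
      have h2 : s * (δ (x j) + (s⁻¹ * δ (T.v j) + T.v j * (-s⁻¹ ^ 2 * δ s))) = 0 := by
        rw [h1, mul_zero]
      field_simp at h2 ⊢
      linear_combination h2
    have h1 := hT.phi_der δ s' hs'
    have h2 : phi F x T.v s' (fun j => δ (T.v j)) =
        δ s / s * phi F x T.v s' T.v - s * phi F x T.v s' (fun j => δ (x j)) := by
      unfold phi
      rw [Finset.mul_sum, Finset.mul_sum, ← Finset.sum_sub_distrib]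
      refine Finset.sum_congr rfl fun j _ => ?_
      beta_reduce
      rw [hv]
      ring
    rw [h2, hT.phi_v s' hs', mul_zero, zero_sub] at h1
    have h3 : (s' - s) * phi F x T.v s' (fun j => δ (x j)) = 0 := by linear_combination h1
    exact (mul_eq_zero.1 h3).resolve_left (sub_ne_zero.2 hss)

end Pool.Agent.DS
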