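import Pool.Agent.Lib_MP_1209e6_ds.Defs
import Pool.Agent.Lib_MP_1209e6_cy.E6NoInt
import Pool.Agent.Lib_MP_1209e6_ag.Der

/-! PIECE TRDEGGE: the tangency points are generic points of hypersurfaces. -/

set_option autoImplicit false

open MvPolynomial

namespace Pool.Agent.DS

variable {Ω : Type} [Field Ω] [Algebra ℂ Ω] {m : ℕ}

/-- a derivation which kills a generic point is zero -/
theorem Generic.kill {x : Fin (m + 1) → Ω} (hx : Generic x) (E : Derivation ℂ Ω Ω)
    (hE : ∀ j, E (x j) = 0) (z : Ω) : E z = 0 := by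
  refine Pool.Agent.CYDelta.kill_algebraic (IntermediateField.adjoin ℂ (Set.range x)) E
    (Pool.Agent.CYDelta.kill_adjoin _ E ?_) (hx.alg z)
  rintro _ ⟨j, rfl⟩
  exact hE j

/-- If the derivations of `Ω` which kill `p` have `δ x` proportional to a fixed vector, two elements
algebraically independent over `ℂ(p)` are impossible (dual derivations over `ℂ(p)`), so
`trdeg ℂ(p) ≥ (m + 1) - 1`. -/
theorem trdeg_ge {x : Fin (m + 1) → Ω} (hx : Generic x) (v p : Fin (m + 1) → Ω)
    (h : ∀ δ : Derivation ℂ Ω Ω, (∀ j, δ (p j) = 0) → ∃ c, ∀ j, δ (x j) = c * v j) :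
    (m : Cardinal) ≤ Algebra.trdeg ℂ (IntermediateField.adjoin ℂ (Set.range p)) := by
  classical
  have hz0 : CharZero (IntermediateField.adjoin ℂ (Set.range p)) :=
    charZero_of_injective_algebraMap (algebraMap ℂ _).injective
  obtain ⟨s, hs⟩ := exists_isTranscendenceBasis (IntermediateField.adjoin ℂ (Set.range p)) Ω
  have hkill : ∀ (D : Derivation (IntermediateField.adjoin ℂ (Set.range p)) Ω Ω) (j : Fin (m + 1)),
      D (p j) = 0 := fun D j => D.map_algebraMap
    (⟨p j, IntermediateField.subset_adjoin _ _ ⟨j, rfl⟩⟩ : IntermediateField.adjoin ℂ (Set.range p))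
  have hsub : Subsingleton s := by
    refine ⟨?_⟩
    intro a b
    by_contra hab
    obtain ⟨Da, hDa⟩ := Pool.Agent.Campana.exists_derivation (fun i : s => (i : Ω)) hs.1
      (fun i => if i = a then (1 : Ω) else 0)
    obtain ⟨Db, hDb⟩ := Pool.Agent.Campana.exists_derivation (fun i : s => (i : Ω)) hs.1
      (fun i => if i = b then (1 : Ω) else 0)
    obtain ⟨ca, hca⟩ := h (Da.restrictScalars ℂ) (hkill Da)
    obtain ⟨cb, hcb⟩ := h (Db.restrictScalars ℂ) (hkill Db)
    have hE : ∀ z : Ω, cb * Da z - ca * Db z = 0 := by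
      intro z
      have h1 := hx.kill (cb • Da.restrictScalars ℂ - ca • Db.restrictScalars ℂ) (by
        intro j
        rw [Derivation.sub_apply, Derivation.smul_apply, Derivation.smul_apply, hca, hcb,
          smul_eq_mul, smul_eq_mul]
        ring) z
      exact h1
    have h2 := hE a
    have h3 := hE b
    have e1 : Da (a : Ω) = 1 := (hDa a).trans (if_pos rfl)
    have e2 : Db (a : Ω) = 0 := (hDb a).trans (if_neg hab)
    have e3 : Da (b : Ω) = 0 := (hDa b).trans (if_neg fun h => hab h.symm)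
    have e4 : Db (b : Ω) = 1 := (hDb b).trans (if_pos rfl)
    rw [e1, e2] at h2
    rw [e3, e4] at h3
    have hca0 : ca = 0 := by linear_combination (-1 : Ω) * h3
    have h5 : Da (a : Ω) = 0 := hx.kill (Da.restrictScalars ℂ) (fun j => by
      rw [hca, hca0, zero_mul]) a
    rw [e1] at h5
    exact one_ne_zero h5
  have h1 : Algebra.trdeg (IntermediateField.adjoin ℂ (Set.range p)) Ω ≤ 1 := by
    rw [← hs.cardinalMk_eq_trdeg]
    exact Cardinal.le_one_iff_subsingleton.2 hsub
  have h2 := _root_.trdeg_add_eq ℂ (IntermediateField.adjoin ℂ (Set.range p)) (A := Ω)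
  have h3 : ((m + 1 : ℕ) : Cardinal) ≤ Algebra.trdeg ℂ Ω := by
    have h4 := hx.ind.cardinalMk_le_trdeg
    rwa [Cardinal.mk_fin] at h4
  rw [← h2] at h3
  have h5 : (m : Cardinal) + 1 ≤
      Algebra.trdeg ℂ (IntermediateField.adjoin ℂ (Set.range p)) + 1 := by
    refine le_trans ?_ (h3.trans (add_le_add_right h1 _))
    rw [Nat.cast_add, Nat.cast_one]
  exact Cardinal.add_one_le_add_one_iff.1 h5

end Pool.Agent.DS
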