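import Pool.Agent.Lib_MP_1209e6_ds.Flow
import Pool.Agent.Lib_MP_1209e6_ds.Moves
import Pool.Agent.Lib_MP_1209e6_ds.First
import Pool.Agent.Lib_MP_1209e6_ds.FirstRoot
import Pool.Agent.Lib_MP_1209e6_ds.Der
import Pool.Agent.Lib_MP_1209e6_ds.TrDegGe
import Pool.Agent.Lib_MP_1209e6_ds.Coprime

/-! PIECE NOINT: no rational first integral. -/

set_option autoImplicit false

open MvPolynomial

namespace Pool.Agent.DS

variable {Ω : Type} [Field Ω] [Algebra ℂ Ω] {m : ℕ} {F : MvPolynomial (Fin (m + 2)) ℂ}
  {x : Fin (m + 1) → Ω}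

/-- a linear combination of derivations, applied to an element -/
theorem noint_sum_apply (d : Fin (m + 1) → Derivation ℂ Ω Ω) (y : Fin (m + 1) → Ω) (z : Ω) :
    (∑ j, y j • d j : Derivation ℂ Ω Ω) z = ∑ j, y j * d j z := by
  have h2 := map_sum (Derivation.coeFnAddMonoidHom (R := ℂ) (A := Ω) (M := Ω))
    (fun k => y k • d k) Finset.univ
  have h3 := congrFun h2 z
  rw [Finset.sum_apply] at h3
  exact h3

/-- every derivation is a combination of the dual derivations -/
theorem noint_expand (hx : Generic x) (d : Fin (m + 1) → Derivation ℂ Ω Ω)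
    (hd : ∀ i j, d i (x j) = if i = j then 1 else 0) (δ : Derivation ℂ Ω Ω) (z : Ω) :
    δ z = ∑ j, δ (x j) * d j z := by
  have h1 := der_ext hx (δ - ∑ j, δ (x j) • d j) (fun j => by
    rw [Derivation.sub_apply, noint_sum_apply]
    simp only [hd, mul_ite, mul_one, mul_zero, Finset.sum_ite_eq', Finset.mem_univ, if_true, sub_self]) z
  rw [Derivation.sub_apply, noint_sum_apply, sub_eq_zero] at h1
  exact h1

/-- `u = a(x) / b(x)` with `a`, `b` coprime (`IsFractionRing.exists_reduced_fraction` in the fraction field of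
`MvPolynomial (Fin (m+1)) ℂ`, which is `ℂ(x)`). `first_line` (with `dir_const`), and for every root `s`:
`b (p_s) ≠ 0` (`p_s = x + v / s`; otherwise `a (p_s) = 0` by `first_line`, and `trdeg_lt` contradicts
`trdeg_ge` with `point_moves`). So (`dir_root`, `first_root`) `δ u = 0` whenever `φ_{s'}(δ x) = 0` for all `s' ≠ s`.
With `Nice.span` for `W = {y | (∑ y_j δ_j) u = 0}`, `δ_j` the dual derivations: `W = ⊤`, all `δ_j u = 0`,
`const_of_der` (every derivation is `∑ δ(x_j) δ_j` by `der_ext`). -/
theorem const_of_D (hF : F.IsHomogeneous (2 * m + 4)) (hx : Generic x) (T : TLine F x) (hT : Nice T)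
    (D : Derivation ℂ Ω Ω) (hD : ∀ j, D (x j) = T.v j) (u : Ω)
    (hu : u ∈ IntermediateField.adjoin ℂ (Set.range x)) (hDu : D u = 0) :
    ∃ c : ℂ, u = algebraMap ℂ Ω c := by
  classical
  rw [IntermediateField.mem_adjoin_range_iff] at hu
  obtain ⟨a₀, b₀, hab₀⟩ := hu
  by_cases hb₀ : aeval x b₀ = 0
  · exact ⟨0, by rw [hab₀, hb₀, div_zero, map_zero]⟩
  have hb₀' : b₀ ≠ 0 := fun h => hb₀ (by rw [h, map_zero])
  obtain ⟨a, b, e, hrel, ha, hb⟩ := UniqueFactorizationMonoid.exists_reduced_factors' a₀ b₀ hb₀'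
  have he : aeval x e ≠ 0 := fun h => hb₀ (by rw [← hb, map_mul, h, zero_mul])
  have hbx : aeval x b ≠ 0 := fun h => hb₀ (by rw [← hb, map_mul, h, mul_zero])
  have hb0 : b ≠ 0 := fun h => hbx (by rw [h, map_zero])
  have hab : aeval x a = u * aeval x b := by
    rw [hab₀, ← ha, ← hb, map_mul, map_mul]
    field_simp
  obtain ⟨κ, hκ⟩ := dir_const T hT D hD
  have hline := first_line x T.v D hD κ hκ a b u hDu hab
  have hroot : ∀ s, T.q.IsRoot s → aeval (fun j => x j + s⁻¹ * T.v j) b ≠ 0 := by
    intro s hs h0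
    have h1 := congrArg (Polynomial.eval s⁻¹) hline
    have h2 : ∀ G : MvPolynomial (Fin (m + 1)) ℂ, Polynomial.eval s⁻¹ (aeval (fun j =>
        Polynomial.C (x j) + Polynomial.X * Polynomial.C (T.v j)) G) =
        aeval (fun j => x j + s⁻¹ * T.v j) G := by
      intro G
      have h3 := comp_aeval_apply (fun j => Polynomial.C (x j) + Polynomial.X * Polynomial.C (T.v j))
        ((Polynomial.aeval (R := Ω) s⁻¹).restrictScalars ℂ) G
      have h4 : ((Polynomial.aeval (R := Ω) s⁻¹).restrictScalars ℂ) (aeval (fun j =>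
        Polynomial.C (x j) + Polynomial.X * Polynomial.C (T.v j)) G) = Polynomial.eval s⁻¹ (aeval (fun j =>
        Polynomial.C (x j) + Polynomial.X * Polynomial.C (T.v j)) G) := by
        rw [AlgHom.restrictScalars_apply, Polynomial.coe_aeval_eq_eval]
      rw [← h4, h3]
      congr 2
      funext j
      rw [AlgHom.restrictScalars_apply, Polynomial.coe_aeval_eq_eval, Polynomial.eval_add,
        Polynomial.eval_C, Polynomial.eval_mul, Polynomial.eval_C, Polynomial.eval_X]
    rw [Polynomial.eval_mul, Polynomial.eval_C, h2, h2, h0, mul_zero] at h1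
    have h5 := trdeg_lt (fun j => x j + s⁻¹ * T.v j) a b hrel hb0 h1 h0
    have h6 := trdeg_ge hx T.v (fun j => x j + s⁻¹ * T.v j) fun δ hδ => point_moves hF T hT δ s hs hδ
    exact absurd h5 (not_lt.2 h6)
  obtain ⟨d, hd⟩ := exists_dual hx
  let W : Submodule Ω (Fin (m + 1) → Ω) :=
    { carrier := {y | ∑ j, y j * d j u = 0}
      add_mem' := fun {y z} hy hz => by
        show ∑ j, (y + z) j * d j u = 0
        simp only [Pi.add_apply, add_mul, Finset.sum_add_distrib]
        rw [show ∑ j, y j * d j u = 0 from hy, show ∑ j, z j * d j u = 0 from hz, add_zero]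
      zero_mem' := by
        show ∑ j, (0 : Fin (m + 1) → Ω) j * d j u = 0
        simp
      smul_mem' := fun c y hy => by
        show ∑ j, (c • y) j * d j u = 0
        simp only [Pi.smul_apply, smul_eq_mul, mul_assoc, ← Finset.mul_sum]
        rw [show ∑ j, y j * d j u = 0 from hy, mul_zero] }
  have hmem : ∀ y, y ∈ W ↔ ∑ j, y j * d j u = 0 := fun y => Iff.rfl
  have hW := hT.span W (by
    rw [hmem]
    have h1 := noint_expand hx d hd D u
    simp only [hD] at h1
    rw [← h1, hDu]) (by
    intro s hs y hy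
    rw [hmem]
    set δ : Derivation ℂ Ω Ω := ∑ j, y j • d j with hδ
    have hδx : ∀ j, δ (x j) = y j := by
      intro j
      rw [hδ, noint_sum_apply]
      simp only [hd, mul_ite, mul_one, mul_zero, Finset.sum_ite_eq', Finset.mem_univ, if_true]
    obtain ⟨c, hc⟩ := dir_root T hT δ s hs (by
      intro s' hs' hss
      simp only [hδx]
      exact hy s' hs' hss)
    have h1 := first_root x T.v a b u hline δ s c (hT.ne_zero s hs) hc
    rw [← noint_sum_apply]
    exact (mul_eq_zero.1 h1).resolve_right (hroot s hs))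
  have hdu : ∀ j, d j u = 0 := by
    intro j
    have h1 : Pi.single j (1 : Ω) ∈ W := by
      rw [hW]
      trivial
    rw [hmem] at h1
    simpa only [Pi.single_apply, ite_mul, one_mul, zero_mul, Finset.sum_ite_eq', Finset.mem_univ,
      if_true] using h1
  refine const_of_der hx u fun δ => ?_
  rw [noint_expand hx d hd δ u]
  simp only [hdu, mul_zero, Finset.sum_const_zero]

end Pool.Agent.DS
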