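import Pool.Agent.Lib_MP_1209e6_ds.Part

/-! PIECE SURJ: the constants generate `Ω[X] / G`. -/

set_option autoImplicit false

open MvPolynomial

namespace Pool.Agent.DS

variable {Ω : Type} [Field Ω] [Algebra ℂ Ω] {m : ℕ} {F : MvPolynomial (Fin (m + 2)) ℂ}
  {x : Fin (m + 1) → Ω}

/-- `y ↦ Phi (C y)` is linear -/
noncomputable def PhiL (F : MvPolynomial (Fin (m + 2)) ℂ) (x v : Fin (m + 1) → Ω) :
    (Fin (m + 1) → Ω) →ₗ[Ω] Polynomial Ω where
  toFun y := Phi F x v fun j => Polynomial.C (y j)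
  map_add' y z := by
    simp only [Phi, Pi.add_apply, map_add, add_mul, Finset.sum_add_distrib]
  map_smul' c y := by
    simp only [Phi, Pi.smul_apply, smul_eq_mul, map_mul, RingHom.id_apply, Polynomial.smul_eq_C_mul,
      Finset.mul_sum, mul_assoc]

theorem PhiL_apply (F : MvPolynomial (Fin (m + 2)) ℂ) (x v y : Fin (m + 1) → Ω) :
    PhiL F x v y = Phi F x v fun j => Polynomial.C (y j) := rfl

theorem good_mul_X (T : TLine F x) {G : Polynomial Ω} (hG : Good T G)
    (δ : Fin (m + 1) → Derivation ℂ Ω Ω) (hδ : ∀ i j, δ i (x j) = if i = j then 1 else 0)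
    (y : Fin (m + 1) → Ω) : ∃ z : Fin (m + 1) → Ω,
      G ∣ Polynomial.X * PhiL F x T.v y - PhiL F x T.v z := by
  let d : Derivation ℂ Ω Ω := ∑ j, y j • δ j
  have hd : ∀ i, d (x i) = y i := by
    intro i
    have h1 : d (x i) = ∑ j, y j * δ j (x i) := by
      show (∑ j, y j • δ j : Derivation ℂ Ω Ω) (x i) = _
      rw [← Derivation.coeFnAddMonoidHom_apply, map_sum, Finset.sum_apply]
      rfl
    rw [h1, Finset.sum_eq_single i]
    · rw [hδ i i, if_pos rfl, mul_one]
    · intro j _ hj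
      rw [hδ j i, if_neg hj, mul_zero]
    · intro h
      exact absurd (Finset.mem_univ i) h
  refine ⟨fun j => - d (T.v j), ?_⟩
  have h := hG.der d
  have h2 : Polynomial.X * PhiL F x T.v y - PhiL F x T.v (fun j => - d (T.v j)) =
      Phi F x T.v fun j => Polynomial.C (d (T.v j)) + Polynomial.X * Polynomial.C (d (x j)) := by
    simp only [PhiL_apply, Phi, hd, map_neg, Finset.mul_sum, ← Finset.sum_sub_distrib]
    refine Finset.sum_congr rfl fun j _ => ?_
    ring
  rw [h2]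
  exact h

/-- Let `φ : Ω^(m+1) → Ω[X] / (G)`, `φ y = Phi (C y)`. Its range is stable under `X`, so it is an ideal; it
contains all `F_j`, which together with `G` generate the unit ideal. -/
theorem range_eq_top [IsAlgClosed Ω] (T : TLine F x) (hs : Reg T) {G : Polynomial Ω} (hG : Good T G)
    (δ : Fin (m + 1) → Derivation ℂ Ω Ω) (hδ : ∀ i j, δ i (x j) = if i = j then 1 else 0)
    (P : Polynomial Ω) : ∃ y : Fin (m + 1) → Ω, G ∣ P - Phi F x T.v fun j => Polynomial.C (y j) := by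
  have hadd : ∀ {P Q : Polynomial Ω}, (∃ y, G ∣ P - PhiL F x T.v y) → (∃ y, G ∣ Q - PhiL F x T.v y) →
      ∃ y, G ∣ (P + Q) - PhiL F x T.v y := by
    rintro P Q ⟨y, hy⟩ ⟨z, hz⟩
    refine ⟨y + z, ?_⟩
    rw [map_add, add_sub_add_comm]
    exact dvd_add hy hz
  have hC : ∀ (c : Ω) {P : Polynomial Ω}, (∃ y, G ∣ P - PhiL F x T.v y) →
      ∃ y, G ∣ Polynomial.C c * P - PhiL F x T.v y := by
    rintro c P ⟨y, hy⟩
    refine ⟨c • y, ?_⟩
    rw [map_smul, Polynomial.smul_eq_C_mul, ← mul_sub]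
    exact Dvd.dvd.mul_left hy _
  have hX : ∀ {P : Polynomial Ω}, (∃ y, G ∣ P - PhiL F x T.v y) →
      ∃ y, G ∣ Polynomial.X * P - PhiL F x T.v y := by
    rintro P ⟨y, hy⟩
    obtain ⟨z, hz⟩ := good_mul_X T hG δ hδ y
    refine ⟨z, ?_⟩
    have h1 : Polynomial.X * P - PhiL F x T.v z =
        Polynomial.X * (P - PhiL F x T.v y) + (Polynomial.X * PhiL F x T.v y - PhiL F x T.v z) := by
      ring
    rw [h1]
    exact dvd_add (Dvd.dvd.mul_left hy _) hz
  let I : Ideal (Polynomial Ω) :=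
    { carrier := {P | ∃ y, G ∣ P - PhiL F x T.v y}
      add_mem' := fun h1 h2 => hadd h1 h2
      zero_mem' := ⟨0, by rw [map_zero, sub_zero]; exact dvd_zero _⟩
      smul_mem' := by
        intro c P hP
        show ∃ y, G ∣ c * P - PhiL F x T.v y
        induction c using Polynomial.induction_on with
        | C a => exact hC a hP
        | add p q hp hq => rw [add_mul]; exact hadd hp hq
        | monomial n a h =>
          have h2 : Polynomial.C a * Polynomial.X ^ (n + 1) * P =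
              Polynomial.X * (Polynomial.C a * Polynomial.X ^ n * P) := by ring
          rw [h2]
          exact hX h }
  have hIG : G ∈ I := ⟨0, by rw [map_zero, sub_zero]⟩
  have hIF : ∀ j, aeval (lp x T.v) (pderiv (Fin.succ j) F) ∈ I := by
    intro j
    refine ⟨Pi.single j 1, ?_⟩
    have h1 : PhiL F x T.v (Pi.single j 1) = aeval (lp x T.v) (pderiv (Fin.succ j) F) := by
      rw [PhiL_apply, Phi, Finset.sum_eq_single j]
      · rw [Pi.single_eq_same, map_one, one_mul]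
      · intro i _ hi
        rw [Pi.single_eq_of_ne hi, map_zero, zero_mul]
      · intro h
        exact absurd (Finset.mem_univ j) h
    rw [h1, sub_self]
    exact dvd_zero _
  obtain ⟨g, hg⟩ := (IsPrincipalIdealRing.principal I).principal
  have hg' : ∀ P, P ∈ I ↔ g ∣ P := by
    intro P
    rw [hg]
    exact Ideal.mem_span_singleton
  have hunit : IsUnit g := by
    by_contra hnu
    have hg0 : g ≠ 0 := by
      rintro rfl
      exact hG.ne (zero_dvd_iff.1 ((hg' G).1 hIG))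
    have hdeg : g.degree ≠ 0 := by
      intro h
      exact hnu (Polynomial.isUnit_iff_degree_eq_zero.2 h)
    obtain ⟨s, hs'⟩ := IsAlgClosed.exists_root g hdeg
    have h1 : G.IsRoot s := hs'.dvd ((hg' G).1 hIG)
    obtain ⟨j, hj⟩ := hs s (hG.root s h1)
    apply hj
    rw [← eval_line]
    exact hs'.dvd ((hg' _).1 (hIF j))
  exact (hg' P).2 (hunit.dvd)

/-- the map `Ω^(m+1) → Ω[X] / (G)` -/
noncomputable def PhiQ (F : MvPolynomial (Fin (m + 2)) ℂ) (x v : Fin (m + 1) → Ω) (G : Polynomial Ω) :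
    (Fin (m + 1) → Ω) →ₗ[Ω] (Polynomial Ω ⧸ Ideal.span {G}) :=
  (Ideal.Quotient.mkₐ Ω (Ideal.span {G})).toLinearMap ∘ₗ PhiL F x v

theorem PhiQ_eq_zero (F : MvPolynomial (Fin (m + 2)) ℂ) (x v : Fin (m + 1) → Ω) (G : Polynomial Ω)
    (y : Fin (m + 1) → Ω) : PhiQ F x v G y = 0 ↔ G ∣ Phi F x v fun j => Polynomial.C (y j) := by
  show Ideal.Quotient.mk (Ideal.span {G}) (PhiL F x v y) = 0 ↔ _
  rw [Ideal.Quotient.eq_zero_iff_mem, Ideal.mem_span_singleton]
  rfl

theorem finrank_ker [IsAlgClosed Ω] (T : TLine F x) (hs : Reg T) {G : Polynomial Ω} (hG : Good T G)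
    (δ : Fin (m + 1) → Derivation ℂ Ω Ω) (hδ : ∀ i j, δ i (x j) = if i = j then 1 else 0) :
    G.natDegree + Module.finrank Ω (LinearMap.ker (PhiQ F x T.v G)) = m + 1 := by
  have h1 := LinearMap.finrank_range_add_finrank_ker (PhiQ F x T.v G)
  have h2 : LinearMap.range (PhiQ F x T.v G) = ⊤ := by
    rw [LinearMap.range_eq_top]
    intro a
    obtain ⟨P, rfl⟩ := Ideal.Quotient.mk_surjective a
    obtain ⟨y, hy⟩ := range_eq_top T hs hG δ hδ P
    refine ⟨y, ?_⟩
    show Ideal.Quotient.mk (Ideal.span {G}) (PhiL F x T.v y) = Ideal.Quotient.mk (Ideal.span {G}) P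
    rw [eq_comm, Ideal.Quotient.eq, Ideal.mem_span_singleton]
    exact hy
  rw [h2, finrank_top, finrank_quotient_span_eq_natDegree] at h1
  simpa using h1

theorem deg_le [IsAlgClosed Ω] (T : TLine F x) (hs : Reg T) {G : Polynomial Ω} (hG : Good T G)
    (δ : Fin (m + 1) → Derivation ℂ Ω Ω) (hδ : ∀ i j, δ i (x j) = if i = j then 1 else 0) :
    G.natDegree ≤ m := by
  have h1 := finrank_ker T hs hG δ hδ
  have h2 : 0 < Module.finrank Ω (LinearMap.ker (PhiQ F x T.v G)) := by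
    rw [Module.finrank_pos_iff_exists_ne_zero]
    refine ⟨⟨T.v, (PhiQ_eq_zero F x T.v G T.v).2 hG.v⟩, ?_⟩
    intro h
    exact T.v_ne (congrArg Subtype.val h)
  omega

theorem ker_eq [IsAlgClosed Ω] (T : TLine F x) (hs : Reg T) {G : Polynomial Ω} (hG : Good T G)
    (δ : Fin (m + 1) → Derivation ℂ Ω Ω) (hδ : ∀ i j, δ i (x j) = if i = j then 1 else 0)
    (hdeg : G.natDegree = m) (y : Fin (m + 1) → Ω)
    (hy : G ∣ Phi F x T.v fun j => Polynomial.C (y j)) : ∃ c, ∀ j, y j = c * T.v j := by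
  have h1 := finrank_ker T hs hG δ hδ
  have h2 : Module.finrank Ω (LinearMap.ker (PhiQ F x T.v G)) = 1 := by omega
  have h3 : (⟨T.v, (PhiQ_eq_zero F x T.v G T.v).2 hG.v⟩ : LinearMap.ker (PhiQ F x T.v G)) ≠ 0 := by
    intro h
    exact T.v_ne (congrArg Subtype.val h)
  obtain ⟨c, hc⟩ := (finrank_eq_one_iff_of_nonzero' _ h3).1 h2 ⟨y, (PhiQ_eq_zero F x T.v G y).2 hy⟩
  refine ⟨c, fun j => ?_⟩
  have h4 := congrFun (congrArg Subtype.val hc) j
  exact h4.symm

end Pool.Agent.DS
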