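import Pool.Agent.Lib_MP_1209e6_ds.Good
import Pool.Agent.Lib_MP_1209e6_ds.Surj

/-! PIECE SIMPLE: the tangent line is nondegenerate. -/

set_option autoImplicit false

open MvPolynomial

namespace Pool.Agent.DS

section sim

variable {Ω : Type} [Field Ω] [Algebra ℂ Ω] {m : ℕ} {F : MvPolynomial (Fin (m + 2)) ℂ}
  {x : Fin (m + 1) → Ω}

theorem sim_phi_sub (v : Fin (m + 1) → Ω) (s : Ω) (a b : Fin (m + 1) → Ω) :
    phi F x v s (a - b) = phi F x v s a - phi F x v s b := by
  simp only [phi, Pi.sub_apply, sub_mul, Finset.sum_sub_distrib]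

theorem sim_phi_sum {ι : Type} (S : Finset ι) (v : Fin (m + 1) → Ω) (s : Ω) (c : ι → Ω)
    (a : ι → Fin (m + 1) → Ω) :
    phi F x v s (∑ i ∈ S, c i • a i) = ∑ i ∈ S, c i * phi F x v s (a i) := by
  simp only [phi, Finset.sum_apply, Pi.smul_apply, smul_eq_mul, Finset.sum_mul, Finset.mul_sum]
  rw [Finset.sum_comm]
  exact Finset.sum_congr rfl fun i _ => Finset.sum_congr rfl fun j _ => by ring

omit [Algebra ℂ Ω] in
/-- a polynomial which vanishes at the simple roots of `q` is divisible by `q` -/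
theorem sim_dvd [IsAlgClosed Ω] (q : Polynomial Ω) (hq : q.Monic)
    (h : ∀ s, ¬ (Polynomial.X - Polynomial.C s) ^ 2 ∣ q) (P : Polynomial Ω)
    (hP : ∀ s, q.IsRoot s → P.eval s = 0) : q ∣ P := by
  classical
  by_cases hP0 : P = 0
  · rw [hP0]
    exact dvd_zero _
  have hnd : q.roots.Nodup := by
    rw [Multiset.nodup_iff_count_le_one]
    intro s
    rw [Polynomial.count_roots]
    by_contra hc
    push Not at hc
    exact h s ((pow_dvd_pow _ hc).trans (Polynomial.pow_rootMultiplicity_dvd q s))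
  have hprod : (q.roots.map fun a => Polynomial.X - Polynomial.C a).prod = q :=
    Polynomial.prod_multiset_X_sub_C_of_monic_of_roots_card_eq hq
      (IsAlgClosed.splits q).natDegree_eq_card_roots.symm
  rw [← hprod, Multiset.prod_X_sub_C_dvd_iff_le_roots hP0, Multiset.le_iff_subset hnd]
  intro s hs
  rw [Polynomial.mem_roots hP0]
  exact hP s (Polynomial.isRoot_of_mem_roots hs)

end sim

variable {Ω : Type} [Field Ω] [Algebra ℂ Ω] [IsAlgClosed Ω] {m : ℕ} {F : MvPolynomial (Fin (m + 2)) ℂ}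
  {x : Fin (m + 1) → Ω}

/-- `ne_zero`: `good_zero`, `deg_le` (degree `m + 1`); `simple`: `good_double`, `deg_le`; `q` is the product of
the distinct `X - s`, so `phi s y = 0` at all roots gives `q ∣ Phi (C y)` and `ker_eq` gives `ker`;
`dual`: `range_eq_top` for a polynomial `P` with `P(s) = 1`, `P(s') = 0` at the other roots;
`span`: `y - ∑ phi s y • y_s` (`y_s` the dual vectors) is in the kernel; `phi_v`, `phi_der`: `good_q` evaluated at
`s` (`eval_Phi`, `Phi` and `phi` are linear). -/
theorem nice (hF : F.IsHomogeneous (2 * m + 4)) (T : TLine F x) (hs : Reg T)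
    (δ : Fin (m + 1) → Derivation ℂ Ω Ω) (hδ : ∀ i j, δ i (x j) = if i = j then 1 else 0) : Nice T := by
  classical
  have hsimple : ∀ s, ¬ (Polynomial.X - Polynomial.C s) ^ 2 ∣ T.q := by
    intro s h
    have h1 := deg_le T hs (good_double hF T s h) δ hδ
    rw [Polynomial.natDegree_mul (Polynomial.X_sub_C_ne_zero s) (gd_q_ne T), Polynomial.natDegree_X_sub_C,
      T.q_deg] at h1
    omega
  have hq0 : T.q ≠ 0 := gd_q_ne T
  have heval : ∀ (y : Fin (m + 1) → Ω) (s : Ω),
      (Phi F x T.v fun j => Polynomial.C (y j)).eval s = phi F x T.v s y := by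
    intro y s
    rw [eval_Phi]
    simp only [Polynomial.eval_C]
  have hker : ∀ y : Fin (m + 1) → Ω, (∀ s, T.q.IsRoot s → phi F x T.v s y = 0) →
      ∃ c, ∀ j, y j = c * T.v j := by
    intro y hy
    refine ker_eq T hs (good_q hF T) δ hδ T.q_deg y ?_
    exact sim_dvd T.q T.q_monic hsimple _ fun s hs' => by rw [heval]; exact hy s hs'
  have hdual : ∀ s, T.q.IsRoot s → ∃ y : Fin (m + 1) → Ω, phi F x T.v s y = 1 ∧
      ∀ s', T.q.IsRoot s' → s' ≠ s → phi F x T.v s' y = 0 := by
    intro s hs'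
    obtain ⟨q₁, hq₁⟩ := Polynomial.dvd_iff_isRoot.2 hs'
    have hq₁s : q₁.eval s ≠ 0 := by
      intro h0
      apply hsimple s
      obtain ⟨q₂, hq₂⟩ := Polynomial.dvd_iff_isRoot.2 h0
      exact ⟨q₂, by rw [hq₁, hq₂]; ring⟩
    obtain ⟨y, hy⟩ := range_eq_top T hs (good_q hF T) δ hδ (Polynomial.C (q₁.eval s)⁻¹ * q₁)
    have hroot : ∀ s', T.q.IsRoot s' →
        phi F x T.v s' y = (q₁.eval s)⁻¹ * q₁.eval s' := by
      intro s' h'
      obtain ⟨R, hR⟩ := hy
      have h1 := congrArg (Polynomial.eval s') hR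
      rw [Polynomial.eval_sub, heval, Polynomial.eval_mul, Polynomial.eval_C, Polynomial.eval_mul,
        h'.eq_zero, zero_mul, sub_eq_zero] at h1
      exact h1.symm
    refine ⟨y, ?_, fun s' h' hne => ?_⟩
    · rw [hroot s hs', inv_mul_cancel₀ hq₁s]
    · rw [hroot s' h']
      have h2 : (T.q).eval s' = 0 := h'
      rw [hq₁, Polynomial.eval_mul, Polynomial.eval_sub, Polynomial.eval_X, Polynomial.eval_C] at h2
      rcases mul_eq_zero.1 h2 with h3 | h3
      · exact absurd (sub_eq_zero.1 h3) hne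
      · rw [h3, mul_zero]
  have hv : ∀ s, T.q.IsRoot s → phi F x T.v s T.v = 0 := by
    intro s hs'
    obtain ⟨R, hR⟩ := (good_q hF T).v
    have h1 := congrArg (Polynomial.eval s) hR
    rw [heval, Polynomial.eval_mul, hs'.eq_zero, zero_mul] at h1
    exact h1
  refine ⟨?_, hsimple, hker, hdual, ?_, hv, ?_⟩
  · rintro s hs' rfl
    have h1 := deg_le T hs (good_zero hF T hs') δ hδ
    rw [Polynomial.natDegree_mul Polynomial.X_ne_zero hq0, Polynomial.natDegree_X, T.q_deg] at h1
    omega
  · intro W hvW hW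
    rw [eq_top_iff]
    intro y _
    choose! e he1 he0 using hdual
    have hmem : ∀ s, s ∈ T.q.roots.toFinset ↔ T.q.IsRoot s := by
      intro s
      rw [Multiset.mem_toFinset, Polynomial.mem_roots hq0]
    set u : Fin (m + 1) → Ω := ∑ s ∈ T.q.roots.toFinset, phi F x T.v s y • e s with hu
    have huW : u ∈ W := by
      refine W.sum_mem fun s hs' => W.smul_mem _ ?_
      rw [hmem] at hs'
      exact hW s hs' (e s) fun s' h' hne => he0 s hs' s' h' hne
    obtain ⟨c, hc⟩ := hker (y - u) fun s hs' => by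
      rw [sim_phi_sub, hu, sim_phi_sum, Finset.sum_eq_single s, he1 s hs', mul_one, sub_self]
      · intro s' h' hne
        rw [hmem] at h'
        rw [he0 s' h' s hs' hne.symm, mul_zero]
      · intro h'
        exact absurd ((hmem s).2 hs') h'
    have h1 : y - u = c • T.v := by
      funext j
      exact hc j
    have h2 : y = u + c • T.v := by rw [← h1]; abel
    rw [h2]
    exact W.add_mem huW (W.smul_mem _ hvW)
  · intro d s hs'
    obtain ⟨R, hR⟩ := (good_q hF T).der d
    have h1 := congrArg (Polynomial.eval s) hR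
    rw [eval_Phi, Polynomial.eval_mul, hs'.eq_zero, zero_mul] at h1
    simp only [Polynomial.eval_add, Polynomial.eval_C, Polynomial.eval_mul, Polynomial.eval_X, phi,
      add_mul, Finset.sum_add_distrib] at h1
    simp only [phi, Finset.mul_sum]
    rw [eq_comm, ← sub_eq_zero, ← neg_eq_zero, ← h1, ← Finset.sum_sub_distrib, ← Finset.sum_neg_distrib,
      ← Finset.sum_add_distrib]
    exact Finset.sum_congr rfl fun j _ => by ring

end Pool.Agent.DS
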