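import Pool.Agent.Lib_MP_1209e6_ds.Exist
import Pool.Agent.Lib_MP_1209e6_ds.GenericNe
import Pool.Agent.Lib_MP_1209e6_ds.Simple
import Pool.Agent.Lib_MP_1209e6_ds.NoInt
import Pool.Agent.Lib_MP_1209e6_ds.Cover
import Pool.Agent.Lib_MP_1209e6_ds.Iota
import Pool.Agent.Lib_MP_1209e6_ds.Base
import Pool.Agent.Lib_MP_1209e6_nt.End
import Pool.Agent.Lib_MP_1209e6_k3.Special

/-! PIECE MAIN: smooth double covers of projective space. -/

set_option autoImplicit false

open MvPolynomial Pool.Agent.Campana Pool.Agent.CampanaFlow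

namespace Pool.Agent.DS

/-- `special_covers` and `brody_covers` for finitely many embeddings into one field -/
theorem multi_cover {n : ℕ} (P : Ideal (MvPolynomial (Fin (n + 1)) ℂ)) [P.IsPrime] (hP : IsVariety P)
    {L : Type} [iL : Field L] [aL : Algebra ℂ L] {r : ℕ}
    (ι : Fin r → FunField P →ₐ[ℂ] L)
    (hfin : ∀ i, @Module.Finite (FunField P) L _ _ ((ι i).toRingHom.toAlgebra).toModule)
    (k : IntermediateField ℂ L) {N : ℕ} (x : Fin (N + 1) → L) (h : AlmostHomogeneous k x)
    (hc : ∀ u : FunField P, (∀ i, IsAlgebraic k (ι i u)) → ∃ c : ℂ, u = algebraMap ℂ (FunField P) c) :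
    SpecialField (FunField P) ∧ BrodySpecial P := by
  have htow : ∀ i, @IsScalarTower ℂ (FunField P) L _ ((ι i).toRingHom.toAlgebra).toSMul _ := by
    intro i
    letI : Algebra (FunField P) L := (ι i).toRingHom.toAlgebra
    exact IsScalarTower.of_algebraMap_eq fun c => ((ι i).commutes c).symm
  exact ⟨@Pool.Agent.K3.special_covers (FunField P) _ _ (funField_fg P) r (fun _ => L) (fun _ => iL)
      (fun _ => aL) (fun i => (ι i).toRingHom.toAlgebra) htow hfin (fun _ => k) (fun _ => N)
      (fun _ => x) (fun _ => h) hc,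
    @Pool.Agent.CampanaNT.brody_covers n P _ hP r (fun _ => L) (fun _ => iL)
      (fun _ => aL) (fun i => (ι i).toRingHom.toAlgebra) htow hfin (fun _ => k) (fun _ => N)
      (fun _ => x) (fun _ => h) hc⟩

/-- the double cover of `ℙⁿ` branched along `F = 0`, for a nondegenerate tangent line through the generic
point -/
theorem double_cover_of_nice {m : ℕ} {F : MvPolynomial (Fin (m + 2)) ℂ}
    (hF : F.IsHomogeneous (2 * m + 4)) (hne : F ≠ 0) {n : ℕ}
    (P : Ideal (MvPolynomial (Fin (n + 1)) ℂ)) [P.IsPrime] (hP : IsVariety P)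
    (z : Fin (m + 1) → FunField P) (w : FunField P) (hz : AlgebraicIndependent ℂ z)
    (hw : w ^ 2 = aeval (Fin.cons 1 z) F)
    (hgen : IntermediateField.adjoin ℂ (Set.range z ∪ {w}) = ⊤)
    (T : TLine F fun j => algebraMap (FunField P) (AlgebraicClosure (FunField P)) (z j)) (hT : Nice T) :
    SpecialField (FunField P) ∧ BrodySpecial P := by
  have hx := generic_closure z w hz hw hgen
  have h0 : aeval (Fin.cons 1 fun j => algebraMap (FunField P) (AlgebraicClosure (FunField P)) (z j) :
      Fin (m + 2) → AlgebraicClosure (FunField P)) F ≠ 0 := generic_ne_of_ne hne hF hx.ind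
  have hw0 : w ≠ 0 := by
    rintro rfl
    rw [zero_pow two_ne_zero] at hw
    exact generic_ne_of_ne hne hF hz hw.symm
  obtain ⟨δ, hδ⟩ := exists_dual hx
  obtain ⟨D, hD⟩ := exists_along δ hδ T.v
  obtain ⟨M⟩ := exists_fam hF h0 T hT D hD
  obtain ⟨L, iL, aL, j, e, k, N, X, hej, hfin, hX, hk⟩ := exists_cover z w hw hw0 hgen D M
  obtain ⟨ι, hι2, hιz, hι⟩ := exists_iota z w hw hgen
  have hadj : ∀ u ∈ IntermediateField.adjoin ℂ (Set.range z),
      algebraMap (FunField P) (AlgebraicClosure (FunField P)) u ∈ IntermediateField.adjoin ℂ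
        (Set.range fun j => algebraMap (FunField P) (AlgebraicClosure (FunField P)) (z j)) := by
    intro u hu
    have h1 : IntermediateField.adjoin ℂ (Set.range z) ≤
        (IntermediateField.adjoin ℂ
        (Set.range fun j => algebraMap (FunField P) (AlgebraicClosure (FunField P)) (z j))).comap
          (IsScalarTower.toAlgHom ℂ (FunField P) (AlgebraicClosure (FunField P))) := by
      rw [IntermediateField.adjoin_le_iff]
      rintro _ ⟨i, rfl⟩
      exact IntermediateField.subset_adjoin _ _ ⟨i, rfl⟩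
    exact h1 hu
  have hcomp : @Module.Finite (FunField P) L _ _ ((j.comp ι).toRingHom.toAlgebra).toModule := by
    have h1 : j.toRingHom.Finite := hfin
    have h2 : ι.toRingHom.Finite := RingHom.Finite.of_surjective _ fun u => ⟨ι u, hι2 u⟩
    exact h1.comp h2
  refine multi_cover P hP (r := 2) ![j, j.comp ι] ?_ k X hX ?_
  · intro i
    fin_cases i
    · exact hfin
    · exact hcomp
  · intro u hu
    have h1 : IsAlgebraic k (j u) := hu 0
    have h2 : IsAlgebraic k (j (ι u)) := hu 1
    have hD1 := hk _ h1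
    have hD2 := hk _ h2
    rw [hej] at hD1 hD2
    obtain ⟨s, hs1⟩ := const_of_D hF hx T hT D hD _ (hadj _ (hι u).1) (by
      rw [map_add, map_add, hD1, hD2, add_zero])
    obtain ⟨p, hp1⟩ := const_of_D hF hx T hT D hD _ (hadj _ (hι u).2) (by
      rw [map_mul, Derivation.leibniz, hD1, hD2, smul_zero, smul_zero, add_zero])
    rw [map_add] at hs1
    rw [map_mul] at hp1
    obtain ⟨c, hc⟩ := Pool.Agent.DP.const_of_sum_prod hs1 hp1
    refine ⟨c, (algebraMap (FunField P) (AlgebraicClosure (FunField P))).injective ?_⟩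
    rw [hc, ← IsScalarTower.algebraMap_apply ℂ (FunField P) (AlgebraicClosure (FunField P))]

theorem double_cover_of_reg {m : ℕ} {F : MvPolynomial (Fin (m + 2)) ℂ}
    (hF : F.IsHomogeneous (2 * m + 4)) (hne : F ≠ 0) {n : ℕ}
    (P : Ideal (MvPolynomial (Fin (n + 1)) ℂ)) [P.IsPrime] (hP : IsVariety P)
    (hK : IsDouble (FunField P) F)
    (hreg : ∀ (x : Fin (m + 1) → AlgebraicClosure (FunField P)) (_ : Generic x)
      (δ : Fin (m + 1) → Derivation ℂ (AlgebraicClosure (FunField P)) (AlgebraicClosure (FunField P)))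
      (_ : ∀ i j, δ i (x j) = if i = j then 1 else 0) (T : TLine F x), Reg T) :
    SpecialField (FunField P) ∧ BrodySpecial P := by
  obtain ⟨z, w, hz, hw, hgen⟩ := hK
  have hx := generic_closure z w hz hw hgen
  obtain ⟨T⟩ := exists_tline hF _ (generic_ne_of_ne hne hF hx.ind)
  obtain ⟨δ, hδ⟩ := exists_dual hx
  exact double_cover_of_nice hF hne P hP z w hz hw hgen T (nice hF T (hreg _ hx δ hδ T) δ hδ)

/-- smooth branch hypersurface -/
theorem double_cover {m : ℕ} {F : MvPolynomial (Fin (m + 2)) ℂ} (hF : F.IsHomogeneous (2 * m + 4))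
    (hs : Smooth F) {n : ℕ} (P : Ideal (MvPolynomial (Fin (n + 1)) ℂ)) [P.IsPrime] (hP : IsVariety P)
    (hK : IsDouble (FunField P) F) : SpecialField (FunField P) ∧ BrodySpecial P := by
  refine double_cover_of_reg hF ?_ P hP hK fun x _ _ _ T => hs.reg T
  rintro rfl
  have h := congrFun (hs 1 fun j => by rw [map_zero, map_zero]) 0
  exact one_ne_zero h

end Pool.Agent.DS
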