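import Pool.Agent.Lib_MP_1209e6_ds.Krull20

/-!
Lines which are tangent at `m` points to a hypersurface of degree `2 m + 4` in `P^(m+1)`, through
a given point (Krull).
-/

set_option autoImplicit false

open Polynomial

namespace Pool.Agent.DS

section top

variable {A : Type*} [CommRing A] {ι : Type*}

theorem prod_top (f : ι → A[X]) (k : ι → ℕ) (h : ∀ i, (f i).natDegree ≤ k i) (t : Finset ι) :
    (∏ i ∈ t, f i).natDegree ≤ ∑ i ∈ t, k i ∧
      (∏ i ∈ t, f i).coeff (∑ i ∈ t, k i) = ∏ i ∈ t, (f i).coeff (k i) := by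
  classical
  induction t using Finset.induction_on with
  | empty => simp
  | insert a t ha ih =>
    rw [Finset.prod_insert ha, Finset.sum_insert ha, Finset.prod_insert ha]
    refine ⟨natDegree_mul_le.trans (add_le_add (h a) ih.1), ?_⟩
    rw [coeff_mul_add_eq_of_natDegree_le (h a) ih.1, ih.2]

theorem pow_top (a b : A) (k : ℕ) : ((C a + X * C b) ^ k).natDegree ≤ k ∧
    ((C a + X * C b) ^ k).coeff k = b ^ k := by
  have h1 : (C a + X * C b).natDegree ≤ 1 := by
    refine (natDegree_add_le _ _).trans (max_le (by simp) ?_)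
    refine natDegree_mul_le.trans ?_
    simp [natDegree_X_le]
  refine ⟨natDegree_pow_le_of_le k h1 |>.trans (by simp), ?_⟩
  have h2 := coeff_pow_of_natDegree_le (m := k) h1
  rw [mul_one] at h2
  rw [h2]
  simp

/-- the restriction of a form to a line -/
theorem line_top {k : Type*} [CommRing k] [Algebra k A] [Fintype ι] {F : MvPolynomial ι k} {d : ℕ}
    (hF : F.IsHomogeneous d) (a b : ι → A) :
    (MvPolynomial.aeval (fun i => C (a i) + X * C (b i)) F : A[X]).natDegree ≤ d ∧
      (MvPolynomial.aeval (fun i => C (a i) + X * C (b i)) F : A[X]).coeff d =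
        MvPolynomial.aeval b F := by
  classical
  have hs : ∀ s ∈ F.support, ∑ i, s i = d := by
    intro s hs
    have h1 := hF (MvPolynomial.mem_support_iff.1 hs)
    rw [Finsupp.weight_apply, Finsupp.sum_fintype _ _ (by simp)] at h1
    simpa using h1
  rw [MvPolynomial.aeval_def, MvPolynomial.eval₂_eq', MvPolynomial.aeval_def,
    MvPolynomial.eval₂_eq']
  constructor
  · refine natDegree_sum_le_of_forall_le _ _ fun s hs' => ?_
    rw [Polynomial.algebraMap_apply]
    refine (natDegree_C_mul_le _ _).trans ?_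
    rw [← hs s hs']
    exact (prod_top _ (fun i => s i) (fun i => (pow_top (a i) (b i) (s i)).1) _).1
  · rw [finsetSum_coeff]
    refine Finset.sum_congr rfl fun s hs' => ?_
    rw [Polynomial.algebraMap_apply, coeff_C_mul]
    congr 1
    have h1 := (prod_top (fun i => (C (a i) + X * C (b i)) ^ s i) (fun i => s i)
      (fun i => (pow_top (a i) (b i) (s i)).1) Finset.univ).2
    rw [hs s hs'] at h1
    rw [h1]
    exact Finset.prod_congr rfl fun i _ => (pow_top (a i) (b i) (s i)).2

end top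

section exist

variable {Ω : Type} [Field Ω]

/-- monic polynomial of degree `m` with given lower coefficients -/
noncomputable def mq {A : Type*} [CommRing A] {m : ℕ} (c : Fin m → A) : A[X] :=
  X ^ m + ∑ j : Fin m, C (c j) * X ^ (j : ℕ)

/-- polynomial of degree `4` with given coefficients -/
noncomputable def rq {A : Type*} [CommRing A] (u : A) (c : Fin 4 → A) : A[X] :=
  C u * X ^ 4 + ∑ j : Fin 4, C (c j) * X ^ (j : ℕ)

theorem coeff_low {A : Type*} [CommRing A] {m : ℕ} (c : Fin m → A) (j : Fin m) :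
    (∑ j : Fin m, C (c j) * X ^ (j : ℕ)).coeff (j : ℕ) = c j := by
  rw [finsetSum_coeff, Finset.sum_eq_single j]
  · simp
  · intro b _ hb
    rw [coeff_C_mul, coeff_X_pow, if_neg (fun h => hb (Fin.ext h).symm), mul_zero]
  · simp

theorem deg_low {A : Type*} [CommRing A] {m : ℕ} (c : Fin m → A) :
    (∑ j : Fin m, C (c j) * X ^ (j : ℕ)).degree < (m : WithBot ℕ) :=
  degree_sum_fin_lt c

theorem mq_monic {A : Type*} [CommRing A] {m : ℕ} (c : Fin m → A) : (mq c).Monic :=
  monic_X_pow_add (deg_low c)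

theorem mq_natDegree {A : Type*} [CommRing A] [Nontrivial A] {m : ℕ} (c : Fin m → A) :
    (mq c).natDegree = m := by
  unfold mq
  rw [natDegree_add_eq_left_of_degree_lt (by rw [degree_X_pow]; exact deg_low c), natDegree_X_pow]

theorem mq_natDegree_le {A : Type*} [CommRing A] {m : ℕ} (c : Fin m → A) :
    (mq c).natDegree ≤ m := by
  unfold mq
  refine (natDegree_add_le _ _).trans (max_le (natDegree_X_pow_le m) ?_)
  exact natDegree_le_of_degree_le (deg_low c).le

theorem mq_coeff {A : Type*} [CommRing A] {m : ℕ} (c : Fin m → A) (j : Fin m) :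
    (mq c).coeff (j : ℕ) = c j := by
  unfold mq
  rw [coeff_add, coeff_low, coeff_X_pow, if_neg (by have := j.2; omega), zero_add]

theorem rq_natDegree_le {A : Type*} [CommRing A] (u : A) (c : Fin 4 → A) :
    (rq u c).natDegree ≤ 4 := by
  unfold rq
  refine (natDegree_add_le _ _).trans (max_le (natDegree_C_mul_X_pow_le _ _) ?_)
  exact natDegree_le_of_degree_le (deg_low c).le

theorem rq_coeff {A : Type*} [CommRing A] (u : A) (c : Fin 4 → A) (j : Fin 4) :
    (rq u c).coeff (j : ℕ) = c j := by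
  unfold rq
  rw [coeff_add, coeff_low, coeff_C_mul_X_pow, if_neg (by have := j.2; omega), zero_add]

theorem rq_coeff_four {A : Type*} [CommRing A] (u : A) (c : Fin 4 → A) :
    (rq u c).coeff 4 = u := by
  unfold rq
  rw [coeff_add, coeff_C_mul_X_pow, if_pos rfl]
  have : (∑ j : Fin 4, C (c j) * X ^ (j : ℕ)).coeff 4 = 0 :=
    coeff_eq_zero_of_degree_lt (deg_low c)
  rw [this, add_zero]

theorem mq_map {A B : Type*} [CommRing A] [CommRing B] (φ : A →+* B) {m : ℕ} (c : Fin m → A) :
    (mq c).map φ = mq fun j => φ (c j) := by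
  unfold mq
  simp [Polynomial.map_sum]

theorem rq_map {A B : Type*} [CommRing A] [CommRing B] (φ : A →+* B) (u : A) (c : Fin 4 → A) :
    (rq u c).map φ = rq (φ u) fun j => φ (c j) := by
  unfold rq
  simp [Polynomial.map_sum]

theorem mq_zero {A : Type*} [CommRing A] {m : ℕ} : (mq (fun _ : Fin m => (0 : A))) = X ^ m := by
  simp [mq]

theorem rq_zero {A : Type*} [CommRing A] (u : A) : rq u (fun _ => (0 : A)) = C u * X ^ 4 := by
  simp [rq]

/-- restriction of a form to the line `(T, v + T x)` -/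
noncomputable def line {A : Type*} [CommRing A] [Algebra Ω A] {n : ℕ}
    (F : MvPolynomial (Fin (n + 1)) Ω) (v x : Fin n → A) : A[X] :=
  MvPolynomial.aeval (fun i => C ((Fin.cons 0 v : Fin (n + 1) → A) i) +
    X * C ((Fin.cons 1 x : Fin (n + 1) → A) i)) F

theorem line_map {A B : Type*} [CommRing A] [Algebra Ω A] [CommRing B] [Algebra Ω B] {n : ℕ}
    (F : MvPolynomial (Fin (n + 1)) Ω) (v x : Fin n → A) (φ : A →ₐ[Ω] B) :
    (line F v x).map (φ : A →+* B) = line F (fun i => φ (v i)) (fun i => φ (x i)) := by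
  have h : (Polynomial.mapAlgHom φ).comp (MvPolynomial.aeval (fun i =>
      C ((Fin.cons 0 v : Fin (n + 1) → A) i) + X * C ((Fin.cons 1 x : Fin (n + 1) → A) i))) =
      MvPolynomial.aeval (fun i => C ((Fin.cons 0 (fun i => φ (v i)) : Fin (n + 1) → B) i) +
        X * C ((Fin.cons 1 (fun i => φ (x i)) : Fin (n + 1) → B) i)) := by
    apply MvPolynomial.algHom_ext
    intro i
    rw [AlgHom.comp_apply, MvPolynomial.aeval_X, MvPolynomial.aeval_X, map_add, map_mul]
    refine Fin.cases ?_ (fun i => ?_) i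
    · simp
    · simp
  exact congrArg (fun g => g F) h

/-- **Existence of tangent lines.** -/
theorem exists_tangent [IsAlgClosed Ω] {m : ℕ} (F : MvPolynomial (Fin (m + 2)) Ω)
    (hF : F.IsHomogeneous (2 * m + 4)) (x : Fin (m + 1) → Ω)
    (hx : MvPolynomial.aeval (Fin.cons 1 x : Fin (m + 2) → Ω) F ≠ 0) :
    ∃ (v : Fin (m + 1) → Ω) (q : Fin m → Ω) (r : Fin 4 → Ω), v ≠ 0 ∧
      line F v x = mq q ^ 2 * rq (MvPolynomial.aeval (Fin.cons 1 x : Fin (m + 2) → Ω) F) r := by
  classical
  set u := MvPolynomial.aeval (Fin.cons 1 x : Fin (m + 2) → Ω) F with hu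
  let J := Fin (m + 1) ⊕ Fin m ⊕ Fin 4
  let A := MvPolynomial J Ω
  let V : Fin (m + 1) → A := fun i => MvPolynomial.X (Sum.inl i)
  let Q : Fin m → A := fun i => MvPolynomial.X (Sum.inr (Sum.inl i))
  let R : Fin 4 → A := fun i => MvPolynomial.X (Sum.inr (Sum.inr i))
  let x' : Fin (m + 1) → A := fun i => MvPolynomial.C (x i)
  let P : A[X] := line F V x' - mq Q ^ 2 * rq (MvPolynomial.C u) R
  have hP : ∀ y : J → Ω, P.map (MvPolynomial.aeval y : A →ₐ[Ω] Ω).toRingHom =
      line F (fun i => y (Sum.inl i)) x - mq (fun i => y (Sum.inr (Sum.inl i))) ^ 2 *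
        rq u (fun i => y (Sum.inr (Sum.inr i))) := by
    intro y
    have h1 := line_map F V x' (MvPolynomial.aeval y : A →ₐ[Ω] Ω)
    change Polynomial.map ((MvPolynomial.aeval y : A →ₐ[Ω] Ω) : A →+* Ω) P = _
    simp only [P, Polynomial.map_sub, Polynomial.map_mul, Polynomial.map_pow, h1, mq_map, rq_map]
    have hC : ∀ c : Ω, (MvPolynomial.aeval y : A →ₐ[Ω] Ω) (MvPolynomial.C c) = c := fun c => by
      rw [MvPolynomial.aeval_C]; rfl
    have hX : ∀ j : J, (MvPolynomial.aeval y : A →ₐ[Ω] Ω) (MvPolynomial.X j) = y j := fun j =>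
      MvPolynomial.aeval_X y j
    simp only [RingHom.coe_coe, V, Q, R, x', hC, hX]
  have hcard : Fintype.card (Fin (2 * m + 4)) < Fintype.card J := by
    simp only [J, Fintype.card_sum, Fintype.card_fin]
    omega
  have hzero : line F (0 : Fin (m + 1) → Ω) x = C u * X ^ (2 * m + 4) := by
    have h1 : (fun i => C ((Fin.cons 0 (0 : Fin (m + 1) → Ω) : Fin (m + 2) → Ω) i) +
        X * C ((Fin.cons 1 x : Fin (m + 2) → Ω) i)) =
        fun i => X * C ((Fin.cons 1 x : Fin (m + 2) → Ω) i) := by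
      funext i
      refine Fin.cases ?_ (fun i => ?_) i
      · simp
      · simp
    unfold line
    rw [h1, hu, MvPolynomial.aeval_def, MvPolynomial.eval₂_eq', MvPolynomial.aeval_def,
      MvPolynomial.eval₂_eq', map_sum, Finset.sum_mul]
    refine Finset.sum_congr rfl fun s hs => ?_
    have h2 : ∑ i, s i = 2 * m + 4 := by
      have h3 := hF (MvPolynomial.mem_support_iff.1 hs)
      rw [Finsupp.weight_apply, Finsupp.sum_fintype _ _ (by simp)] at h3
      simpa using h3
    rw [Polynomial.algebraMap_apply, map_mul, mul_assoc]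
    congr 1
    rw [← h2, ← Finset.prod_pow_eq_pow_sum, map_prod, ← Finset.prod_mul_distrib]
    refine Finset.prod_congr rfl fun i _ => ?_
    rw [mul_pow, map_pow, mul_comm]
  obtain ⟨y, hy0, hy⟩ := exists_common_zero (Ω := Ω) (J := J)
    (fun k : Fin (2 * m + 4) => P.coeff k) (by
      intro k
      have h2 : (P.map (MvPolynomial.aeval (0 : J → Ω) : A →ₐ[Ω] Ω).toRingHom).coeff k =
        MvPolynomial.aeval (0 : J → Ω) (P.coeff k) := by rw [coeff_map]; rfl
      rw [← h2, hP 0]
      have h3 : line F (fun i => (0 : J → Ω) (Sum.inl i)) x = C u * X ^ (2 * m + 4) := hzero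
      have h4 : mq (fun i : Fin m => (0 : J → Ω) (Sum.inr (Sum.inl i))) = X ^ m := mq_zero
      have h5 : rq u (fun i : Fin 4 => (0 : J → Ω) (Sum.inr (Sum.inr i))) = C u * X ^ 4 :=
        rq_zero u
      rw [h3, h4, h5]
      have h6 : (C u * X ^ (2 * m + 4) - (X ^ m) ^ 2 * (C u * X ^ 4) : Polynomial Ω) = 0 := by ring
      rw [h6, coeff_zero]) hcard
  have hD : line F (fun i => y (Sum.inl i)) x =
      mq (fun i => y (Sum.inr (Sum.inl i))) ^ 2 * rq u (fun i => y (Sum.inr (Sum.inr i))) := by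
    rw [← sub_eq_zero, ← hP y]
    ext k
    rw [coeff_zero]
    rcases lt_trichotomy k (2 * m + 4) with hk | hk | hk
    · rw [coeff_map]
      exact hy ⟨k, hk⟩
    · rw [hP y, coeff_sub, hk]
      have h1 := (line_top hF (Fin.cons 0 fun i => y (Sum.inl i)) (Fin.cons 1 x)).2
      have h2 : (line F (fun i => y (Sum.inl i)) x).coeff (2 * m + 4) = u := h1
      have h3 : (mq (fun i => y (Sum.inr (Sum.inl i))) ^ 2 : Polynomial Ω).natDegree ≤ 2 * m := by
        refine (natDegree_pow_le).trans ?_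
        exact Nat.mul_le_mul le_rfl (mq_natDegree_le _)
      have h4 : (mq (fun i : Fin m => y (Sum.inr (Sum.inl i))) ^ 2 : Polynomial Ω).coeff (2 * m) = 1 := by
        rw [coeff_pow_of_natDegree_le (mq_natDegree_le _)]
        have h5 := mq_monic (fun i : Fin m => y (Sum.inr (Sum.inl i)))
        have h6 := h5.coeff_natDegree
        rw [mq_natDegree] at h6
        rw [h6, one_pow]
      rw [h2, coeff_mul_add_eq_of_natDegree_le h3 (rq_natDegree_le _ _), h4, rq_coeff_four]
      ring
    · rw [hP y, coeff_sub]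
      have h1 := (line_top hF (Fin.cons 0 fun i => y (Sum.inl i)) (Fin.cons 1 x)).1
      have h2 : (line F (fun i => y (Sum.inl i)) x).coeff k = 0 :=
        coeff_eq_zero_of_natDegree_lt (lt_of_le_of_lt h1 hk)
      have h3 : (mq (fun i => y (Sum.inr (Sum.inl i))) ^ 2 *
          rq u (fun i => y (Sum.inr (Sum.inr i))) : Polynomial Ω).natDegree ≤ 2 * m + 4 := by
        refine natDegree_mul_le.trans (add_le_add ?_ (rq_natDegree_le _ _))
        refine (natDegree_pow_le).trans ?_
        exact Nat.mul_le_mul le_rfl (mq_natDegree_le _)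
      rw [h2, coeff_eq_zero_of_natDegree_lt (lt_of_le_of_lt h3 hk), sub_zero]
  refine ⟨fun i => y (Sum.inl i), fun i => y (Sum.inr (Sum.inl i)),
    fun i => y (Sum.inr (Sum.inr i)), fun hv => hy0 ?_, hD⟩
  rw [hv, hzero] at hD
  have hdvd : mq (fun i : Fin m => y (Sum.inr (Sum.inl i))) ∣ X ^ (2 * m + 4) := by
    have h1 : mq (fun i : Fin m => y (Sum.inr (Sum.inl i))) ∣ C u * X ^ (2 * m + 4) := by
      rw [hD, pow_two, mul_assoc]
      exact dvd_mul_right _ _
    have h2 : IsUnit (C u : Polynomial Ω) := isUnit_C.2 (isUnit_iff_ne_zero.2 hx)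
    exact (h2.dvd_mul_left).1 h1
  obtain ⟨i, -, hi⟩ := (dvd_prime_pow Polynomial.prime_X _).1 hdvd
  have hi2 : mq (fun i : Fin m => y (Sum.inr (Sum.inl i))) = X ^ i :=
    eq_of_monic_of_associated (mq_monic _) (monic_X_pow i) hi
  have hi3 : i = m := by
    have h1 := congrArg natDegree hi2
    rw [mq_natDegree, natDegree_X_pow] at h1
    exact h1.symm
  rw [hi3] at hi2
  have hr : rq u (fun i => y (Sum.inr (Sum.inr i))) = C u * X ^ 4 := by
    rw [hi2] at hD
    have h1 : (X ^ m : Polynomial Ω) ^ 2 ≠ 0 := pow_ne_zero _ (pow_ne_zero _ X_ne_zero)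
    refine mul_left_cancel₀ h1 ?_
    rw [← hD]
    ring
  funext j
  rcases j with j | j | j
  · exact congrFun hv j
  · have h1 := mq_coeff (fun i : Fin m => y (Sum.inr (Sum.inl i))) j
    rw [hi2, coeff_X_pow, if_neg (by have := j.2; omega)] at h1
    exact h1.symm
  · have h1 := rq_coeff u (fun i => y (Sum.inr (Sum.inr i))) j
    rw [hr, coeff_C_mul, coeff_X_pow, if_neg (by have := j.2; omega), mul_zero] at h1
    exact h1.symm

end exist

end Pool.Agent.DS
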