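import Pool.Agent.Lib_MP_1209e6_ds.Defs
import Pool.Agent.Lib_MP_1209e6_ds.Exist20

/-! PIECE EXIST: the tangent line through the generic point. -/

set_option autoImplicit false

open MvPolynomial

namespace Pool.Agent.DS

variable {Ω : Type} [Field Ω] [Algebra ℂ Ω] [IsAlgClosed Ω] {m : ℕ}

omit [Algebra ℂ Ω] [IsAlgClosed Ω] in
theorem lp_eq20 (x v : Fin (m + 1) → Ω) : lp x v = fun i =>
    Polynomial.C ((Fin.cons 0 v : Fin (m + 2) → Ω) i) +
      Polynomial.X * Polynomial.C ((Fin.cons 1 x : Fin (m + 2) → Ω) i) := by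
  funext i
  refine Fin.cases ?_ (fun i => ?_) i
  · simp [lp]
  · simp [lp]

/-- Unknowns `v` (`m + 1`), `q_1, …, q_m`, `r_1, …, r_4` (`2m + 5` together); the `2m + 4` equations are the
coefficients of `T ^ 0, …, T ^ (2m + 3)` of
`F (v + T x) - (T^m + q_1 T^(m-1) + …)² (F(1,x) T^4 + r_1 T^3 + …)`; see `exists_tangent`. -/
theorem exists_tline {F : MvPolynomial (Fin (m + 2)) ℂ} (hF : F.IsHomogeneous (2 * m + 4))
    (x : Fin (m + 1) → Ω) (hx : aeval (Fin.cons 1 x : Fin (m + 2) → Ω) F ≠ 0) : Nonempty (TLine F x) := by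
  have hm : ∀ (A : Type) [CommRing A] [Algebra ℂ A] [Algebra Ω A] [IsScalarTower ℂ Ω A]
      (y : Fin (m + 2) → A), aeval y (map (algebraMap ℂ Ω) F) = aeval y F := by
    intro A _ _ _ _ y
    rw [aeval_map_algebraMap]
  obtain ⟨v, q, r, hv, h⟩ := exists_tangent (map (algebraMap ℂ Ω) F) (hF.map _) x (by
    rw [hm]; exact hx)
  refine ⟨⟨v, mq q, rq (aeval (Fin.cons 1 x : Fin (m + 2) → Ω) (map (algebraMap ℂ Ω) F)) r, hv,
    mq_monic q, mq_natDegree q, rq_natDegree_le _ _, ?_⟩⟩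
  rw [← h, line, hm, lp_eq20]

end Pool.Agent.DS
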