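import Pool.Agent.Lib_MP_1209e6_ds.Div

/-! PIECE GOOD: the divisors of the differential of `F` on the line. -/

set_option autoImplicit false

open MvPolynomial

namespace Pool.Agent.DS

variable {Ω : Type} [Field Ω] [Algebra ℂ Ω] {m : ℕ} {F : MvPolynomial (Fin (m + 2)) ℂ}
  {x : Fin (m + 1) → Ω}

/-- the derivative of polynomials as a `ℂ`-derivation -/
noncomputable def gdDer (Ω : Type) [Field Ω] [Algebra ℂ Ω] : Derivation ℂ (Polynomial Ω) (Polynomial Ω) :=
  (Polynomial.derivative' (R := Ω)).restrictScalars ℂ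

theorem gdDer_apply (p : Polynomial Ω) : gdDer Ω p = Polynomial.derivative p := rfl

theorem gd_q_ne (T : TLine F x) : T.q ≠ 0 := T.q_monic.ne_zero

theorem good_q (hF : F.IsHomogeneous (2 * m + 4)) (T : TLine F x) : Good T T.q := by
  refine ⟨gd_q_ne T, fun δ => ?_, ?_, fun s hs => hs⟩
  · obtain ⟨Δ, hX, hC⟩ := exists_coef δ
    rw [← der_line F x T.v δ Δ hX hC, T.eq]
    exact dvd_der Δ T.q T.r
  · rw [euler_line hF, T.eq]
    refine dvd_sub ?_ ?_
    · exact Dvd.dvd.mul_left ((dvd_pow_self _ two_ne_zero).mul_right _) _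
    · exact Dvd.dvd.mul_left (dvd_der (gdDer Ω) T.q T.r) _

theorem good_double (hF : F.IsHomogeneous (2 * m + 4)) (T : TLine F x) (s : Ω)
    (h : (Polynomial.X - Polynomial.C s) ^ 2 ∣ T.q) :
    Good T ((Polynomial.X - Polynomial.C s) * T.q) := by
  have h1 : (Polynomial.X - Polynomial.C s) ∣ T.q := (dvd_pow_self _ two_ne_zero).trans h
  refine ⟨mul_ne_zero (Polynomial.X_sub_C_ne_zero s) (gd_q_ne T), fun δ => ?_, ?_, fun s' hs' => ?_⟩
  · obtain ⟨Δ, hX, hC⟩ := exists_coef δ
    rw [← der_line F x T.v δ Δ hX hC, T.eq]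
    exact dvd_der_double Δ T.q T.r s h
  · rw [euler_line hF, T.eq]
    refine dvd_sub ?_ ?_
    · refine Dvd.dvd.mul_left (Dvd.dvd.mul_right ?_ _) _
      rw [sq]
      exact mul_dvd_mul_right h1 _
    · exact Dvd.dvd.mul_left (dvd_der_double (gdDer Ω) T.q T.r s h) _
  · rcases Polynomial.root_mul.1 hs' with h2 | h2
    · rw [Polynomial.root_X_sub_C] at h2
      rw [← h2]
      exact Polynomial.dvd_iff_isRoot.1 h1
    · exact h2

/-- `G = X q`: for `v` use `euler_line`: `d g - X g'`, both divisible by `X q` -/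
theorem good_zero (hF : F.IsHomogeneous (2 * m + 4)) (T : TLine F x) (h : T.q.IsRoot 0) :
    Good T (Polynomial.X * T.q) := by
  have h1 : (Polynomial.X : Polynomial Ω) ∣ T.q := by
    have := Polynomial.dvd_iff_isRoot.2 h
    rwa [Polynomial.C_0, sub_zero] at this
  refine ⟨mul_ne_zero Polynomial.X_ne_zero (gd_q_ne T), fun δ => ?_, ?_, fun s' hs' => ?_⟩
  · obtain ⟨Δ, hX, hC⟩ := exists_coef δ
    rw [← der_line F x T.v δ Δ hX hC, T.eq]
    exact dvd_der_zero Δ hX T.q T.r h1
  · rw [euler_line hF, T.eq]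
    refine dvd_sub ?_ ?_
    · refine Dvd.dvd.mul_left (Dvd.dvd.mul_right ?_ _) _
      rw [sq]
      exact mul_dvd_mul_right h1 _
    · exact mul_dvd_mul_left _ (dvd_der (gdDer Ω) T.q T.r)
  · rcases Polynomial.root_mul.1 hs' with h2 | h2
    · have h3 : s' = 0 := by simpa using h2
      rw [h3]
      exact h
    · exact h2

end Pool.Agent.DS
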