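import Pool.Agent.Lib_MP_1209e6_ds.IsolUp
import Pool.Agent.Lib_MP_1209e6_ds.Good

/-! PIECE ISOL: the tangent lines do not meet the singular points. -/

set_option autoImplicit false

open MvPolynomial

namespace Pool.Agent.DS

variable {Ω : Type} [Field Ω] [Algebra ℂ Ω] {m : ℕ} {F : MvPolynomial (Fin (m + 2)) ℂ}
  {x : Fin (m + 1) → Ω}

theorem is_sing_all (T : TLine F x) (s : Ω) (h : T.q.IsRoot s)
    (hz : ∀ j : Fin (m + 1), aeval (pt x T.v s) (pderiv (Fin.succ j) F) = 0) :
    ∀ j, aeval (pt x T.v s) (pderiv j F) = 0 := by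
  have h1 := congrArg (Polynomial.eval s) (deriv_line F x T.v)
  rw [Polynomial.eval_add, eval_line, eval_Phi, T.eq, Polynomial.derivative_mul,
    Polynomial.derivative_pow, Polynomial.eval_add, Polynomial.eval_mul, Polynomial.eval_mul,
    Polynomial.eval_mul, Polynomial.eval_mul, Polynomial.eval_pow, Polynomial.eval_pow, h.eq_zero] at h1
  have h2 : phi F x T.v s (fun j => (Polynomial.C (x j)).eval s) = 0 := by
    rw [phi]
    refine Finset.sum_eq_zero fun j _ => ?_
    rw [hz j, mul_zero]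
  rw [h2] at h1
  have h3 : aeval (pt x T.v s) (pderiv 0 F) = 0 := by
    simpa using h1.symm
  exact fun j => Fin.cases h3 (fun j => hz j) j

theorem is_pt_ne (T : TLine F x) (s : Ω) : pt x T.v s ≠ 0 := by
  intro h4
  have h5 : s = 0 := congrFun h4 0
  apply T.v_ne
  funext j
  have h6 := congrFun h4 (Fin.succ j)
  simp only [pt, Fin.cons_succ, h5, zero_mul, add_zero] at h6
  exact h6

/-- the derivations of a line through a complex point -/
theorem is_der (v : Fin (m + 1) → Ω) (s c : Ω) (a : Fin (m + 2) → ℂ) (hc : c ≠ 0)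
    (hp : ∀ i, pt x v s i = c * algebraMap ℂ Ω (a i)) (δ : Derivation ℂ Ω Ω) :
    ∃ κ, ∀ j, δ (v j) = κ * v j - s * δ (x j) := by
  have h1 : ∀ i, δ (pt x v s i) = δ c / c * pt x v s i := by
    intro i
    rw [hp i, Derivation.leibniz, Derivation.map_algebraMap, smul_zero, zero_add, smul_eq_mul]
    field_simp
  refine ⟨δ c / c, fun j => ?_⟩
  have h2 := h1 0
  have h3 := h1 (Fin.succ j)
  simp only [pt, Fin.cons_zero, Fin.cons_succ, map_add, Derivation.leibniz, smul_eq_mul] at h2 h3
  rw [h2] at h3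
  linear_combination h3

theorem is_phi_add (F : MvPolynomial (Fin (m + 2)) ℂ) (x v : Fin (m + 1) → Ω) (s c d : Ω)
    (y z : Fin (m + 1) → Ω) :
    phi F x v s (fun j => c * y j + d * z j) = c * phi F x v s y + d * phi F x v s z := by
  simp only [phi, add_mul, Finset.sum_add_distrib, Finset.mul_sum, mul_assoc]

theorem is_scale {A : Type} [CommRing A] [Algebra ℂ A] {n d : ℕ} {G : MvPolynomial (Fin n) ℂ}
    (hG : G.IsHomogeneous d) (s : A) (p : Fin n → A) :
    aeval (fun i => s * p i) G = s ^ d * aeval p G := by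
  rw [aeval_def, eval₂_eq', aeval_def, eval₂_eq', Finset.mul_sum]
  refine Finset.sum_congr rfl fun t ht => ?_
  have h2 : ∑ i, t i = d := by
    have h3 := hG (mem_support_iff.1 ht)
    rw [Finsupp.weight_apply, Finsupp.sum_fintype _ _ (by simp)] at h3
    simpa using h3
  rw [← h2, ← Finset.prod_pow_eq_pow_sum]
  simp only [mul_pow, Finset.prod_mul_distrib]
  ring

/-- the singular root is the only root -/
theorem is_root_eq (hF : F.IsHomogeneous (2 * m + 4)) (hs : Mild F)
    (δ : Fin (m + 1) → Derivation ℂ Ω Ω) (hδ : ∀ i j, δ i (x j) = if i = j then 1 else 0)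
    (T : TLine F x) (s : Ω) (h : T.q.IsRoot s)
    (hz : ∀ j : Fin (m + 1), aeval (pt x T.v s) (pderiv (Fin.succ j) F) = 0) (s' : Ω)
    (h' : T.q.IsRoot s') : s' = s := by
  by_contra hss
  have hG := good_q hF T
  have hv : phi F x T.v s' T.v = 0 := by
    obtain ⟨w, hw⟩ := hG.v
    have := congrArg (Polynomial.eval s') hw
    rw [eval_Phi, Polynomial.eval_mul, h'.eq_zero, zero_mul] at this
    simpa using this
  have hd : ∀ δ : Derivation ℂ Ω Ω,
      phi F x T.v s' (fun j => 1 * δ (T.v j) + s' * δ (x j)) = 0 := by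
    intro δ
    obtain ⟨w, hw⟩ := hG.der δ
    have := congrArg (Polynomial.eval s') hw
    rw [eval_Phi, Polynomial.eval_mul, h'.eq_zero, zero_mul] at this
    rw [← this]
    congr 1
    funext j
    simp only [Polynomial.eval_add, Polynomial.eval_mul, Polynomial.eval_C, Polynomial.eval_X, one_mul]
  obtain ⟨a, -, -, c, hc, hp⟩ := hs.up hF _ (is_sing_all T s h hz) (is_pt_ne T s)
  have h1 : ∀ δ : Derivation ℂ Ω Ω, phi F x T.v s' (fun j => δ (x j)) = 0 := by
    intro δ
    obtain ⟨κ, hκ⟩ := is_der T.v s c a hc hp δ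
    have h2 := hd δ
    rw [is_phi_add] at h2
    have h3 : (fun j => δ (T.v j)) = fun j => κ * T.v j + (-s) * δ (x j) := by
      funext j; rw [hκ j]; ring
    rw [h3, is_phi_add, hv] at h2
    have h4 : (s' - s) * phi F x T.v s' (fun j => δ (x j)) = 0 := by linear_combination h2
    exact (mul_eq_zero.1 h4).resolve_left (sub_ne_zero.2 hss)
  have hz' : ∀ j : Fin (m + 1), aeval (pt x T.v s') (pderiv (Fin.succ j) F) = 0 := by
    intro j
    have h2 := h1 (δ j)
    rw [phi, Finset.sum_eq_single j] at h2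
    · rwa [hδ, if_pos rfl, one_mul] at h2
    · intro i _ hij
      rw [hδ, if_neg (Ne.symm hij), zero_mul]
    · simp
  obtain ⟨a', -, -, c', hc', hp'⟩ := hs.up hF _ (is_sing_all T s' h' hz') (is_pt_ne T s')
  have h5 : ∀ δ : Derivation ℂ Ω Ω, ∃ μ, ∀ j, (s' - s) * δ (x j) = μ * T.v j := by
    intro δ
    obtain ⟨κ, hκ⟩ := is_der T.v s c a hc hp δ
    obtain ⟨κ', hκ'⟩ := is_der T.v s' c' a' hc' hp' δ
    refine ⟨κ' - κ, fun j => ?_⟩
    have := (hκ j).symm.trans (hκ' j)
    linear_combination this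
  have hm : 0 < m := by
    rw [← T.q_deg, Polynomial.natDegree_pos_iff_degree_pos]
    exact Polynomial.degree_pos_of_root T.q_monic.ne_zero h
  have h6 : ∀ i j : Fin (m + 1), i ≠ j → T.v j = 0 := by
    intro i j hij
    obtain ⟨μ, hμ⟩ := h5 (δ i)
    have h7 := hμ i
    have h8 := hμ j
    rw [hδ, if_pos rfl] at h7
    rw [hδ, if_neg hij] at h8
    have hμ0 : μ ≠ 0 := by
      rintro rfl
      rw [zero_mul, mul_one] at h7
      exact hss (sub_eq_zero.1 h7)
    rw [mul_zero] at h8
    exact (mul_eq_zero.1 h8.symm).resolve_left hμ0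
  refine T.v_ne (funext fun j => ?_)
  by_cases hj : j = 0
  · refine h6 (Fin.last m) j (by rw [hj]; intro h0; have := congrArg Fin.val h0; simp at this; omega)
  · exact h6 0 j (Ne.symm hj)

/-- As in `exists_partial_ne`, otherwise `p = pt x v s ≠ 0` is singular, `p = c a` (`Mild.up`). Any other
multiple root `s'` of `g = F (lp x v)` gives `p' = p + (s' - s) (1, x)` with `∇F(p') p' = 0`, `∇F(p') (1,x) = 0`,
so `∇F(p') a = 0`, and a derivation `δ` of `g(s') = 0` gives `(s' - s) ∇F(p') δ(1,x) = 0`: `p'` is singular,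
`p' = c' a'`, `(1, x) = (p' - p) / (s' - s)` contradicts `not_span`. So `s` is the only root of `q`, `q = (X - s)^m`,
`(X - s)^(2m) ∣ F (c a + (X - s) (1, x)) = c^d F (a + (X - s)/c (1, x))`: `mult_generic`, `Mild.mult`. -/
theorem exists_partial_ne_mild [IsAlgClosed Ω] (hF : F.IsHomogeneous (2 * m + 4)) (hs : Mild F)
    (hx : Generic x)
    (δ : Fin (m + 1) → Derivation ℂ Ω Ω) (hδ : ∀ i j, δ i (x j) = if i = j then 1 else 0)
    (T : TLine F x) (s : Ω) (h : T.q.IsRoot s) :
    ∃ j : Fin (m + 1), aeval (pt x T.v s) (pderiv (Fin.succ j) F) ≠ 0 := by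
  by_contra hz
  push Not at hz
  have hroot := is_root_eq hF hs δ hδ T s h hz
  obtain ⟨a, ha, hsing, c, hc, hp⟩ := hs.up hF _ (is_sing_all T s h hz) (is_pt_ne T s)
  have hq : T.q = (Polynomial.X - Polynomial.C s) ^ m := by
    have hsp := IsAlgClosed.splits T.q
    have h1 : T.q.roots = Multiset.replicate m s := by
      rw [Multiset.eq_replicate]
      refine ⟨?_, fun b hb => hroot b (Polynomial.isRoot_of_mem_roots hb)⟩
      exact hsp.natDegree_eq_card_roots.symm.trans T.q_deg
    have h2 := hsp.eq_prod_roots_of_monic T.q_monic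
    rw [h1, Multiset.map_replicate, Multiset.prod_replicate] at h2
    exact h2
  obtain ⟨y, hy⟩ := hs.mult a ha hsing
  refine hy (mult_generic hx.ind F a (2 * m) ?_ y)
  -- the substitution `X ↦ c X + s`
  let φ : Polynomial Ω →ₐ[ℂ] Polynomial Ω :=
    (Polynomial.aeval (R := Ω) (Polynomial.C c * Polynomial.X + Polynomial.C s)).restrictScalars ℂ
  have hφX : φ Polynomial.X = Polynomial.C c * Polynomial.X + Polynomial.C s :=
    Polynomial.aeval_X _
  have hφC : ∀ b, φ (Polynomial.C b) = Polynomial.C b := fun b => Polynomial.aeval_C _ b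
  have h1 : φ (aeval (lp x T.v) F) = Polynomial.C c ^ (2 * m + 4) *
      aeval (fun i => Polynomial.C (algebraMap ℂ Ω (a i)) +
        Polynomial.X * Polynomial.C ((Fin.cons 1 x : Fin (m + 2) → Ω) i)) F := by
    rw [← is_scale hF, ← AlgHom.comp_apply, comp_aeval]
    congr 2
    funext i
    have hpi := hp i
    refine Fin.cases ?_ (fun j => ?_) i
    · have h0 := hp 0
      simp only [pt, Fin.cons_zero] at h0
      simp only [lp, Fin.cons_zero, hφX, Polynomial.C_1, mul_one, mul_add]
      rw [← Polynomial.C_mul, ← h0]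
      ring
    · have h0 := hp (Fin.succ j)
      simp only [pt, Fin.cons_succ] at h0
      simp only [lp, Fin.cons_succ, map_add, map_mul, hφX, hφC, mul_add]
      rw [← Polynomial.C_mul, ← h0, Polynomial.C_add, Polynomial.C_mul]
      ring
  have h2 : φ ((Polynomial.X - Polynomial.C s) ^ m) = (Polynomial.C c * Polynomial.X) ^ m := by
    rw [map_pow, map_sub, hφX, hφC]
    ring
  have h3 : (Polynomial.X : Polynomial Ω) ^ (2 * m) ∣ Polynomial.C c ^ (2 * m + 4) *
      aeval (fun i => Polynomial.C (algebraMap ℂ Ω (a i)) +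
        Polynomial.X * Polynomial.C ((Fin.cons 1 x : Fin (m + 2) → Ω) i)) F := by
    rw [← h1, T.eq, map_mul, map_pow, hq, h2]
    refine ⟨Polynomial.C c ^ (2 * m) * φ T.r, ?_⟩
    ring
  have hu : IsUnit ((Polynomial.C c : Polynomial Ω) ^ (2 * m + 4)) :=
    (Polynomial.isUnit_C.2 (Ne.isUnit hc)).pow _
  exact (hu.dvd_mul_left).1 h3

end Pool.Agent.DS
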