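import Pool.Agent.Lib_MP_1209e6_ds.Defs

/-! PIECE COEF: derivations of `Ω[X]` and the chain rule on the line. -/

set_option autoImplicit false

open MvPolynomial

namespace Pool.Agent.DS

variable {Ω : Type} [Field Ω] [Algebra ℂ Ω] {m : ℕ}

/-- a derivation acts on the coefficients of polynomials -/
theorem exists_coef (δ : Derivation ℂ Ω Ω) : ∃ Δ : Derivation ℂ (Polynomial Ω) (Polynomial Ω),
    Δ Polynomial.X = 0 ∧ ∀ a, Δ (Polynomial.C a) = Polynomial.C (δ a) := by
  refine ⟨PolynomialModule.equivPolynomialSelf.toLinearMap.compDer δ.mapCoeffs, ?_, fun a => ?_⟩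
  · simp
  · simp

/-- chain rule (`Derivation` and `aeval` of a multivariate polynomial over `ℂ`), any ring -/
theorem chain {R : Type} [CommRing R] [Algebra ℂ R] (Δ : Derivation ℂ R R) {n : ℕ} (p : Fin n → R)
    (G : MvPolynomial (Fin n) ℂ) : Δ (aeval p G) = ∑ j, Δ (p j) * aeval p (pderiv j G) := by
  classical
  induction G using MvPolynomial.induction_on with
  | C a => simp
  | add p q hp hq => simp only [map_add, hp, hq, mul_add, Finset.sum_add_distrib]
  | mul_X g i ih =>
    have h : ∀ l, Δ (p l) * aeval p (pderiv l (g * X i)) =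
        Δ (p l) * aeval p (pderiv l g) * p i +
          aeval p g * (if i = l then Δ (p l) else 0) := by
      intro l
      rw [pderiv_mul, pderiv_X, map_add, map_mul, map_mul, aeval_X, Pi.single_apply]
      by_cases hl : i = l
      · rw [if_pos hl, if_pos hl, map_one]; ring
      · rw [if_neg hl, if_neg hl, map_zero]; ring
    simp only [h, Finset.sum_add_distrib, ← Finset.sum_mul, ← Finset.mul_sum,
      Finset.sum_ite_eq, Finset.mem_univ, if_true]
    rw [map_mul, aeval_X, Derivation.leibniz, smul_eq_mul, smul_eq_mul, ih]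
    ring

theorem der_line (F : MvPolynomial (Fin (m + 2)) ℂ) (x v : Fin (m + 1) → Ω) (δ : Derivation ℂ Ω Ω)
    (Δ : Derivation ℂ (Polynomial Ω) (Polynomial Ω)) (hX : Δ Polynomial.X = 0)
    (hC : ∀ a, Δ (Polynomial.C a) = Polynomial.C (δ a)) :
    Δ (aeval (lp x v) F) = Phi F x v fun j =>
      Polynomial.C (δ (v j)) + Polynomial.X * Polynomial.C (δ (x j)) := by
  rw [chain, Fin.sum_univ_succ, Phi]
  simp only [lp, Fin.cons_zero, Fin.cons_succ, hX, zero_mul, zero_add, map_add,
    Derivation.leibniz, hC, smul_eq_mul, mul_zero, add_zero]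

theorem deriv_line (F : MvPolynomial (Fin (m + 2)) ℂ) (x v : Fin (m + 1) → Ω) :
    Polynomial.derivative (aeval (lp x v) F) =
      aeval (lp x v) (pderiv 0 F) + Phi F x v fun j => Polynomial.C (x j) := by
  have h := chain ((Polynomial.derivative' (R := Ω)).restrictScalars ℂ) (lp x v) F
  have h2 : ∀ p : Polynomial Ω, ((Polynomial.derivative' (R := Ω)).restrictScalars ℂ) p =
      Polynomial.derivative p := fun p => rfl
  simp only [h2] at h
  rw [h, Fin.sum_univ_succ, Phi]
  simp [lp]

/-- Euler's identity (`MvPolynomial.IsHomogeneous` has it as `sum_X_mul_pderiv` or similar) minus `X` times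
`deriv_line` -/
theorem euler_line {F : MvPolynomial (Fin (m + 2)) ℂ} {d : ℕ} (hF : F.IsHomogeneous d)
    (x v : Fin (m + 1) → Ω) : (Phi F x v fun j => Polynomial.C (v j)) =
      (d : Polynomial Ω) * aeval (lp x v) F - Polynomial.X * Polynomial.derivative (aeval (lp x v) F) := by
  have h1 := congrArg (aeval (lp x v)) hF.sum_X_mul_pderiv
  rw [map_sum, Fin.sum_univ_succ, map_nsmul, nsmul_eq_mul] at h1
  rw [← h1, deriv_line, Phi, Phi]
  simp only [map_mul, aeval_X, mul_add, Finset.mul_sum]
  have h2 : ∀ j : Fin (m + 1), lp x v j.succ = Polynomial.C (v j) + Polynomial.X *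
      Polynomial.C (x j) := fun j => by simp [lp]
  have h3 : lp x v 0 = Polynomial.X := by simp [lp]
  rw [h3]
  simp only [h2, add_mul, Finset.sum_add_distrib]
  have h4 : ∀ j : Fin (m + 1), Polynomial.X * (Polynomial.C (x j) *
      aeval (lp x v) (pderiv j.succ F)) = Polynomial.X * Polynomial.C (x j) *
      aeval (lp x v) (pderiv j.succ F) := fun j => (mul_assoc _ _ _).symm
  simp only [h4]
  ring

theorem eval_line (G : MvPolynomial (Fin (m + 2)) ℂ) (x v : Fin (m + 1) → Ω) (s : Ω) :
    (aeval (lp x v) G).eval s = aeval (pt x v s) G := by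
  have h := (MvPolynomial.comp_aeval (R := ℂ) (lp x v)
    ((Polynomial.aeval s : Polynomial Ω →ₐ[Ω] Ω).restrictScalars ℂ))
  have h2 := congrArg (fun φ => φ G) h
  simp only [AlgHom.comp_apply, AlgHom.coe_restrictScalars', Polynomial.coe_aeval_eq_eval] at h2
  rw [h2]
  congr 2
  funext l
  refine Fin.cases ?_ (fun j => ?_) l
  · simp [lp, pt]
  · simp [lp, pt, mul_comm s (x j)]

/-- evaluation at `s` -/
theorem eval_Phi (F : MvPolynomial (Fin (m + 2)) ℂ) (x v : Fin (m + 1) → Ω)
    (y : Fin (m + 1) → Polynomial Ω) (s : Ω) :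
    (Phi F x v y).eval s = phi F x v s fun j => (y j).eval s := by
  rw [Phi, phi, Polynomial.eval_finsetSum]
  refine Finset.sum_congr rfl fun j _ => ?_
  rw [Polynomial.eval_mul, eval_line]

end Pool.Agent.DS
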