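import Pool.Agent.Lib_MP_1209e6_ds.Defs

/-! PIECE SMOOTHUP: smoothness over `Ω`. -/

set_option autoImplicit false

open MvPolynomial

namespace Pool.Agent.DS

variable {Ω : Type} [Field Ω] [Algebra ℂ Ω]

/-- By the Nullstellensatz `X j ^ N = ∑ i, G i * pderiv i F`; evaluate at `p`. -/
theorem Smooth.up {n : ℕ} {F : MvPolynomial (Fin (n + 1)) ℂ} (hs : Smooth F) (p : Fin (n + 1) → Ω)
    (h : ∀ j, aeval p (pderiv j F) = 0) : p = 0 := by
  funext k
  rw [Pi.zero_apply]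
  let I : Ideal (MvPolynomial (Fin (n + 1)) ℂ) := Ideal.span (Set.range fun j => pderiv j F)
  have h1 : (X k : MvPolynomial (Fin (n + 1)) ℂ) ∈ vanishingIdeal ℂ (zeroLocus ℂ I) := by
    rw [mem_vanishingIdeal_iff]
    intro z hz
    have hz0 : z = 0 := hs z fun j =>
      (mem_zeroLocus_iff.1 hz) _ (Ideal.subset_span ⟨j, rfl⟩)
    rw [hz0, aeval_X, Pi.zero_apply]
  rw [vanishingIdeal_zeroLocus_eq_radical] at h1
  obtain ⟨N, hN⟩ := h1
  have h2 : I ≤ RingHom.ker (aeval p : MvPolynomial (Fin (n + 1)) ℂ →ₐ[ℂ] Ω) := by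
    refine Ideal.span_le.2 ?_
    rintro _ ⟨j, rfl⟩
    exact h j
  have h3 : aeval p (X k ^ N : MvPolynomial (Fin (n + 1)) ℂ) = 0 := h2 hN
  rw [map_pow, aeval_X] at h3
  exact eq_zero_of_pow_eq_zero h3

end Pool.Agent.DS
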