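import Mathlib

/-!
# Smooth double covers of projective space: definitions

`MP_1209e6_ag`: the lines which are tangent to the branch hypersurface at `n - 1` points give a covering
family of curves of genus at most one on the double cover of `ℙⁿ` branched along a smooth hypersurface of
degree `2n + 2`. Here `n = m + 1`; the field `Ω` is an algebraic closure of `ℂ(x)`, `x` the generic point.
-/

set_option autoImplicit false

open MvPolynomial

namespace Pool.Agent.DS

/-- the hypersurface `F = 0` is smooth: the partial derivatives of `F` have no common zero but `0` -/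
def Smooth {n : ℕ} (F : MvPolynomial (Fin (n + 1)) ℂ) : Prop :=
  ∀ p : Fin (n + 1) → ℂ, (∀ j, aeval p (pderiv j F) = 0) → p = 0

section lines

variable {Ω : Type} [Field Ω] [Algebra ℂ Ω] {m : ℕ}

/-- the point `(0, v) + s (1, x)` of the line through `x` with direction `v` -/
def pt (x v : Fin (m + 1) → Ω) (s : Ω) : Fin (m + 2) → Ω := Fin.cons s fun j => v j + s * x j

/-- the generic point `(0, v) + X (1, x)` of the line through `x` with direction `v` -/
noncomputable def lp (x v : Fin (m + 1) → Ω) : Fin (m + 2) → Polynomial Ω :=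
  Fin.cons Polynomial.X fun j => Polynomial.C (v j) + Polynomial.X * Polynomial.C (x j)

/-- the differential of `F` on the line, for vectors with first coordinate `0` -/
noncomputable def Phi (F : MvPolynomial (Fin (m + 2)) ℂ) (x v : Fin (m + 1) → Ω)
    (y : Fin (m + 1) → Polynomial Ω) : Polynomial Ω :=
  ∑ j, y j * aeval (lp x v) (pderiv (Fin.succ j) F)

/-- the differential of `F` at the point `pt x v s`, for vectors with first coordinate `0` -/
noncomputable def phi (F : MvPolynomial (Fin (m + 2)) ℂ) (x v : Fin (m + 1) → Ω) (s : Ω)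
    (y : Fin (m + 1) → Ω) : Ω :=
  ∑ j, y j * aeval (pt x v s) (pderiv (Fin.succ j) F)

/-- `x` is a transcendence basis of `Ω` -/
structure Generic (x : Fin (m + 1) → Ω) : Prop where
  ind : AlgebraicIndependent ℂ x
  alg : ∀ a : Ω, IsAlgebraic (IntermediateField.adjoin ℂ (Set.range x)) a

/-- a line through `x` on which `F` is `q ^ 2 * r`, `deg q = m`, `deg r ≤ 4` -/
structure TLine (F : MvPolynomial (Fin (m + 2)) ℂ) (x : Fin (m + 1) → Ω) where
  v : Fin (m + 1) → Ω
  q : Polynomial Ω
  r : Polynomial Ω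
  v_ne : v ≠ 0
  q_monic : q.Monic
  q_deg : q.natDegree = m
  r_deg : r.natDegree ≤ 4
  eq : aeval (lp x v) F = q ^ 2 * r

/-- the polynomials `G` for which the differential of `F` on the line is a module map to `Ω[X] / G` -/
structure Good {F : MvPolynomial (Fin (m + 2)) ℂ} {x : Fin (m + 1) → Ω} (T : TLine F x)
    (G : Polynomial Ω) : Prop where
  ne : G ≠ 0
  der : ∀ δ : Derivation ℂ Ω Ω, G ∣ Phi F x T.v fun j =>
    Polynomial.C (δ (T.v j)) + Polynomial.X * Polynomial.C (δ (x j))
  v : G ∣ Phi F x T.v fun j => Polynomial.C (T.v j)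
  root : ∀ s, G.IsRoot s → T.q.IsRoot s

/-- the nondegeneracy of the line (all proved in `Simple.lean`) -/
structure Nice {F : MvPolynomial (Fin (m + 2)) ℂ} {x : Fin (m + 1) → Ω} (T : TLine F x) : Prop where
  ne_zero : ∀ s, T.q.IsRoot s → s ≠ 0
  simple : ∀ s, ¬ (Polynomial.X - Polynomial.C s) ^ 2 ∣ T.q
  ker : ∀ y : Fin (m + 1) → Ω, (∀ s, T.q.IsRoot s → phi F x T.v s y = 0) → ∃ c, ∀ j, y j = c * T.v j
  dual : ∀ s, T.q.IsRoot s → ∃ y : Fin (m + 1) → Ω, phi F x T.v s y = 1 ∧
    ∀ s', T.q.IsRoot s' → s' ≠ s → phi F x T.v s' y = 0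
  span : ∀ W : Submodule Ω (Fin (m + 1) → Ω), T.v ∈ W →
    (∀ s, T.q.IsRoot s → ∀ y, (∀ s', T.q.IsRoot s' → s' ≠ s → phi F x T.v s' y = 0) → y ∈ W) → W = ⊤
  phi_v : ∀ s, T.q.IsRoot s → phi F x T.v s T.v = 0
  phi_der : ∀ (δ : Derivation ℂ Ω Ω) (s), T.q.IsRoot s →
    phi F x T.v s (fun j => δ (T.v j)) = - s * phi F x T.v s (fun j => δ (x j))

end lines

/-- `K = ℂ(z, w)` is the function field of the double cover `w² = F(1, z)` of `ℙⁿ` -/
def IsDouble {m : ℕ} (K : Type) [Field K] [Algebra ℂ K] (F : MvPolynomial (Fin (m + 2)) ℂ) : Prop :=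
  ∃ (z : Fin (m + 1) → K) (w : K), AlgebraicIndependent ℂ z ∧ w ^ 2 = aeval (Fin.cons 1 z) F ∧
    IntermediateField.adjoin ℂ (Set.range z ∪ {w}) = ⊤

end Pool.Agent.DS
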