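import Pool.Agent.Lib_MP_1209e6_ds.Coef

/-! PIECE DIV: which polynomials divide the differential of `F` on the line. -/

set_option autoImplicit false

open MvPolynomial

namespace Pool.Agent.DS

section ring

variable {Ω : Type} [Field Ω] [Algebra ℂ Ω]

theorem div_leibniz (Δ : Derivation ℂ (Polynomial Ω) (Polynomial Ω)) (q r : Polynomial Ω) :
    Δ (q ^ 2 * r) = q * (2 * r * Δ q + q * Δ r) := by
  have h1 : Δ (q ^ 2) = 2 * q * Δ q := by
    rw [pow_two, Derivation.leibniz]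
    simp only [smul_eq_mul]
    ring
  rw [Derivation.leibniz, h1]
  simp only [smul_eq_mul]
  ring

theorem dvd_der (Δ : Derivation ℂ (Polynomial Ω) (Polynomial Ω)) (q r : Polynomial Ω) :
    q ∣ Δ (q ^ 2 * r) := by
  rw [div_leibniz]
  exact Dvd.intro _ rfl

/-- `Δ (q² r) = q (2 r Δ q + q Δ r)` and `(X - s)` divides `q` and `Δ q` -/
theorem dvd_der_double (Δ : Derivation ℂ (Polynomial Ω) (Polynomial Ω)) (q r : Polynomial Ω) (s : Ω)
    (h : (Polynomial.X - Polynomial.C s) ^ 2 ∣ q) :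
    (Polynomial.X - Polynomial.C s) * q ∣ Δ (q ^ 2 * r) := by
  have h1 : (Polynomial.X - Polynomial.C s) ∣ q := (dvd_pow_self _ two_ne_zero).trans h
  have h2 : (Polynomial.X - Polynomial.C s) ∣ Δ q := by
    obtain ⟨q1, hq1⟩ := h
    rw [hq1, div_leibniz]
    exact Dvd.intro _ rfl
  rw [div_leibniz, mul_comm]
  exact mul_dvd_mul_left q (dvd_add (Dvd.dvd.mul_left h2 _) (Dvd.dvd.mul_right h1 _))

/-- `q = X q₁`, `Δ q = X Δ q₁` -/
theorem dvd_der_zero (Δ : Derivation ℂ (Polynomial Ω) (Polynomial Ω)) (hX : Δ Polynomial.X = 0)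
    (q r : Polynomial Ω) (h : Polynomial.X ∣ q) : Polynomial.X * q ∣ Δ (q ^ 2 * r) := by
  have h2 : Polynomial.X ∣ Δ q := by
    obtain ⟨q1, hq1⟩ := h
    rw [hq1, Derivation.leibniz, hX, smul_zero, add_zero, smul_eq_mul]
    exact Dvd.intro _ rfl
  rw [div_leibniz, mul_comm]
  exact mul_dvd_mul_left q (dvd_add (Dvd.dvd.mul_left h2 _) (Dvd.dvd.mul_right h _))

end ring

end Pool.Agent.DS
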