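import Pool.Agent.Lib_MP_1209e6_ds.Defs

/-! PIECE FLOW: the direction is constant along the line. -/

set_option autoImplicit false

open MvPolynomial

namespace Pool.Agent.DS

variable {Ω : Type} [Field Ω] [Algebra ℂ Ω] {m : ℕ} {F : MvPolynomial (Fin (m + 2)) ℂ}
  {x : Fin (m + 1) → Ω}

theorem phi_add (F : MvPolynomial (Fin (m + 2)) ℂ) (x v : Fin (m + 1) → Ω) (s : Ω)
    (y z : Fin (m + 1) → Ω) :
    phi F x v s (fun j => y j + z j) = phi F x v s y + phi F x v s z := by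
  simp only [phi, add_mul, Finset.sum_add_distrib]

theorem phi_mul (F : MvPolynomial (Fin (m + 2)) ℂ) (x v : Fin (m + 1) → Ω) (s c : Ω)
    (y : Fin (m + 1) → Ω) :
    phi F x v s (fun j => c * y j) = c * phi F x v s y := by
  simp only [phi, Finset.mul_sum, mul_assoc]

/-- `phi s (D v) = - s phi s (D x) = - s phi s v = 0` at all roots -/
theorem dir_const (T : TLine F x) (hT : Nice T) (D : Derivation ℂ Ω Ω) (hD : ∀ j, D (x j) = T.v j) :
    ∃ κ, ∀ j, D (T.v j) = κ * T.v j := by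
  refine hT.ker (fun j => D (T.v j)) fun s hs => ?_
  have h1 : (fun j => D (x j)) = T.v := funext hD
  rw [hT.phi_der D s hs, h1, hT.phi_v s hs, mul_zero]

/-- if `φ_{s'} (δ x) = 0` at all roots `s' ≠ s`, then `δ v = c v - s δ x`:
`φ_{s'} (δ v + s δ x) = (s - s') φ_{s'} (δ x)` -/
theorem dir_root (T : TLine F x) (hT : Nice T) (δ : Derivation ℂ Ω Ω) (s : Ω) (_hs : T.q.IsRoot s)
    (h : ∀ s', T.q.IsRoot s' → s' ≠ s → phi F x T.v s' (fun j => δ (x j)) = 0) :
    ∃ c, ∀ j, δ (T.v j) = c * T.v j - s * δ (x j) := by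
  obtain ⟨c, hc⟩ := hT.ker (fun j => δ (T.v j) + s * δ (x j)) fun s' hs' => by
    rw [phi_add, phi_mul, hT.phi_der δ s' hs']
    by_cases hss : s' = s
    · rw [hss]; ring
    · rw [h s' hs' hss]; ring
  exact ⟨c, fun j => by rw [← hc j]; ring⟩

end Pool.Agent.DS
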