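import Pool.Agent.Lib_MP_1209e6_ds.Coef
import Pool.Agent.Lib_MP_1209e6_ds.Flow
import Pool.Agent.Lib_MP_1209e6_dp.DerAlg
import Pool.Agent.Lib_MP_1209e6_ds.Coef

/-! PIECE FAMILY: the double covers of the tangent lines. -/

set_option autoImplicit false

open MvPolynomial

namespace Pool.Agent.DS

/-- the family of curves `y² = R(t)` over the field `k` of constants of `D`, with `w = g y` for every square
root `w` of `F (1, x)` -/
structure Fam {Ω : Type} [Field Ω] [Algebra ℂ Ω] {m : ℕ} (F : MvPolynomial (Fin (m + 2)) ℂ)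
    (x : Fin (m + 1) → Ω) (D : Derivation ℂ Ω Ω) where
  S : Finset Ω
  t : Ω
  y : Ω
  R : Polynomial Ω
  S_const : ∀ a ∈ S, D a = 0
  Dt : D t ≠ 0
  R_coeff : ∀ n, R.coeff n ∈ IntermediateField.adjoin ℂ (S : Set Ω)
  R_deg : R.natDegree ≤ 4
  y_sq : y ^ 2 = R.eval t
  x_mem : ∀ j, x j ∈ IntermediateField.adjoin ℂ (S ∪ {t} : Set Ω)
  w_mem : ∀ w : Ω, w ^ 2 = aeval (Fin.cons 1 x : Fin (m + 2) → Ω) F →
    ∃ g ∈ IntermediateField.adjoin ℂ (S ∪ {t} : Set Ω), w = g * y

/-- the coefficients of a polynomial killed by the coefficient derivation are constant -/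
theorem coeff_const {Ω : Type} [Field Ω] [Algebra ℂ Ω] (D : Derivation ℂ Ω Ω)
    (Δ : Derivation ℂ (Polynomial Ω) (Polynomial Ω)) (hX : Δ Polynomial.X = 0)
    (hC : ∀ a, Δ (Polynomial.C a) = Polynomial.C (D a)) (A : Polynomial Ω) (hA : Δ A = 0) (n : ℕ) :
    D (A.coeff n) = 0 := by
  have h1 : ∀ B : Polynomial Ω, (Δ B).coeff n = D (B.coeff n) := by
    intro B
    induction B using Polynomial.induction_on' with
    | add p q hp hq => rw [map_add, Polynomial.coeff_add, Polynomial.coeff_add, map_add, hp, hq]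
    | monomial k a =>
      rw [← Polynomial.C_mul_X_pow_eq_monomial, Δ.leibniz, hC, Δ.leibniz_pow, hX, smul_zero, smul_zero,
        smul_zero, zero_add, smul_eq_mul, mul_comm, Polynomial.coeff_C_mul, Polynomial.coeff_C_mul,
        Polynomial.coeff_X_pow]
      split_ifs
      · rw [mul_one, mul_one]
      · rw [mul_zero, mul_zero, map_zero]
  rw [← h1, hA, Polynomial.coeff_zero]

/-- values of homogeneous polynomials at multiples of a point -/
theorem aeval_mul_point {R : Type} [CommRing R] [Algebra ℂ R] {n d : ℕ} {F : MvPolynomial (Fin n) ℂ}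
    (hF : F.IsHomogeneous d) (s : R) (p : Fin n → R) :
    aeval (fun l => s * p l) F = s ^ d * aeval p F := by
  rw [aeval_def, aeval_def, eval₂_eq', eval₂_eq', Finset.mul_sum]
  refine Finset.sum_congr rfl fun e he => ?_
  have h1 : ∑ l, e l = d := by
    have h2 := hF (mem_support_iff.1 he)
    rw [← h2, Finsupp.weight_apply, Finsupp.sum_fintype _ _ (fun _ => by simp)]
    simp
  have h3 : ∏ l, (s * p l) ^ e l = s ^ d * ∏ l, p l ^ e l := by
    simp only [mul_pow]
    rw [Finset.prod_mul_distrib, Finset.prod_pow_eq_pow_sum, h1]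
  rw [h3]
  ring

/-- monic divisors of a polynomial with constant coefficients have constant coefficients -/
theorem coeff_const_of_dvd {Ω : Type} [Field Ω] [Algebra ℂ Ω] [IsAlgClosed Ω] (D : Derivation ℂ Ω Ω)
    (Δ : Derivation ℂ (Polynomial Ω) (Polynomial Ω)) (hX : Δ Polynomial.X = 0)
    (hC : ∀ a, Δ (Polynomial.C a) = Polynomial.C (D a)) (G P : Polynomial Ω) (hG0 : G ≠ 0)
    (hG : Δ G = 0) (hP : P.Monic) (hPG : P ∣ G) : Δ P = 0 := by
  classical
  let k : IntermediateField ℂ Ω := IntermediateField.adjoin ℂ {a | D a = 0}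
  have hk : ∀ a ∈ k, D a = 0 := by
    intro a ha
    induction ha using IntermediateField.adjoin_induction with
    | mem x hx => exact hx
    | algebraMap r => exact D.map_algebraMap r
    | add x y _ _ hx hy => rw [map_add, hx, hy, add_zero]
    | inv x _ hx => rw [Derivation.leibniz_inv, hx, smul_zero]
    | mul x y _ _ hx hy => rw [Derivation.leibniz, hx, hy, smul_zero, smul_zero, add_zero]
  have hroot : ∀ θ, G.IsRoot θ → D θ = 0 := by
    intro θ hθ
    refine Pool.Agent.DP.der_alg k D hk ?_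
    have hmem : G ∈ Polynomial.lifts (algebraMap k Ω) := by
      rw [Polynomial.lifts_iff_coeff_lifts]
      intro n
      exact ⟨⟨G.coeff n, IntermediateField.subset_adjoin ℂ _ (coeff_const D Δ hX hC G hG n)⟩, rfl⟩
    obtain ⟨g, hg⟩ := (Polynomial.mem_lifts _).1 hmem
    refine ⟨g, ?_, ?_⟩
    · rintro rfl
      rw [Polynomial.map_zero] at hg
      exact hG0 hg.symm
    · rw [← Polynomial.eval_map_algebraMap, hg]
      exact hθ
  have hsplit : P = (P.roots.map fun a => Polynomial.X - Polynomial.C a).prod :=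
    (IsAlgClosed.splits P).eq_prod_roots_of_monic hP
  have hprod : ∀ s : Multiset Ω, (∀ a ∈ s, D a = 0) →
      Δ (s.map fun a => Polynomial.X - Polynomial.C a).prod = 0 := by
    intro s
    induction s using Multiset.induction_on with
    | empty => intro _; simp
    | cons a s ih =>
      intro h
      rw [Multiset.map_cons, Multiset.prod_cons, Δ.leibniz, ih fun b hb => h b (Multiset.mem_cons_of_mem hb),
        map_sub, hX, hC, h a (Multiset.mem_cons_self a s)]
      simp
  rw [hsplit]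
  refine hprod _ fun a ha => hroot a ?_
  have h1 := (Polynomial.mem_roots hP.ne_zero).1 ha
  exact h1.dvd hPG

/-- Choose `i` with `v_i ≠ 0`, `v' = v / v_i`, `t = x_i`, `c = x - t v'` (`c_i = 0`): `D v' = 0`, `D c = 0`,
`D t = v_i`. `G(T) = F (1, c + T v')` has coefficients in `ℂ(c, v')`, `G ≠ 0` (`G (t) = F (1, x) ≠ 0`), degree
`≤ 2m + 4`. From `F ((0,v) + T (1,x)) = q² r` and homogeneity: `G (t + v_i / s) = 0` doubly for the `m` roots
`s ≠ 0` of `q`: `Q = ∏ (X - (t + v_i / s))`, `Q² ∣ G` (the coefficient identity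
`T^(2m+4) G (t + v_i / T) = q(T)² r(T)`; or: at `θ = t + v_i / s` both `G` and `G'` vanish because
`F (1, p) = 0` and `∑ F_j (1, p) v_j = 0`, `Nice.phi_v`, `p = x + v / s`), `R = G / Q²`, degree `≤ 4`. The roots
`θ` are algebraic over `ℂ(c, v')` so `D θ = 0`, so the coefficients of `Q` and `R` are killed by `D`; `S` = all
`c_j`, `v'_j`, coefficients of `Q`, `R`. `y` = a square root of `R(t)`, `w² = Q(t)² y²`. -/
theorem exists_fam {Ω : Type} [Field Ω] [Algebra ℂ Ω] [IsAlgClosed Ω] {m : ℕ}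
    {F : MvPolynomial (Fin (m + 2)) ℂ} (hF : F.IsHomogeneous (2 * m + 4)) {x : Fin (m + 1) → Ω}
    (h0 : aeval (Fin.cons 1 x : Fin (m + 2) → Ω) F ≠ 0) (T : TLine F x) (hT : Nice T)
    (D : Derivation ℂ Ω Ω) (hD : ∀ j, D (x j) = T.v j) : Nonempty (Fam F x D) := by
  classical
  have hchar : CharZero Ω := charZero_of_injective_algebraMap (algebraMap ℂ Ω).injective
  obtain ⟨κ, hκ⟩ := dir_const T hT D hD
  obtain ⟨i, hi⟩ : ∃ i, T.v i ≠ 0 := by
    by_contra h
    push Not at h
    exact T.v_ne (funext h)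
  set t : Ω := x i with ht
  set v' : Fin (m + 1) → Ω := fun j => T.v j / T.v i with hv'
  set c : Fin (m + 1) → Ω := fun j => x j - t * v' j with hc
  have hDv' : ∀ j, D (v' j) = 0 := by
    intro j
    show D (T.v j / T.v i) = 0
    rw [div_eq_mul_inv, D.leibniz, Derivation.leibniz_inv, hκ, hκ, smul_eq_mul, smul_eq_mul, smul_eq_mul]
    field_simp
    ring
  have hDt : D t = T.v i := hD i
  have hDc : ∀ j, D (c j) = 0 := by
    intro j
    show D (x j - t * v' j) = 0
    rw [map_sub, D.leibniz, hDv', hDt, hD, smul_zero, zero_add, smul_eq_mul]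
    show T.v j - T.v j / T.v i * T.v i = 0
    rw [div_mul_cancel₀ _ hi, sub_self]
  obtain ⟨Δ, hX, hC⟩ := exists_coef D
  -- the restriction of `F` to the line, in the coordinate `t`
  set P : Fin (m + 2) → Polynomial Ω :=
    Fin.cons 1 fun j => Polynomial.C (c j) + Polynomial.X * Polynomial.C (v' j) with hP
  set G : Polynomial Ω := aeval P F with hG
  have hΔG : Δ G = 0 := by
    rw [hG, chain]
    refine Finset.sum_eq_zero fun j _ => ?_
    have : Δ (P j) = 0 := by
      refine Fin.cases ?_ (fun j => ?_) j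
      · rw [hP, Fin.cons_zero]; exact Δ.map_one_eq_zero
      · rw [hP, Fin.cons_succ, map_add, hC, hDc, Δ.leibniz, hX, hC, hDv']
        simp
    rw [this, zero_mul]
  have hevalG : ∀ τ : Ω, G.eval τ = aeval (Fin.cons 1 fun j => c j + τ * v' j : Fin (m + 2) → Ω) F := by
    intro τ
    have h := (MvPolynomial.comp_aeval (R := ℂ) P
      ((Polynomial.aeval τ : Polynomial Ω →ₐ[Ω] Ω).restrictScalars ℂ))
    have h2 := congrArg (fun φ => φ F) h
    simp only [AlgHom.comp_apply, AlgHom.coe_restrictScalars', Polynomial.coe_aeval_eq_eval] at h2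
    rw [hG, h2]
    congr 2
    funext l
    refine Fin.cases ?_ (fun j => ?_) l
    · simp [hP]
    · show Polynomial.eval τ (Polynomial.C (c j) + Polynomial.X * Polynomial.C (v' j)) = c j + τ * v' j
      rw [Polynomial.eval_add, Polynomial.eval_mul, Polynomial.eval_C, Polynomial.eval_C, Polynomial.eval_X]
  have hGt : G.eval t = aeval (Fin.cons 1 x : Fin (m + 2) → Ω) F := by
    rw [hevalG]
    congr 2
    funext l
    refine Fin.cases ?_ (fun j => ?_) l
    · rfl
    · show c j + t * v' j = x j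
      rw [hc]; ring
  have hG0 : G ≠ 0 := by
    intro h
    rw [h, Polynomial.eval_zero] at hGt
    exact h0 hGt.symm
  -- the factorisation
  set ℓ : Polynomial Ω := Polynomial.C (T.v i)⁻¹ * (Polynomial.X - Polynomial.C t) with hℓ
  set Q₀ : Polynomial Ω := (Polynomial.reflect m T.q).comp ℓ with hQ₀
  set R₀ : Polynomial Ω := (Polynomial.reflect 4 T.r).comp ℓ with hR₀
  have hfac : G = Q₀ ^ 2 * R₀ := by
    refine Polynomial.eq_of_infinite_eval_eq _ _ ?_
    refine Set.Infinite.mono (s := {t}ᶜ) ?_ (Set.finite_singleton t).infinite_compl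
    intro τ hτ
    have hτ' : τ - t ≠ 0 := sub_ne_zero.2 hτ
    show G.eval τ = (Q₀ ^ 2 * R₀).eval τ
    set s : Ω := T.v i / (τ - t) with hs
    have hs0 : s ≠ 0 := div_ne_zero hi hτ'
    have hℓτ : ℓ.eval τ = s⁻¹ := by
      rw [hℓ, hs]
      simp only [Polynomial.eval_mul, Polynomial.eval_C, Polynomial.eval_sub, Polynomial.eval_X]
      rw [inv_div]
      field_simp
    let _ : Invertible s := invertibleOfNonzero hs0
    have hrefl : ∀ (N : ℕ) (f : Polynomial Ω), f.natDegree ≤ N →
        (Polynomial.reflect N f).eval s⁻¹ * s ^ N = f.eval s := by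
      intro N f hf
      have h1 := Polynomial.eval₂_reflect_mul_pow (RingHom.id Ω) s N f hf
      rw [invOf_eq_inv] at h1
      exact h1
    have h1 := hrefl m T.q T.q_deg.le
    have h2 := hrefl 4 T.r T.r_deg
    have h3 : (aeval (lp x T.v) F).eval s = T.q.eval s ^ 2 * T.r.eval s := by
      rw [T.eq, Polynomial.eval_mul, Polynomial.eval_pow]
    rw [eval_line] at h3
    have h4 : aeval (pt x T.v s) F = s ^ (2 * m + 4) * G.eval τ := by
      rw [hevalG]
      have h5 : pt x T.v s = fun l => s * (Fin.cons 1 fun j => c j + τ * v' j : Fin (m + 2) → Ω) l := by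
        funext l
        refine Fin.cases ?_ (fun j => ?_) l
        · simp [pt]
        · show T.v j + s * x j = s * (x j - t * (T.v j / T.v i) + τ * (T.v j / T.v i))
          rw [hs]
          field_simp
          ring
      rw [h5]
      exact aeval_mul_point hF s _
    rw [Polynomial.eval_mul, Polynomial.eval_pow, hQ₀, hR₀, Polynomial.eval_comp, Polynomial.eval_comp,
      hℓτ]
    have h5 : s ^ (2 * m + 4) * G.eval τ =
        s ^ (2 * m + 4) * ((Polynomial.reflect m T.q).eval s⁻¹ ^ 2 * (Polynomial.reflect 4 T.r).eval s⁻¹) := by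
      rw [← h4, h3, ← h1, ← h2]
      ring
    exact mul_left_cancel₀ (pow_ne_zero _ hs0) h5
  have hQ₀0 : Q₀ ≠ 0 := by
    intro h
    rw [h] at hfac
    apply hG0
    rw [hfac]
    ring
  set lam : Ω := Q₀.leadingCoeff with hlam
  have hlam0 : lam ≠ 0 := Polynomial.leadingCoeff_ne_zero.2 hQ₀0
  set Q : Polynomial Ω := Polynomial.C lam⁻¹ * Q₀ with hQ
  set R : Polynomial Ω := Polynomial.C (lam ^ 2) * R₀ with hR
  have hQm : Q.Monic := by
    rw [Polynomial.Monic, hQ, Polynomial.leadingCoeff_mul, Polynomial.leadingCoeff_C, ← hlam,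
      inv_mul_cancel₀ hlam0]
  have hfac' : G = Q ^ 2 * R := by
    rw [hfac, hQ, hR, mul_pow]
    have : Polynomial.C lam⁻¹ ^ 2 * Polynomial.C (lam ^ 2) = (1 : Polynomial Ω) := by
      rw [← Polynomial.C_pow, ← Polynomial.C_mul, ← mul_pow, inv_mul_cancel₀ hlam0, one_pow,
        Polynomial.C_1]
    calc Q₀ ^ 2 * R₀ = (Polynomial.C lam⁻¹ ^ 2 * Polynomial.C (lam ^ 2)) * (Q₀ ^ 2 * R₀) := by
          rw [this, one_mul]
      _ = _ := by ring
  have hΔQ : Δ Q = 0 := coeff_const_of_dvd D Δ hX hC G Q hG0 hΔG hQm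
    ⟨Q * R, by rw [hfac']; ring⟩
  have hΔR : Δ R = 0 := by
    have h1 : Δ (Q ^ 2 * R) = 0 := by rw [← hfac', hΔG]
    rw [Δ.leibniz, Δ.leibniz_pow, hΔQ, smul_zero, smul_zero, smul_zero, add_zero, smul_eq_mul] at h1
    exact (mul_eq_zero.1 h1).resolve_left (pow_ne_zero 2 hQm.ne_zero)
  have hcoef : ∀ A : Polynomial Ω, Δ A = 0 → ∀ n, D (A.coeff n) = 0 := fun A hA n =>
    coeff_const D Δ hX hC A hA n
  have hRdeg : R.natDegree ≤ 4 := by
    have h1 : (Polynomial.reflect 4 T.r).natDegree ≤ 4 :=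
      (Polynomial.natDegree_reflect_le).trans (max_le le_rfl T.r_deg)
    have h2 : ℓ.natDegree ≤ 1 := by
      rw [hℓ]
      refine (Polynomial.natDegree_C_mul_le _ _).trans ?_
      exact Polynomial.natDegree_X_sub_C_le t
    rw [hR]
    refine (Polynomial.natDegree_C_mul_le _ _).trans ?_
    rw [hR₀, Polynomial.natDegree_comp]
    calc (Polynomial.reflect 4 T.r).natDegree * ℓ.natDegree ≤ 4 * 1 := Nat.mul_le_mul h1 h2
      _ = 4 := by norm_num
  obtain ⟨y, hy⟩ := IsAlgClosed.exists_pow_nat_eq (R.eval t) (n := 2) two_pos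
  let S : Finset Ω := Finset.univ.image v' ∪ Finset.univ.image c ∪ (Q.coeffs ∪ R.coeffs)
  have hcoS : ∀ A : Polynomial Ω, (A.coeffs ⊆ S) → ∀ n, A.coeff n ∈ IntermediateField.adjoin ℂ (S : Set Ω) := by
    intro A hA n
    by_cases h : A.coeff n = 0
    · rw [h]; exact zero_mem _
    · exact IntermediateField.subset_adjoin ℂ _ (hA (Polynomial.coeff_mem_coeffs h))
  have hQS : Q.coeffs ⊆ S := fun a ha => Finset.mem_union_right _ (Finset.mem_union_left _ ha)
  have hRS : R.coeffs ⊆ S := fun a ha => Finset.mem_union_right _ (Finset.mem_union_right _ ha)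
  have hle : IntermediateField.adjoin ℂ (S : Set Ω) ≤ IntermediateField.adjoin ℂ (S ∪ {t} : Set Ω) :=
    IntermediateField.adjoin.mono ℂ _ _ Set.subset_union_left
  have htm : t ∈ IntermediateField.adjoin ℂ (S ∪ {t} : Set Ω) :=
    IntermediateField.subset_adjoin ℂ _ (Or.inr rfl)
  have hQt : Q.eval t ∈ IntermediateField.adjoin ℂ (S ∪ {t} : Set Ω) := by
    rw [Polynomial.eval_eq_sum_range]
    exact sum_mem fun n _ => mul_mem (hle (hcoS Q hQS n)) (pow_mem htm n)
  refine ⟨{ S := S, t := t, y := y, R := R, S_const := ?_, Dt := ?_, R_coeff := hcoS R hRS, R_deg := hRdeg,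
            y_sq := hy, x_mem := ?_, w_mem := ?_ }⟩
  · intro a ha
    rcases Finset.mem_union.1 ha with ha | ha
    · rcases Finset.mem_union.1 ha with ha | ha
      · obtain ⟨j, -, rfl⟩ := Finset.mem_image.1 ha
        exact hDv' j
      · obtain ⟨j, -, rfl⟩ := Finset.mem_image.1 ha
        exact hDc j
    · rcases Finset.mem_union.1 ha with ha | ha
      · obtain ⟨n, -, rfl⟩ := Polynomial.mem_coeffs_iff.1 ha
        exact hcoef Q hΔQ n
      · obtain ⟨n, -, rfl⟩ := Polynomial.mem_coeffs_iff.1 ha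
        exact hcoef R hΔR n
  · rw [hDt]; exact hi
  · intro j
    have h1 : x j = c j + t * v' j := by rw [hc]; ring
    rw [h1]
    refine add_mem (IntermediateField.subset_adjoin ℂ _ (Or.inl ?_))
      (mul_mem htm (IntermediateField.subset_adjoin ℂ _ (Or.inl ?_)))
    · exact Finset.mem_union_left _ (Finset.mem_union_right _ (Finset.mem_image_of_mem _ (Finset.mem_univ j)))
    · exact Finset.mem_union_left _ (Finset.mem_union_left _ (Finset.mem_image_of_mem _ (Finset.mem_univ j)))
  · intro w hw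
    have h1 : w ^ 2 = (Q.eval t * y) ^ 2 := by
      rw [hw, ← hGt, hfac', Polynomial.eval_mul, Polynomial.eval_pow, mul_pow, hy]
    rcases sq_eq_sq_iff_eq_or_eq_neg.1 h1 with h | h
    · exact ⟨_, hQt, h⟩
    · exact ⟨_, neg_mem hQt, by rw [h]; ring⟩

end Pool.Agent.DS
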