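import Pool.Agent.Lib_MP_1209e6_ds.Defs

/-! PIECE IOTA: the involution of the double cover. -/

set_option autoImplicit false

open MvPolynomial

namespace Pool.Agent.DS

theorem exists_iota20 {m : ℕ} {F : MvPolynomial (Fin (m + 2)) ℂ} {K : Type} [Field K] [Algebra ℂ K]
    (z : Fin (m + 1) → K) (w : K) (hw : w ^ 2 = aeval (Fin.cons 1 z) F)
    (hgen : IntermediateField.adjoin ℂ (Set.range z ∪ {w}) = ⊤) :
    ∃ ι : K →ₐ[ℂ] K, (∀ u, ι (ι u) = u) ∧ (∀ j, ι (z j) = z j) ∧
      ∀ u, u + ι u ∈ IntermediateField.adjoin ℂ (Set.range z) ∧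
        u * ι u ∈ IntermediateField.adjoin ℂ (Set.range z) := by
  classical
  set k : IntermediateField ℂ K := IntermediateField.adjoin ℂ (Set.range z) with hk
  have hz : ∀ j, z j ∈ k := fun j => IntermediateField.subset_adjoin _ _ ⟨j, rfl⟩
  have hw2 : w ^ 2 ∈ k := by
    rw [hw]
    have h1 : aeval (Fin.cons 1 z) F =
        ((aeval (Fin.cons 1 (fun j => ⟨z j, hz j⟩) : Fin (m + 2) → k) F : k) : K) := by
      have : ((aeval (Fin.cons 1 (fun j => ⟨z j, hz j⟩) : Fin (m + 2) → k) F : k) : K) =
          (k.val.comp (aeval (Fin.cons 1 (fun j => ⟨z j, hz j⟩) : Fin (m + 2) → k))) F := rfl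
      rw [this]
      congr 1
      apply MvPolynomial.algHom_ext
      intro i
      refine Fin.cases ?_ (fun j => ?_) i <;> simp
    rw [h1]
    exact SetLike.coe_mem _
  by_cases hb : w ∈ k
  · have htop : k = ⊤ := by
      rw [eq_top_iff, ← hgen, IntermediateField.adjoin_le_iff]
      rintro a (⟨j, rfl⟩ | rfl)
      exacts [hz j, hb]
    refine ⟨AlgHom.id ℂ K, fun u => rfl, fun j => rfl, fun u => ?_⟩
    rw [htop]
    exact ⟨trivial, trivial⟩
  · obtain ⟨c, hc⟩ : ∃ c : k, (algebraMap k K) c = w ^ 2 := ⟨⟨w ^ 2, hw2⟩, rfl⟩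
    have hroot : Polynomial.aeval w ((Polynomial.X : Polynomial k) ^ 2 - Polynomial.C c) = 0 := by
      rw [map_sub, map_pow, Polynomial.aeval_X, Polynomial.aeval_C, hc, sub_self]
    have hmon : ((Polynomial.X : Polynomial k) ^ 2 - Polynomial.C c).Monic :=
      Polynomial.monic_X_pow_sub_C _ two_ne_zero
    have hint : IsIntegral k w := ⟨_, hmon, hroot⟩
    have hle : (minpoly k w).natDegree ≤ 2 := by
      have h1 := Polynomial.natDegree_le_of_dvd (minpoly.dvd k w hroot) hmon.ne_zero
      rwa [Polynomial.natDegree_X_pow_sub_C] at h1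
    have hge : 2 ≤ (minpoly k w).natDegree := by
      rw [minpoly.two_le_natDegree_iff hint]
      rintro ⟨a, ha⟩
      exact hb (ha ▸ a.2)
    have htop : IntermediateField.adjoin k {w} = ⊤ := by
      have h1 : (IntermediateField.adjoin k {w}).restrictScalars ℂ = ⊤ := by
        rw [eq_top_iff, ← hgen, IntermediateField.adjoin_le_iff]
        rintro a (⟨j, rfl⟩ | rfl)
        · exact (IntermediateField.adjoin k {w}).algebraMap_mem ⟨z j, hz j⟩
        · exact IntermediateField.mem_adjoin_simple_self k a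
      exact IntermediateField.restrictScalars_eq_top_iff.1 h1
    have hfr : Module.finrank k K = 2 := by
      rw [← IntermediateField.finrank_top', ← htop, IntermediateField.adjoin.finrank hint]
      omega
    have : Algebra.IsQuadraticExtension k K := ⟨hfr⟩
    have : FiniteDimensional k K := Module.finite_of_finrank_eq_succ hfr
    have hcard : Nat.card (K ≃ₐ[k] K) = 2 := by rw [IsGalois.card_aut_eq_finrank, hfr]
    have : Fintype (K ≃ₐ[k] K) := Fintype.ofFinite _
    have hcard' : Fintype.card (K ≃ₐ[k] K) = 2 := by rw [← Nat.card_eq_fintype_card, hcard]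
    have : Nontrivial (K ≃ₐ[k] K) := Fintype.one_lt_card_iff_nontrivial.1 (by omega)
    obtain ⟨σ, hσ⟩ := exists_ne (1 : K ≃ₐ[k] K)
    have hall : ∀ τ : K ≃ₐ[k] K, τ = 1 ∨ τ = σ := by
      intro τ
      by_contra hτ
      push Not at hτ
      have h3 : ({1, σ, τ} : Finset (K ≃ₐ[k] K)).card = 3 := by
        rw [Finset.card_eq_three]
        exact ⟨1, σ, τ, hσ.symm, hτ.1.symm, hτ.2.symm, rfl⟩
      have h4 := Finset.card_le_univ ({1, σ, τ} : Finset (K ≃ₐ[k] K))
      omega
    have hσ2 : ∀ u, σ (σ u) = u := by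
      intro u
      have h3 : σ ^ 2 = 1 := by
        rw [← hcard]
        exact pow_card_eq_one'
      have h4 := DFunLike.congr_fun h3 u
      rwa [pow_two] at h4
    have hfix : ∀ a, σ a = a → a ∈ k := by
      intro a ha
      have h3 : a ∈ (⊥ : IntermediateField k K) := by
        rw [IsGalois.mem_bot_iff_fixed]
        intro τ
        rcases hall τ with rfl | rfl
        · rfl
        · exact ha
      obtain ⟨b, rfl⟩ := IntermediateField.mem_bot.1 h3
      exact b.2
    refine ⟨(σ : K →ₐ[k] K).restrictScalars ℂ, hσ2, fun j => σ.commutes ⟨z j, hz j⟩, fun u => ?_⟩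
    constructor
    · apply hfix
      have h3 : σ (u + σ u) = σ u + σ (σ u) := map_add _ _ _
      change σ (u + σ u) = u + σ u
      rw [h3, hσ2, add_comm]
    · apply hfix
      have h3 : σ (u * σ u) = σ u * σ (σ u) := map_mul _ _ _
      change σ (u * σ u) = u * σ u
      rw [h3, hσ2, mul_comm]

end Pool.Agent.DS
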