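import Pool.Agent.Lib_MP_1209e6_ds.IsolUp53

/-! PIECE ISOLUP: singular points over `Ω`. -/

set_option autoImplicit false

open MvPolynomial

namespace Pool.Agent.DS

variable {Ω : Type} [Field Ω] [Algebra ℂ Ω] {m : ℕ}

/-- Nullstellensatz: `G` vanishes on the complex zeros of the partials, so a power of `G` is in their ideal -/
theorem zero_up {n : ℕ} {F : MvPolynomial (Fin (n + 1)) ℂ} (G : MvPolynomial (Fin (n + 1)) ℂ)
    (hG : ∀ p : Fin (n + 1) → ℂ, (∀ j, aeval p (pderiv j F) = 0) → aeval p G = 0)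
    (p : Fin (n + 1) → Ω) (h : ∀ j, aeval p (pderiv j F) = 0) : aeval p G = 0 := by
  let I : Ideal (MvPolynomial (Fin (n + 1)) ℂ) := Ideal.span (Set.range fun j => pderiv j F)
  have h1 : G ∈ vanishingIdeal ℂ (zeroLocus ℂ I) := by
    rw [mem_vanishingIdeal_iff]
    intro z hz
    exact hG z fun j => (mem_zeroLocus_iff.1 hz) _ (Ideal.subset_span ⟨j, rfl⟩)
  rw [vanishingIdeal_zeroLocus_eq_radical] at h1
  obtain ⟨N, hN⟩ := h1
  have h2 : I ≤ RingHom.ker (aeval p : MvPolynomial (Fin (n + 1)) ℂ →ₐ[ℂ] Ω) := by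
    refine Ideal.span_le.2 ?_
    rintro _ ⟨j, rfl⟩
    exact h j
  have h3 : aeval p (G ^ N : MvPolynomial (Fin (n + 1)) ℂ) = 0 := h2 hN
  rw [map_pow] at h3
  exact eq_zero_of_pow_eq_zero h3

/-- a form of degree `d` at a multiple of a point -/
theorem form_scale53 {n d : ℕ} {G : MvPolynomial (Fin n) ℂ} (hG : G.IsHomogeneous d) (s : Ω)
    (p : Fin n → Ω) : aeval (fun i => s * p i) G = s ^ d * aeval p G := by
  rw [aeval_def, aeval_def, eval₂_eq', eval₂_eq', Finset.mul_sum]
  refine Finset.sum_congr rfl fun e he => ?_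
  have h1 : ∏ i, (s * p i) ^ e i = s ^ d * ∏ i, p i ^ e i := by
    simp only [mul_pow]
    rw [Finset.prod_mul_distrib, Finset.prod_pow_eq_pow_sum]
    congr 2
    have h2 := hG.degree_eq_sum_deg_support he
    rw [h2]
    refine (Finset.sum_subset (Finset.subset_univ _) fun i _ hi => ?_).symm
    simpa using hi
  rw [h1]
  ring

/-- If `p` is on none of the lines `a ∈ A`, choose for each `a ∈ A` a nonzero minor `a_i p_j - a_j p_i`; the
product of the linear forms `a_i X_j - a_j X_i` vanishes at all complex singular points: `zero_up`. -/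
theorem Mild.up {F : MvPolynomial (Fin (m + 2)) ℂ} (hs : Mild F) {d : ℕ} (hF : F.IsHomogeneous d)
    (p : Fin (m + 2) → Ω) (h : ∀ j, aeval p (pderiv j F) = 0) (hp : p ≠ 0) :
    ∃ a : Fin (m + 2) → ℂ, a ≠ 0 ∧ (∀ j, aeval a (pderiv j F) = 0) ∧
      ∃ c : Ω, c ≠ 0 ∧ ∀ i, p i = c * algebraMap ℂ Ω (a i) := by
  obtain ⟨A, hA⟩ := hs.fin
  obtain ⟨k, hk⟩ : ∃ k, p k ≠ 0 := by
    by_contra hcon
    push Not at hcon
    exact hp (funext hcon)
  -- `p` is on one of the lines
  have key : ∃ a ∈ A, a ≠ 0 ∧ ∃ c : Ω, ∀ i, p i = c * algebraMap ℂ Ω (a i) := by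
    by_contra hcon
    push Not at hcon
    have hL : ∀ a : Fin (m + 2) → ℂ, ∃ L : MvPolynomial (Fin (m + 2)) ℂ, a ∈ A →
        (∀ c : ℂ, aeval (c • a) L = 0) ∧ aeval p L ≠ 0 := by
      intro a
      by_cases haA : a ∈ A
      swap
      · exact ⟨0, fun h => absurd h haA⟩
      by_cases ha : a = 0
      · refine ⟨X k, fun _ => ⟨fun c => ?_, ?_⟩⟩
        · rw [ha, smul_zero, aeval_X, Pi.zero_apply]
        · rw [aeval_X]; exact hk
      · obtain ⟨i, hi⟩ : ∃ i, a i ≠ 0 := by
          by_contra hc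
          push Not at hc
          exact ha (funext hc)
        have hi' : algebraMap ℂ Ω (a i) ≠ 0 := by
          rw [Ne, FaithfulSMul.algebraMap_eq_zero_iff]
          exact hi
        obtain ⟨j, hj⟩ := hcon a haA ha (p i / algebraMap ℂ Ω (a i))
        refine ⟨C (a i) * X j - C (a j) * X i, fun _ => ⟨fun c => ?_, ?_⟩⟩
        · simp only [map_sub, map_mul, aeval_X, algHom_C, Pi.smul_apply, smul_eq_mul,
            Algebra.algebraMap_self, RingHom.id_apply]
          ring
        · simp only [map_sub, map_mul, aeval_X, algHom_C]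
          intro h0
          apply hj
          rw [div_mul_eq_mul_div, eq_div_iff hi']
          linear_combination h0
    choose L hL using hL
    have h1 := zero_up (Ω := Ω) (F := F) (∏ a ∈ A, L a) (fun q hq => by
      obtain ⟨a, ha, c, hc⟩ := hA q hq
      rw [map_prod]
      refine Finset.prod_eq_zero ha ?_
      rw [hc]
      exact (hL a ha).1 c) p h
    rw [map_prod, Finset.prod_eq_zero_iff] at h1
    obtain ⟨a, ha, h2⟩ := h1
    exact (hL a ha).2 h2
  obtain ⟨a, -, ha0, c, hc⟩ := key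
  have hc0 : c ≠ 0 := by
    rintro rfl
    exact hp (funext fun i => by rw [hc i, zero_mul, Pi.zero_apply])
  refine ⟨a, ha0, fun j => ?_, c, hc0, hc⟩
  have h1 := h j
  have hpe : p = fun i => c * algebraMap ℂ Ω (a i) := funext hc
  have h2 : aeval (fun i => algebraMap ℂ Ω (a i)) (pderiv j F) =
      algebraMap ℂ Ω (aeval a (pderiv j F)) := aeval_algebraMap_apply Ω a (pderiv j F)
  rw [hpe, form_scale53 hF.pderiv c (fun i => algebraMap ℂ Ω (a i)), h2] at h1
  have h3 := (mul_eq_zero.1 h1).resolve_left (pow_ne_zero _ hc0)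
  rwa [FaithfulSMul.algebraMap_eq_zero_iff] at h3

end Pool.Agent.DS
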