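import Pool.Agent.Lib_MP_1209e6_ds.MildDefs

/-! PIECE ISOLUP (helper34): `not_span34` and `mult_generic34`, the two remaining statements of `IsolUp.lean`. -/

set_option autoImplicit false

open MvPolynomial

namespace Pool.Agent.DS

variable {Ω : Type} [Field Ω] [Algebra ℂ Ω] {m : ℕ}

theorem mult_map {n : ℕ} {A B : Type} [CommRing A] [Algebra ℂ A] [CommRing B] [Algebra ℂ B]
    (φ : A →ₐ[ℂ] B) (F : MvPolynomial (Fin n) ℂ) (a : Fin n → ℂ) (y : Fin n → A) :
    (aeval (fun i => Polynomial.C (algebraMap ℂ A (a i)) + Polynomial.X * Polynomial.C (y i)) F).map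
      (φ : A →+* B) =
    aeval (fun i => Polynomial.C (algebraMap ℂ B (a i)) + Polynomial.X * Polynomial.C (φ (y i))) F := by
  have h : (Polynomial.mapAlgHom φ).comp
      (aeval (fun i => Polynomial.C (algebraMap ℂ A (a i)) + Polynomial.X * Polynomial.C (y i))) =
      (aeval (fun i => Polynomial.C (algebraMap ℂ B (a i)) + Polynomial.X * Polynomial.C (φ (y i))) :
        MvPolynomial (Fin n) ℂ →ₐ[ℂ] Polynomial B) := by
    apply MvPolynomial.algHom_ext
    intro i
    simp [Polynomial.coe_mapAlgHom]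
  have h2 := congrArg (fun f => f F) h
  simpa [Polynomial.coe_mapAlgHom] using h2

theorem mult_generic34 {x : Fin (m + 1) → Ω} (hx : AlgebraicIndependent ℂ x)
    (F : MvPolynomial (Fin (m + 2)) ℂ) (a : Fin (m + 2) → ℂ) (k : ℕ)
    (h : Polynomial.X ^ k ∣ aeval (fun i => Polynomial.C (algebraMap ℂ Ω (a i)) +
      Polynomial.X * Polynomial.C ((Fin.cons 1 x : Fin (m + 2) → Ω) i)) F) (y : Fin (m + 2) → ℂ) :
    Polynomial.X ^ k ∣ aeval (fun i => Polynomial.C (a i) + Polynomial.X * Polynomial.C (y i)) F := by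
  classical
  -- the universal polynomial in the affine chart
  set H : Polynomial (MvPolynomial (Fin (m + 1)) ℂ) :=
    aeval (fun i => Polynomial.C (algebraMap ℂ (MvPolynomial (Fin (m + 1)) ℂ) (a i)) +
      Polynomial.X * Polynomial.C ((Fin.cons 1 (fun j => X j) :
        Fin (m + 2) → MvPolynomial (Fin (m + 1)) ℂ) i)) F with hH
  have hHc : ∀ i < k, H.coeff i = 0 := by
    intro i hi
    apply hx
    rw [map_zero]
    have h1 := mult_map (aeval x : MvPolynomial (Fin (m + 1)) ℂ →ₐ[ℂ] Ω) F a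
      (Fin.cons 1 (fun j => X j) : Fin (m + 2) → MvPolynomial (Fin (m + 1)) ℂ)
    have h2 : (fun i => (aeval x : MvPolynomial (Fin (m + 1)) ℂ →ₐ[ℂ] Ω)
        ((Fin.cons 1 (fun j => X j) : Fin (m + 2) → MvPolynomial (Fin (m + 1)) ℂ) i)) =
        (Fin.cons 1 x : Fin (m + 2) → Ω) := by
      funext i
      refine Fin.cases ?_ (fun i => ?_) i <;> simp
    rw [← hH] at h1
    have h3 := congrArg (fun P => Polynomial.coeff P i) h1
    simp only [Polynomial.coeff_map] at h3
    have h4 := Polynomial.X_pow_dvd_iff.mp h i hi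
    have h5 : (fun i => Polynomial.C (algebraMap ℂ Ω (a i)) +
      Polynomial.X * Polynomial.C ((Fin.cons 1 x : Fin (m + 2) → Ω) i)) =
      (fun i => Polynomial.C (algebraMap ℂ Ω (a i)) +
      Polynomial.X * Polynomial.C ((aeval x : MvPolynomial (Fin (m + 1)) ℂ →ₐ[ℂ] Ω)
        ((Fin.cons 1 (fun j => X j) : Fin (m + 2) → MvPolynomial (Fin (m + 1)) ℂ) i))) := by
      funext i
      rw [← congrFun h2 i]
    rw [h5] at h4
    exact h3.trans h4
  -- first coordinate one
  have h1 : ∀ z : Fin (m + 1) → ℂ, Polynomial.X ^ k ∣ aeval (fun i => Polynomial.C (a i) +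
      Polynomial.X * Polynomial.C ((Fin.cons 1 z : Fin (m + 2) → ℂ) i)) F := by
    intro z
    rw [Polynomial.X_pow_dvd_iff]
    intro i hi
    have h1 := mult_map (aeval z : MvPolynomial (Fin (m + 1)) ℂ →ₐ[ℂ] ℂ) F a
      (Fin.cons 1 (fun j => X j) : Fin (m + 2) → MvPolynomial (Fin (m + 1)) ℂ)
    rw [← hH] at h1
    have h3 := congrArg (fun P => Polynomial.coeff P i) h1
    simp only [Polynomial.coeff_map, hHc i hi, map_zero] at h3
    have h5 : (fun i => Polynomial.C (a i) +
      Polynomial.X * Polynomial.C ((Fin.cons 1 z : Fin (m + 2) → ℂ) i)) =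
      (fun i => Polynomial.C (algebraMap ℂ ℂ (a i)) +
      Polynomial.X * Polynomial.C ((aeval z : MvPolynomial (Fin (m + 1)) ℂ →ₐ[ℂ] ℂ)
        ((Fin.cons 1 (fun j => X j) : Fin (m + 2) → MvPolynomial (Fin (m + 1)) ℂ) i))) := by
      funext i
      refine Fin.cases ?_ (fun i => ?_) i <;> simp
    rw [h5]
    exact h3.symm
  -- first coordinate nonzero
  have h2 : ∀ z : Fin (m + 2) → ℂ, z 0 ≠ 0 → Polynomial.X ^ k ∣ aeval (fun i => Polynomial.C (a i) +
      Polynomial.X * Polynomial.C (z i)) F := by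
    intro z hz
    have h3 := h1 (fun j => (z 0)⁻¹ * z (Fin.succ j))
    have h4 : ((Polynomial.aeval (Polynomial.C (z 0) * Polynomial.X : Polynomial ℂ)).comp
        ((aeval (fun i => Polynomial.C (a i) + Polynomial.X *
          Polynomial.C ((Fin.cons 1 (fun j => (z 0)⁻¹ * z (Fin.succ j)) : Fin (m + 2) → ℂ) i)) :
            MvPolynomial (Fin (m + 2)) ℂ →ₐ[ℂ] Polynomial ℂ))) =
        (aeval (fun i => Polynomial.C (a i) + Polynomial.X * Polynomial.C (z i)) :
            MvPolynomial (Fin (m + 2)) ℂ →ₐ[ℂ] Polynomial ℂ) := by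
      apply MvPolynomial.algHom_ext
      intro i
      refine Fin.cases ?_ (fun i => ?_) i
      · simp only [AlgHom.comp_apply, aeval_X, Fin.cons_zero, map_add, map_mul, map_one,
          Polynomial.aeval_C, Polynomial.aeval_X, Polynomial.algebraMap_eq]
        ring
      · have : Polynomial.C (z 0) * (Polynomial.C (z 0)⁻¹ : Polynomial ℂ) = 1 := by
          rw [← map_mul, mul_inv_cancel₀ hz, map_one]
        simp only [AlgHom.comp_apply, aeval_X, Fin.cons_succ, map_add, map_mul,
          Polynomial.aeval_C, Polynomial.aeval_X, Polynomial.algebraMap_eq]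
        linear_combination (Polynomial.X * Polynomial.C (z i.succ)) * this
    have h5 := congrArg (fun f => f F) h4
    rw [← show _ = _ from h5]
    obtain ⟨P, hP⟩ := h3
    refine ⟨Polynomial.C (z 0) ^ k * Polynomial.aeval (Polynomial.C (z 0) * Polynomial.X) P, ?_⟩
    have h6 := congrArg (Polynomial.aeval (Polynomial.C (z 0) * Polynomial.X : Polynomial ℂ)) hP
    refine h6.trans ?_
    rw [map_mul, map_pow, Polynomial.aeval_X]
    ring
  -- all points
  set G : Polynomial (MvPolynomial (Fin (m + 2)) ℂ) :=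
    aeval (fun i => Polynomial.C (algebraMap ℂ (MvPolynomial (Fin (m + 2)) ℂ) (a i)) +
      Polynomial.X * Polynomial.C (X i)) F with hG
  have hGe : ∀ z : Fin (m + 2) → ℂ, ∀ i, aeval z (G.coeff i) =
      (aeval (fun i => Polynomial.C (a i) + Polynomial.X * Polynomial.C (z i)) F).coeff i := by
    intro z i
    have h1 := mult_map (aeval z : MvPolynomial (Fin (m + 2)) ℂ →ₐ[ℂ] ℂ) F a (fun j => X j)
    rw [← hG] at h1
    have h3 := congrArg (fun P => Polynomial.coeff P i) h1
    simp only [Polynomial.coeff_map] at h3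
    simpa using h3
  have hG0 : ∀ i < k, G.coeff i = 0 := by
    intro i hi
    have h3 : X 0 * G.coeff i = 0 := by
      apply MvPolynomial.funext
      intro z
      rw [map_mul, map_zero, MvPolynomial.eval_X]
      by_cases hz : z 0 = 0
      · rw [hz, zero_mul]
      · have h4 := hGe z i
        rw [Polynomial.X_pow_dvd_iff.mp (h2 z hz) i hi] at h4
        have h6 : MvPolynomial.eval z (G.coeff i) = 0 := by
          rw [← MvPolynomial.aeval_eq_eval]
          exact h4
        rw [h6, mul_zero]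
    rcases mul_eq_zero.mp h3 with h | h
    · exact absurd h (MvPolynomial.X_ne_zero 0)
    · exact h
  rw [Polynomial.X_pow_dvd_iff]
  intro i hi
  rw [← hGe y i, hG0 i hi, map_zero]


theorem not_span34 {x : Fin (m + 1) → Ω} (hx : AlgebraicIndependent ℂ x) (hm : 1 ≤ m)
    (a b : Fin (m + 2) → ℂ) (c d : Ω)
    (h : ∀ i, (Fin.cons 1 x : Fin (m + 2) → Ω) i = c * algebraMap ℂ Ω (a i) + d * algebraMap ℂ Ω (b i)) :
    False := by
  classical
  let j0 : Fin (m + 1) := ⟨0, by omega⟩
  let j1 : Fin (m + 1) := ⟨1, by omega⟩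
  let M : Matrix (Fin 2) (Fin 3) ℂ :=
    !![a 0, a j0.succ, a j1.succ; b 0, b j0.succ, b j1.succ]
  have hker : LinearMap.ker M.mulVecLin ≠ ⊥ := by
    apply LinearMap.ker_ne_bot_of_finrank_lt
    simp
  obtain ⟨l, hl, hl0⟩ := (Submodule.ne_bot_iff _).mp hker
  rw [LinearMap.mem_ker] at hl
  have ha := congrFun hl 0
  have hb := congrFun hl 1
  simp [M, Matrix.mulVec, dotProduct, Fin.sum_univ_three] at ha hb
  have h0 := h 0
  have h1 := h j0.succ
  have h2 := h j1.succ
  rw [Fin.cons_zero] at h0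
  rw [Fin.cons_succ] at h1 h2
  have key : aeval x (C (l 0) + C (l 1) * X j0 + C (l 2) * X j1 :
      MvPolynomial (Fin (m + 1)) ℂ) = 0 := by
    have ha' := congrArg (algebraMap ℂ Ω) ha
    have hb' := congrArg (algebraMap ℂ Ω) hb
    simp only [map_add, map_mul, map_zero] at ha' hb'
    simp only [map_add, map_mul, aeval_C, aeval_X]
    rw [h1, h2]
    linear_combination (algebraMap ℂ Ω (l 0)) * h0 + c * ha' + d * hb'
  have hz : (C (l 0) + C (l 1) * X j0 + C (l 2) * X j1 : MvPolynomial (Fin (m + 1)) ℂ) = 0 :=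
    hx (by rw [key, map_zero])
  have hj : j0 ≠ j1 := by simp [j0, j1]
  have e : ∀ z : Fin (m + 1) → ℂ, l 0 + l 1 * z j0 + l 2 * z j1 = 0 := by
    intro z
    have := congrArg (MvPolynomial.eval z) hz
    simpa using this
  have e0 := e 0
  have e1 := e (Pi.single j0 1)
  have e2 := e (Pi.single j1 1)
  simp only [Pi.zero_apply, mul_zero, add_zero] at e0
  simp [e0, Pi.single_eq_of_ne hj.symm] at e1
  simp [e0, Pi.single_eq_of_ne hj] at e2
  apply hl0
  funext i
  fin_cases i
  · exact e0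
  · exact e1
  · exact e2

end Pool.Agent.DS
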