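import Pool.Agent.Lib_MP_1209e6_ds.MildDefs

/-! Part of PIECE ISOLUP (helper36): `not_span`, `mult_generic`. -/

set_option autoImplicit false

open MvPolynomial

namespace Pool.Agent.DS

variable {Ω : Type} [Field Ω] [Algebra ℂ Ω] {m : ℕ}

/-- `1, x_0, x_1` are linearly independent over `ℂ` -/
theorem u36_lin {x : Fin (m + 1) → Ω} (hx : AlgebraicIndependent ℂ x) {i j : Fin (m + 1)} (hij : i ≠ j)
    (l0 l1 l2 : ℂ) (h : algebraMap ℂ Ω l0 + algebraMap ℂ Ω l1 * x i + algebraMap ℂ Ω l2 * x j = 0) :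
    l0 = 0 ∧ l1 = 0 ∧ l2 = 0 := by
  have h1 : (C l0 + C l1 * X i + C l2 * X j : MvPolynomial (Fin (m + 1)) ℂ) = 0 := by
    apply hx
    simpa using h
  have e0 := congrArg (eval (fun _ => (0 : ℂ))) h1
  have e1 := congrArg (eval (fun s => if s = i then (1 : ℂ) else 0)) h1
  have e2 := congrArg (eval (fun s => if s = j then (1 : ℂ) else 0)) h1
  simp [hij, hij.symm] at e0 e1 e2
  subst e0
  refine ⟨rfl, ?_, ?_⟩
  · simpa using e1
  · simpa using e2

/-- `1, x_1, …, x_n` is not in the span of two complex vectors -/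
theorem not_span {x : Fin (m + 1) → Ω} (hx : AlgebraicIndependent ℂ x) (hm : 1 ≤ m)
    (a b : Fin (m + 2) → ℂ) (c d : Ω)
    (h : ∀ i, (Fin.cons 1 x : Fin (m + 2) → Ω) i = c * algebraMap ℂ Ω (a i) + d * algebraMap ℂ Ω (b i)) :
    False := by
  have hij : (0 : Fin (m + 1)) ≠ ⟨1, by omega⟩ := by
    intro h0
    have := congrArg Fin.val h0
    simp at this
  generalize (⟨1, by omega⟩ : Fin (m + 1)) = j at hij
  let M : Matrix (Fin 2) (Fin 3) ℂ :=
    !![a 0, a (Fin.succ 0), a (Fin.succ j); b 0, b (Fin.succ 0), b (Fin.succ j)]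
  have hker : LinearMap.ker M.mulVecLin ≠ ⊥ := by
    apply LinearMap.ker_ne_bot_of_finrank_lt
    simp
  obtain ⟨l, hl, hl0⟩ := Submodule.exists_mem_ne_zero_of_ne_bot hker
  rw [LinearMap.mem_ker, Matrix.mulVecLin_apply] at hl
  have ha : a 0 * l 0 + a (Fin.succ 0) * l 1 + a (Fin.succ j) * l 2 = 0 := by
    have h1 := congrFun hl 0
    simpa [M, Matrix.mulVec, dotProduct, Fin.sum_univ_three] using h1
  have hb : b 0 * l 0 + b (Fin.succ 0) * l 1 + b (Fin.succ j) * l 2 = 0 := by
    have h1 := congrFun hl 1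
    simpa [M, Matrix.mulVec, dotProduct, Fin.sum_univ_three] using h1
  have ha' := congrArg (algebraMap ℂ Ω) ha
  have hb' := congrArg (algebraMap ℂ Ω) hb
  simp only [map_add, map_mul, map_zero] at ha' hb'
  have h0 := h 0
  have h1 := h (Fin.succ 0)
  have h2 := h (Fin.succ j)
  rw [Fin.cons_zero] at h0
  rw [Fin.cons_succ] at h1 h2
  have h3 : algebraMap ℂ Ω (l 0) + algebraMap ℂ Ω (l 1) * x 0 + algebraMap ℂ Ω (l 2) * x j = 0 := by
    linear_combination algebraMap ℂ Ω (l 0) * h0 + algebraMap ℂ Ω (l 1) * h1 +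
      algebraMap ℂ Ω (l 2) * h2 + c * ha' + d * hb'
  obtain ⟨r0, r1, r2⟩ := u36_lin hx hij (l 0) (l 1) (l 2) h3
  apply hl0
  funext s
  fin_cases s
  · exact r0
  · exact r1
  · exact r2

/-- the restriction of `F` to the line through `a` with direction `Y` -/
noncomputable def u36P (F : MvPolynomial (Fin (m + 2)) ℂ) (a : Fin (m + 2) → ℂ) {A : Type} [CommRing A]
    [Algebra ℂ A] (Y : Fin (m + 2) → A) : Polynomial A :=
  aeval (fun i => Polynomial.C (algebraMap ℂ A (a i)) + Polynomial.X * Polynomial.C (Y i)) F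

theorem u36_map (F : MvPolynomial (Fin (m + 2)) ℂ) (a : Fin (m + 2) → ℂ) {A B : Type} [CommRing A]
    [Algebra ℂ A] [CommRing B] [Algebra ℂ B] (φ : A →ₐ[ℂ] B) (Y : Fin (m + 2) → A) (i : ℕ) :
    (u36P F a fun s => φ (Y s)).coeff i = φ ((u36P F a Y).coeff i) := by
  have h1 : Polynomial.mapAlgHom φ (u36P F a Y) = u36P F a fun s => φ (Y s) := by
    unfold u36P
    rw [MvPolynomial.comp_aeval_apply]
    congr 1
    congr 1
    funext s
    simp
  rw [← h1, Polynomial.coe_mapAlgHom, Polynomial.coeff_map]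
  rfl

theorem u36_scale (F : MvPolynomial (Fin (m + 2)) ℂ) (a : Fin (m + 2) → ℂ) {A : Type} [CommRing A]
    [Algebra ℂ A] (t : A) (Y : Fin (m + 2) → A) (i : ℕ) :
    (u36P F a fun s => t * Y s).coeff i = (u36P F a Y).coeff i * t ^ i := by
  have h1 : (u36P F a Y).comp (Polynomial.C t * Polynomial.X) = u36P F a fun s => t * Y s := by
    have h2 : ∀ p : Polynomial A, p.comp (Polynomial.C t * Polynomial.X) =
        (Polynomial.compRingHom (Polynomial.C t * Polynomial.X)) p := fun p => rfl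
    rw [h2]
    unfold u36P
    rw [MvPolynomial.aeval_def, MvPolynomial.aeval_def, MvPolynomial.hom_eval₂]
    congr 1
    · ext r
      simp
    · funext s
      simp
      ring
  rw [← h1, Polynomial.comp_C_mul_X_coeff]

/-- a polynomial over `ℂ` of the form `F (a + X y)` whose order at `0` is at least `k` for the generic
`y = (1, x)` has order at least `k` for every `y`: the coefficients of `X ^ i` of `F (a + X Y)` are polynomials
in `Y` which vanish at `(1, x)`, so at all `(1, y)`, so (replace `X` by `X t`) at all `(t, t y)`, `t ≠ 0`, so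
everywhere -/
theorem mult_generic {x : Fin (m + 1) → Ω} (hx : AlgebraicIndependent ℂ x)
    (F : MvPolynomial (Fin (m + 2)) ℂ) (a : Fin (m + 2) → ℂ) (k : ℕ)
    (h : Polynomial.X ^ k ∣ aeval (fun i => Polynomial.C (algebraMap ℂ Ω (a i)) +
      Polynomial.X * Polynomial.C ((Fin.cons 1 x : Fin (m + 2) → Ω) i)) F) (y : Fin (m + 2) → ℂ) :
    Polynomial.X ^ k ∣ aeval (fun i => Polynomial.C (a i) + Polynomial.X * Polynomial.C (y i)) F := by
  rw [Polynomial.X_pow_dvd_iff]
  intro i hi
  have h1 : (u36P F a (Fin.cons 1 x : Fin (m + 2) → Ω)).coeff i = 0 :=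
    Polynomial.X_pow_dvd_iff.1 h i hi
  -- the universal coefficient
  let g : MvPolynomial (Fin (m + 2)) ℂ :=
    (u36P F a (X : Fin (m + 2) → MvPolynomial (Fin (m + 2)) ℂ)).coeff i
  have hg : ∀ {B : Type} [CommRing B] [Algebra ℂ B] (Y : Fin (m + 2) → B),
      aeval Y g = (u36P F a Y).coeff i := by
    intro B _ _ Y
    have h2 := u36_map F a (aeval Y) (X : Fin (m + 2) → MvPolynomial (Fin (m + 2)) ℂ) i
    rw [← h2]
    simp only [aeval_X]
  -- vanishing at `(1, y')`
  have h2 : aeval (Fin.cons 1 X : Fin (m + 2) → MvPolynomial (Fin (m + 1)) ℂ) g = 0 := by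
    apply hx
    rw [map_zero, MvPolynomial.comp_aeval_apply]
    rw [← h1, ← hg]
    congr 1
    congr 1
    funext s
    refine Fin.cases ?_ (fun j => ?_) s
    · simp
    · simp
  have h3 : ∀ y' : Fin (m + 1) → ℂ, aeval (Fin.cons 1 y' : Fin (m + 2) → ℂ) g = 0 := by
    intro y'
    have h4 := congrArg (aeval y' : MvPolynomial (Fin (m + 1)) ℂ →ₐ[ℂ] ℂ) h2
    rw [map_zero, MvPolynomial.comp_aeval_apply] at h4
    rw [← h4]
    congr 1
    congr 1
    funext s
    refine Fin.cases ?_ (fun j => ?_) s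
    · simp
    · simp
  have h4 : g = 0 := by
    have h5 : X 0 * g = 0 := by
      apply MvPolynomial.funext
      intro z
      rw [map_zero, map_mul, eval_X]
      by_cases hz : z 0 = 0
      · rw [hz, zero_mul]
      · have h6 : z = fun s => z 0 * (Fin.cons 1 (fun j => z (Fin.succ j) / z 0) :
            Fin (m + 2) → ℂ) s := by
          funext s
          refine Fin.cases ?_ (fun j => ?_) s
          · simp
          · simp only [Fin.cons_succ]
            field_simp
        have h7 : eval z g = 0 := by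
          have h8 : eval z g = aeval z g := by rw [MvPolynomial.aeval_eq_eval]
          rw [h8, hg z, h6, u36_scale, ← hg, h3, zero_mul]
        rw [h7, mul_zero]
    exact (mul_eq_zero.1 h5).resolve_left (X_ne_zero 0)
  have h5 := hg y
  rw [h4, map_zero] at h5
  exact h5.symm

end Pool.Agent.DS
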