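import Pool.Agent.Lib_MP_1209e6_ds.MildDefs

/-! PIECE ISOLUP, second half: the generic vector. -/

set_option autoImplicit false

open MvPolynomial

namespace Pool.Agent.DS

variable {Ω : Type} [Field Ω] [Algebra ℂ Ω] {m : ℕ}

/-- `1, x_i, x_j` are linearly independent over `ℂ` -/
theorem lin_ind53 {x : Fin (m + 1) → Ω} (hx : AlgebraicIndependent ℂ x) {i j : Fin (m + 1)} (hij : i ≠ j)
    (u v w : ℂ) (h : algebraMap ℂ Ω u + algebraMap ℂ Ω v * x i + algebraMap ℂ Ω w * x j = 0) :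
    u = 0 ∧ v = 0 ∧ w = 0 := by
  have h1 : aeval x (C u + C v * X i + C w * X j : MvPolynomial (Fin (m + 1)) ℂ) = 0 := by
    simpa only [map_add, map_mul, aeval_X, algHom_C] using h
  have h2 : (C u + C v * X i + C w * X j : MvPolynomial (Fin (m + 1)) ℂ) = 0 :=
    (injective_iff_map_eq_zero _).1 hx _ h1
  have e0 := congrArg (aeval (0 : Fin (m + 1) → ℂ)) h2
  have e1 := congrArg (aeval (Pi.single i 1 : Fin (m + 1) → ℂ)) h2
  have e2 := congrArg (aeval (Pi.single j 1 : Fin (m + 1) → ℂ)) h2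
  simp [hij, hij.symm] at e0 e1 e2
  subst e0
  simp at e1 e2
  exact ⟨rfl, e1, e2⟩

/-- `1, x_1, …, x_n` is not in the span of two complex vectors -/
theorem not_span {x : Fin (m + 1) → Ω} (hx : AlgebraicIndependent ℂ x) (hm : 1 ≤ m)
    (a b : Fin (m + 2) → ℂ) (c d : Ω)
    (h : ∀ i, (Fin.cons 1 x : Fin (m + 2) → Ω) i = c * algebraMap ℂ Ω (a i) + d * algebraMap ℂ Ω (b i)) :
    False := by
  obtain ⟨n, rfl⟩ : ∃ n, m = n + 1 := ⟨m - 1, by omega⟩
  have h0 := h 0
  have h1 := h (Fin.succ 0)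
  have h2 := h (Fin.succ 1)
  rw [Fin.cons_zero] at h0
  rw [Fin.cons_succ] at h1 h2
  set a0 := a 0
  set a1 := a (Fin.succ 0)
  set a2 := a (Fin.succ 1)
  set b0 := b 0
  set b1 := b (Fin.succ 0)
  set b2 := b (Fin.succ 1)
  have hne : (0 : Fin (n + 1 + 1)) ≠ 1 := by
    intro h
    exact absurd (congrArg Fin.val h) (by simp)
  obtain ⟨-, -, k2⟩ := lin_ind53 hx hne (a1 * b2 - a2 * b1) (a2 * b0 - a0 * b2) (a0 * b1 - a1 * b0) (by
    simp only [map_sub, map_mul]
    rw [h1, h2]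
    linear_combination ((algebraMap ℂ Ω) a1 * (algebraMap ℂ Ω) b2 -
      (algebraMap ℂ Ω) a2 * (algebraMap ℂ Ω) b1) * h0)
  have k3 : algebraMap ℂ Ω a0 * algebraMap ℂ Ω b1 - algebraMap ℂ Ω a1 * algebraMap ℂ Ω b0 = 0 := by
    rw [← map_mul, ← map_mul, ← map_sub, k2, map_zero]
  obtain ⟨p1, p2, -⟩ := lin_ind53 hx hne a1 (-a0) 0 (by
    simp only [map_neg, map_zero]
    rw [h1]
    linear_combination (algebraMap ℂ Ω) a1 * h0 - d * k3)
  obtain ⟨q1, q2, -⟩ := lin_ind53 hx hne b1 (-b0) 0 (by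
    simp only [map_neg, map_zero]
    rw [h1]
    linear_combination (algebraMap ℂ Ω) b1 * h0 + c * k3)
  rw [neg_eq_zero] at p2 q2
  rw [p2, q2] at h0
  simp at h0

section mult

variable (F : MvPolynomial (Fin (m + 2)) ℂ) (a : Fin (m + 2) → ℂ)

/-- `F (a + X Y)` -/
noncomputable def PY53 : Polynomial (MvPolynomial (Fin (m + 2)) ℂ) :=
  aeval (fun i => Polynomial.C (C (a i)) + Polynomial.X * Polynomial.C (X i)) F

theorem coeff_PY53 {B : Type} [CommRing B] [Algebra ℂ B] (y : Fin (m + 2) → B) (i : ℕ) :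
    aeval y ((PY53 F a).coeff i) =
      (aeval (fun i => Polynomial.C (algebraMap ℂ B (a i)) + Polynomial.X * Polynomial.C (y i)) F).coeff i := by
  have h : Polynomial.mapAlgHom (aeval y : MvPolynomial (Fin (m + 2)) ℂ →ₐ[ℂ] B) (PY53 F a) =
      aeval (fun i => Polynomial.C (algebraMap ℂ B (a i)) + Polynomial.X * Polynomial.C (y i)) F := by
    rw [PY53, comp_aeval_apply]
    congr 2
    funext i
    simp [algHom_C]
  rw [← h, Polynomial.coe_mapAlgHom, Polynomial.coeff_map]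
  rfl

theorem coeff_scale53 (t : ℂ) (y : Fin (m + 2) → ℂ) (i : ℕ) :
    aeval (fun j => t * y j) ((PY53 F a).coeff i) = aeval y ((PY53 F a).coeff i) * t ^ i := by
  rw [coeff_PY53, coeff_PY53, ← Polynomial.comp_C_mul_X_coeff]
  congr 1
  have h : ∀ q : Polynomial ℂ, q.comp (Polynomial.C t * Polynomial.X) =
      Polynomial.aeval (Polynomial.C t * Polynomial.X : Polynomial ℂ) q := fun q => rfl
  rw [h, comp_aeval_apply]
  congr 2
  funext j
  simp
  ring

/-- a polynomial over `ℂ` of the form `F (a + X y)` whose order at `0` is at least `k` for the generic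
`y = (1, x)` has order at least `k` for every `y`: the coefficients of `X ^ i` of `F (a + X Y)` are polynomials
in `Y` which vanish at `(1, x)`, so at all `(1, y)`, so (replace `X` by `X t`) at all `(t, t y)`, `t ≠ 0`, so
everywhere -/
theorem mult_generic {x : Fin (m + 1) → Ω} (hx : AlgebraicIndependent ℂ x)
    (F : MvPolynomial (Fin (m + 2)) ℂ) (a : Fin (m + 2) → ℂ) (k : ℕ)
    (h : Polynomial.X ^ k ∣ aeval (fun i => Polynomial.C (algebraMap ℂ Ω (a i)) +
      Polynomial.X * Polynomial.C ((Fin.cons 1 x : Fin (m + 2) → Ω) i)) F) (y : Fin (m + 2) → ℂ) :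
    Polynomial.X ^ k ∣ aeval (fun i => Polynomial.C (a i) + Polynomial.X * Polynomial.C (y i)) F := by
  rw [Polynomial.X_pow_dvd_iff] at h ⊢
  intro i hi
  have h1 := h i hi
  rw [← coeff_PY53] at h1
  -- the coefficient vanishes at `(1, y')`
  have h2 : ∀ y' : Fin (m + 1) → ℂ, aeval (Fin.cons 1 y' : Fin (m + 2) → ℂ) ((PY53 F a).coeff i) = 0 := by
    have key : ∀ {B : Type} [CommRing B] [Algebra ℂ B] (z : Fin (m + 1) → B),
        aeval z (aeval (Fin.cons 1 X : Fin (m + 2) → MvPolynomial (Fin (m + 1)) ℂ) ((PY53 F a).coeff i)) =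
          aeval (Fin.cons 1 z : Fin (m + 2) → B) ((PY53 F a).coeff i) := by
      intro B _ _ z
      rw [comp_aeval_apply]
      congr 2
      funext j
      refine Fin.cases ?_ (fun j => ?_) j
      · simp
      · simp
    intro y'
    rw [← key y']
    have h3 := key x
    rw [h1] at h3
    rw [(injective_iff_map_eq_zero _).1 hx _ h3, map_zero]
  -- it vanishes at all `y` with `y 0 ≠ 0`
  have h3 : ∀ y : Fin (m + 2) → ℂ, y 0 ≠ 0 → aeval y ((PY53 F a).coeff i) = 0 := by
    intro y hy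
    have e : y = fun j => y 0 * (Fin.cons 1 (fun j => y (Fin.succ j) / y 0) : Fin (m + 2) → ℂ) j := by
      funext j
      refine Fin.cases ?_ (fun j => ?_) j
      · simp
      · rw [Fin.cons_succ]
        field_simp
    rw [e, coeff_scale53, h2, zero_mul]
  have h4 : (X 0 * (PY53 F a).coeff i : MvPolynomial (Fin (m + 2)) ℂ) = 0 := by
    refine MvPolynomial.funext fun y => ?_
    rw [map_mul, map_zero, eval_X]
    by_cases hy : y 0 = 0
    · rw [hy, zero_mul]
    · exact mul_eq_zero_of_right _ (h3 y hy)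
  have h5 := (mul_eq_zero.1 h4).resolve_left (X_ne_zero 0)
  have h6 := coeff_PY53 F a y i
  rw [h5, map_zero] at h6
  exact h6.symm

end mult

end Pool.Agent.DS
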