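import Mathlib

/-!
Fewer polynomials than variables over an algebraically closed field, all vanishing at the origin,
have a common zero different from the origin (Krull).
-/

set_option autoImplicit false

namespace Pool.Agent.DS

open MvPolynomial

variable {J Ω : Type*} [Field Ω]

/-- translation of the variables as an algebra automorphism -/
noncomputable def translate (x : J → Ω) : MvPolynomial J Ω ≃ₐ[Ω] MvPolynomial J Ω :=
  AlgEquiv.ofAlgHom (aeval (fun j => X j + C (x j))) (aeval (fun j => X j - C (x j)))
    (by ext j; simp) (by ext j; simp)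

theorem height_eq [IsAlgClosed Ω] (x : J → Ω) :
    (vanishingIdeal Ω ({x} : Set (J → Ω)) : Ideal (MvPolynomial J Ω)).height =
      (vanishingIdeal Ω ({0} : Set (J → Ω)) : Ideal (MvPolynomial J Ω)).height := by
  have h := (translate x).toRingEquiv.height_comap
    (vanishingIdeal Ω ({0} : Set (J → Ω)) : Ideal (MvPolynomial J Ω))
  rw [← h]
  congr 1
  ext p
  simp only [mem_vanishingIdeal_singleton_iff, Ideal.mem_comap]
  have : aeval (0 : J → Ω) ((translate x).toRingEquiv p) = aeval x p := by
    show aeval (0 : J → Ω) (aeval (fun j => X j + C (x j)) p) = aeval x p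
    have h2 : ((aeval (0 : J → Ω)).comp (aeval (fun j => X j + C (x j))) :
        MvPolynomial J Ω →ₐ[Ω] Ω) = aeval x := by
      ext j; simp
    exact congrArg (fun f => f p) h2
  rw [this]

/-- Krull: fewer equations than unknowns. -/
theorem exists_common_zero [IsAlgClosed Ω] [Fintype J] {I : Type*} [Fintype I] (g : I → MvPolynomial J Ω)
    (hg : ∀ i, aeval (0 : J → Ω) (g i) = 0) (hcard : Fintype.card I < Fintype.card J) :
    ∃ y : J → Ω, y ≠ 0 ∧ ∀ i, aeval y (g i) = 0 := by
  classical
  by_contra hcon
  push Not at hcon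
  set K : Ideal (MvPolynomial J Ω) := Ideal.span (Set.range g) with hK
  have hzl : zeroLocus Ω K = ({0} : Set (J → Ω)) := by
    ext y
    rw [hK, zeroLocus_span]
    constructor
    · intro hy
      by_contra hy0
      obtain ⟨i, hi⟩ := hcon y hy0
      exact hi (hy (g i) ⟨i, rfl⟩)
    · intro hy
      rw [Set.mem_singleton_iff] at hy
      subst hy
      rintro _ ⟨i, rfl⟩
      exact hg i
  have hrad : K.radical = vanishingIdeal Ω ({0} : Set (J → Ω)) := by
    rw [← hzl, vanishingIdeal_zeroLocus_eq_radical]
  have hmax : (vanishingIdeal Ω ({0} : Set (J → Ω)) : Ideal (MvPolynomial J Ω)).IsMaximal :=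
    isMaximal_iff_eq_vanishingIdeal_singleton.mpr ⟨0, rfl⟩
  have hmin : (vanishingIdeal Ω ({0} : Set (J → Ω)) : Ideal (MvPolynomial J Ω)) ∈
      K.minimalPrimes := by
    refine ⟨⟨hmax.isPrime, ?_⟩, ?_⟩
    · rw [← hrad]; exact Ideal.le_radical
    · rintro P ⟨hP, hKP⟩ _
      rw [← hrad]
      exact (Ideal.IsPrime.radical_le_iff hP).mpr hKP
  have hht := Ideal.height_le_card_of_mem_minimalPrimes_span (Set.finite_range g) hmin
  have hcard' : (Set.range g).ncard ≤ Fintype.card I := by
    rw [← Set.image_univ]
    refine (Set.ncard_image_le Set.finite_univ).trans ?_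
    rw [Set.ncard_univ, Nat.card_eq_fintype_card]
  have hdim : ringKrullDim (MvPolynomial J Ω) ≤ ((Fintype.card I : ℕ∞) : WithBot ℕ∞) := by
    refine (ringKrullDim_le_iff_isMaximal_height_le _).mpr fun M hM => ?_
    obtain ⟨x, hx⟩ := isMaximal_iff_eq_vanishingIdeal_singleton.mp hM
    rw [hx, height_eq]
    refine WithBot.coe_le_coe.mpr (hht.trans ?_)
    exact_mod_cast hcard'
  rw [MvPolynomial.ringKrullDim_of_isNoetherianRing, ringKrullDim_eq_zero_of_field, zero_add,
    Nat.card_eq_fintype_card] at hdim
  have : Fintype.card J ≤ Fintype.card I := by exact_mod_cast hdim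
  omega

end Pool.Agent.DS
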