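import Pool.Agent.Lib_MP_1209e6_ds.Main
import Pool.Agent.Lib_MP_1209e6_ds.Isol

/-! Double covers branched along a hypersurface with isolated singularities of small multiplicity. -/

set_option autoImplicit false

open MvPolynomial Pool.Agent.Campana

namespace Pool.Agent.DS

theorem double_cover_mild {m : ℕ} {F : MvPolynomial (Fin (m + 2)) ℂ}
    (hF : F.IsHomogeneous (2 * m + 4)) (hs : Mild F) {n : ℕ}
    (P : Ideal (MvPolynomial (Fin (n + 1)) ℂ)) [P.IsPrime] (hP : IsVariety P)
    (hK : IsDouble (FunField P) F) : SpecialField (FunField P) ∧ BrodySpecial P :=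
  double_cover_of_reg hF hs.ne P hP hK fun _ hx δ hδ T s h => exists_partial_ne_mild hF hs hx δ hδ T s h

end Pool.Agent.DS
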