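import Pool.Agent.Lib_MP_1209e6_ds.Defs

/-! Isolated singularities of the branch hypersurface. -/

set_option autoImplicit false

open MvPolynomial

namespace Pool.Agent.DS

/-- the hypersurface `F = 0` in `ℙⁿ`, `n = m + 1`, has at most finitely many singular points, and some line
through each singular point `a` meets it at `a` with multiplicity at most `2n - 3 = 2m - 1` -/
structure Mild {m : ℕ} (F : MvPolynomial (Fin (m + 2)) ℂ) : Prop where
  ne : F ≠ 0
  fin : ∃ A : Finset (Fin (m + 2) → ℂ), ∀ p : Fin (m + 2) → ℂ, (∀ j, aeval p (pderiv j F) = 0) →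
    ∃ a ∈ A, ∃ c : ℂ, p = c • a
  mult : ∀ a : Fin (m + 2) → ℂ, a ≠ 0 → (∀ j, aeval a (pderiv j F) = 0) →
    ∃ y : Fin (m + 2) → ℂ, ¬ Polynomial.X ^ (2 * m) ∣
      aeval (fun i => Polynomial.C (a i) + Polynomial.X * Polynomial.C (y i)) F

end Pool.Agent.DS
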