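import Pool.Agent.Lib_MP_1209e6_ds.Coef
import Pool.Agent.Lib_MP_1209e6_ds.SmoothUp

/-! PIECE PART: the partial derivatives at a tangency point. -/

set_option autoImplicit false

open MvPolynomial

namespace Pool.Agent.DS

variable {Ω : Type} [Field Ω] [Algebra ℂ Ω] {m : ℕ} {F : MvPolynomial (Fin (m + 2)) ℂ}
  {x : Fin (m + 1) → Ω}

/-- At a root `s` of `q`: `F (pt s) = 0`, `d/dT F (pt s) = F_0 (pt s) + ∑ x_j F_j (pt s) = 0`
(`deriv_line`); if all `F_j (pt s) = 0`, `j ≥ 1`, then `F_0 (pt s) = 0` too, so `pt x v s = 0`, `s = 0`,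
`v = 0`. -/
theorem exists_partial_ne (hs : Smooth F) (T : TLine F x) (s : Ω) (h : T.q.IsRoot s) :
    ∃ j : Fin (m + 1), aeval (pt x T.v s) (pderiv (Fin.succ j) F) ≠ 0 := by
  by_contra hcon
  push Not at hcon
  have h1 := congrArg (Polynomial.eval s) (deriv_line F x T.v)
  rw [Polynomial.eval_add, eval_line, eval_Phi, T.eq, Polynomial.derivative_mul,
    Polynomial.derivative_pow, Polynomial.eval_add, Polynomial.eval_mul, Polynomial.eval_mul,
    Polynomial.eval_mul, Polynomial.eval_mul, Polynomial.eval_pow, Polynomial.eval_pow, h.eq_zero] at h1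
  have h2 : phi F x T.v s (fun j => (Polynomial.C (x j)).eval s) = 0 := by
    rw [phi]
    refine Finset.sum_eq_zero fun j _ => ?_
    rw [hcon j, mul_zero]
  rw [h2] at h1
  have h3 : aeval (pt x T.v s) (pderiv 0 F) = 0 := by
    simpa using h1.symm
  have h4 : pt x T.v s = 0 := by
    apply hs.up
    intro j
    refine Fin.cases h3 (fun j => hcon j) j
  have h5 : s = 0 := congrFun h4 0
  apply T.v_ne
  funext j
  have h6 := congrFun h4 (Fin.succ j)
  simp only [pt, Fin.cons_succ, h5, zero_mul, add_zero] at h6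
  exact h6

/-- the hypersurface is smooth at the tangency points of the line -/
def Reg (T : TLine F x) : Prop :=
  ∀ s, T.q.IsRoot s → ∃ j : Fin (m + 1), aeval (pt x T.v s) (pderiv (Fin.succ j) F) ≠ 0

theorem Smooth.reg (hs : Smooth F) (T : TLine F x) : Reg T :=
  fun s h => exists_partial_ne hs T s h

end Pool.Agent.DS
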